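import Pool.Agent.H61R2.Tor.Data
set_option autoImplicit false

/-! The kernel check of the certificate: `3 * Ws` is a sum of relations. -/

namespace Pool.Agent.H61R2.Tor

theorem check : Pl.isZ (Pl.add (Pl.smul (Int.negSucc 2) (words Ws)) (items Is)) = true := by
  decide +kernel

end Pool.Agent.H61R2.Tor
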