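import Pool.Agent.H61R2.Tor.Tree
set_option autoImplicit false
set_option maxRecDepth 100000

/-! Certificate data (found by computer). -/

namespace Pool.Agent.H61R2.Tor
def T0 : Tr := .m (.v 0) (.v 1)
def T1 : Tr := .m T0 (.v 2)
def T2 : Tr := .m T1 (.v 3)
def T3 : Tr := .m T0 (.v 3)
def T4 : Tr := .m T3 (.v 2)
def T5 : Tr := .m (.v 0) (.v 2)
def T6 : Tr := .m T5 (.v 4)
def T7 : Tr := .m T6 (.v 1)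
def T8 : Tr := .m T6 (.v 3)
def T9 : Tr := .m (.v 0) (.v 3)
def T10 : Tr := .m T9 (.v 4)
def T11 : Tr := .m T10 (.v 1)
def T12 : Tr := .m T10 (.v 2)
def T13 : Tr := .m (.v 0) (.v 4)
def T14 : Tr := .m T13 (.v 2)
def T15 : Tr := .m T14 (.v 3)
def T16 : Tr := .m T13 (.v 3)
def T17 : Tr := .m T16 (.v 2)
def T18 : Tr := .m (.v 1) (.v 0)
def T19 : Tr := .m T18 (.v 2)
def T20 : Tr := .m T19 (.v 3)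
def T21 : Tr := .m T18 (.v 3)
def T22 : Tr := .m T21 (.v 2)
def T23 : Tr := .m (.v 1) (.v 2)
def T24 : Tr := .m T23 (.v 4)
def T25 : Tr := .m T24 (.v 0)
def T26 : Tr := .m T24 (.v 3)
def T27 : Tr := .m (.v 1) (.v 3)
def T28 : Tr := .m T27 (.v 4)
def T29 : Tr := .m T28 (.v 0)
def T30 : Tr := .m T28 (.v 2)
def T31 : Tr := .m (.v 1) (.v 4)
def T32 : Tr := .m T31 (.v 2)
def T33 : Tr := .m T32 (.v 3)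
def T34 : Tr := .m T31 (.v 3)
def T35 : Tr := .m T34 (.v 2)
def T36 : Tr := .m (.v 2) (.v 0)
def T37 : Tr := .m T36 (.v 4)
def T38 : Tr := .m T37 (.v 1)
def T39 : Tr := .m (.v 2) (.v 1)
def T40 : Tr := .m T39 (.v 4)
def T41 : Tr := .m T40 (.v 0)
def T42 : Tr := .m (.v 3) (.v 0)
def T43 : Tr := .m T42 (.v 4)
def T44 : Tr := .m T43 (.v 1)
def T45 : Tr := .m (.v 3) (.v 1)
def T46 : Tr := .m T45 (.v 4)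
def T47 : Tr := .m T46 (.v 0)
def T48 : Tr := .m (.v 4) (.v 2)
def T49 : Tr := .m T48 (.v 0)
def T50 : Tr := .m T49 (.v 1)
def T51 : Tr := .m T48 (.v 1)
def T52 : Tr := .m T51 (.v 0)
def T53 : Tr := .m T48 (.v 3)
def T54 : Tr := .m T53 (.v 0)
def T55 : Tr := .m T53 (.v 1)
def T56 : Tr := .m (.v 4) (.v 3)
def T57 : Tr := .m T56 (.v 0)
def T58 : Tr := .m T57 (.v 1)
def T59 : Tr := .m T56 (.v 1)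
def T60 : Tr := .m T59 (.v 0)
def T61 : Tr := .m T56 (.v 2)
def T62 : Tr := .m T61 (.v 0)
def T63 : Tr := .m T61 (.v 1)
def T64 : Tr := .m (.v 2) (.v 4)
def T65 : Tr := .m (.v 0) T64
def T66 : Tr := .m T65 (.v 1)
def T67 : Tr := .m (.v 3) (.v 4)
def T68 : Tr := .m (.v 0) T67
def T69 : Tr := .m T68 (.v 1)
def T70 : Tr := .m (.v 0) T48
def T71 : Tr := .m T70 (.v 1)
def T72 : Tr := .m (.v 0) T56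
def T73 : Tr := .m T72 (.v 1)
def T74 : Tr := .m (.v 2) (.v 3)
def T75 : Tr := .m T0 T74
def T76 : Tr := .m (.v 3) (.v 2)
def T77 : Tr := .m T0 T76
def T78 : Tr := .m T0 (.v 4)
def T79 : Tr := .m T5 T31
def T80 : Tr := .m T5 T45
def T81 : Tr := .m T5 (.v 1)
def T82 : Tr := .m T5 (.v 3)
def T83 : Tr := .m T9 T31
def T84 : Tr := .m T9 T39
def T85 : Tr := .m T9 (.v 1)
def T86 : Tr := .m T9 (.v 2)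
def T87 : Tr := .m T13 (.v 1)
def T88 : Tr := .m (.v 1) T64
def T89 : Tr := .m T88 (.v 0)
def T90 : Tr := .m (.v 1) T67
def T91 : Tr := .m T90 (.v 0)
def T92 : Tr := .m (.v 1) T48
def T93 : Tr := .m T92 (.v 0)
def T94 : Tr := .m (.v 1) T56
def T95 : Tr := .m T94 (.v 0)
def T96 : Tr := .m T18 T74
def T97 : Tr := .m T18 T76
def T98 : Tr := .m T18 (.v 4)
def T99 : Tr := .m T23 T13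
def T100 : Tr := .m T23 T42
def T101 : Tr := .m T23 (.v 0)
def T102 : Tr := .m T23 (.v 3)
def T103 : Tr := .m T27 T13
def T104 : Tr := .m T27 T36
def T105 : Tr := .m T27 (.v 0)
def T106 : Tr := .m T27 (.v 2)
def T107 : Tr := .m T31 (.v 0)
def T108 : Tr := .m (.v 2) T9
def T109 : Tr := .m T108 (.v 4)
def T110 : Tr := .m (.v 2) T13
def T111 : Tr := .m T110 (.v 3)
def T112 : Tr := .m (.v 2) T27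
def T113 : Tr := .m T112 (.v 4)
def T114 : Tr := .m (.v 2) T31
def T115 : Tr := .m T114 (.v 3)
def T116 : Tr := .m (.v 2) T42
def T117 : Tr := .m T116 (.v 4)
def T118 : Tr := .m (.v 2) T45
def T119 : Tr := .m T118 (.v 4)
def T120 : Tr := .m (.v 2) T67
def T121 : Tr := .m T120 (.v 0)
def T122 : Tr := .m T120 (.v 1)
def T123 : Tr := .m T36 T45
def T124 : Tr := .m (.v 4) (.v 1)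
def T125 : Tr := .m T36 T124
def T126 : Tr := .m T36 (.v 1)
def T127 : Tr := .m T36 (.v 3)
def T128 : Tr := .m T39 T42
def T129 : Tr := .m (.v 4) (.v 0)
def T130 : Tr := .m T39 T129
def T131 : Tr := .m T39 (.v 0)
def T132 : Tr := .m T39 (.v 3)
def T133 : Tr := .m T74 T13
def T134 : Tr := .m T74 T31
def T135 : Tr := .m T74 (.v 0)
def T136 : Tr := .m T74 (.v 1)
def T137 : Tr := .m T74 (.v 4)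
def T138 : Tr := .m T64 (.v 0)
def T139 : Tr := .m T64 (.v 1)
def T140 : Tr := .m T64 (.v 3)
def T141 : Tr := .m (.v 3) T5
def T142 : Tr := .m T141 (.v 4)
def T143 : Tr := .m (.v 3) T13
def T144 : Tr := .m T143 (.v 2)
def T145 : Tr := .m (.v 3) T23
def T146 : Tr := .m T145 (.v 4)
def T147 : Tr := .m (.v 3) T31
def T148 : Tr := .m T147 (.v 2)
def T149 : Tr := .m (.v 3) T36
def T150 : Tr := .m T149 (.v 4)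
def T151 : Tr := .m (.v 3) T39
def T152 : Tr := .m T151 (.v 4)
def T153 : Tr := .m (.v 3) T64
def T154 : Tr := .m T153 (.v 0)
def T155 : Tr := .m T153 (.v 1)
def T156 : Tr := .m T42 T39
def T157 : Tr := .m T42 T124
def T158 : Tr := .m T42 (.v 1)
def T159 : Tr := .m T42 (.v 2)
def T160 : Tr := .m T45 T36
def T161 : Tr := .m T45 T129
def T162 : Tr := .m T45 (.v 0)
def T163 : Tr := .m T45 (.v 2)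
def T164 : Tr := .m T76 T13
def T165 : Tr := .m T76 T31
def T166 : Tr := .m T76 (.v 0)
def T167 : Tr := .m T76 (.v 1)
def T168 : Tr := .m T76 (.v 4)
def T169 : Tr := .m T67 (.v 0)
def T170 : Tr := .m T67 (.v 1)
def T171 : Tr := .m T67 (.v 2)
def T172 : Tr := .m (.v 4) T0
def T173 : Tr := .m T172 (.v 2)
def T174 : Tr := .m T172 (.v 3)
def T175 : Tr := .m (.v 4) T5
def T176 : Tr := .m T175 (.v 3)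
def T177 : Tr := .m (.v 4) T9
def T178 : Tr := .m T177 (.v 2)
def T179 : Tr := .m (.v 4) T18
def T180 : Tr := .m T179 (.v 2)
def T181 : Tr := .m T179 (.v 3)
def T182 : Tr := .m (.v 4) T23
def T183 : Tr := .m T182 (.v 3)
def T184 : Tr := .m (.v 4) T27
def T185 : Tr := .m T184 (.v 2)
def T186 : Tr := .m (.v 4) T36
def T187 : Tr := .m T186 (.v 1)
def T188 : Tr := .m (.v 4) T39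
def T189 : Tr := .m T188 (.v 0)
def T190 : Tr := .m (.v 4) T42
def T191 : Tr := .m T190 (.v 1)
def T192 : Tr := .m (.v 4) T45
def T193 : Tr := .m T192 (.v 0)
def T194 : Tr := .m T129 (.v 1)
def T195 : Tr := .m T129 (.v 2)
def T196 : Tr := .m T129 (.v 3)
def T197 : Tr := .m T124 (.v 0)
def T198 : Tr := .m T124 (.v 2)
def T199 : Tr := .m T124 (.v 3)
def T200 : Tr := .m (.v 0) T139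
def T201 : Tr := .m (.v 0) T170
def T202 : Tr := .m (.v 0) T51
def T203 : Tr := .m (.v 0) T59
def T204 : Tr := .m (.v 0) T23
def T205 : Tr := .m (.v 0) T27
def T206 : Tr := .m (.v 0) T31
def T207 : Tr := .m (.v 0) T112
def T208 : Tr := .m (.v 0) T74
def T209 : Tr := .m (.v 0) T145
def T210 : Tr := .m (.v 0) T76
def T211 : Tr := .m (.v 0) T124
def T212 : Tr := .m (.v 2) T56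
def T213 : Tr := .m (.v 3) T48
def T214 : Tr := .m (.v 1) T138
def T215 : Tr := .m (.v 1) T169
def T216 : Tr := .m (.v 1) T49
def T217 : Tr := .m (.v 1) T57
def T218 : Tr := .m (.v 1) T5
def T219 : Tr := .m (.v 1) T9
def T220 : Tr := .m (.v 1) T13
def T221 : Tr := .m (.v 1) T108
def T222 : Tr := .m (.v 1) T74
def T223 : Tr := .m (.v 1) T141
def T224 : Tr := .m (.v 1) T76
def T225 : Tr := .m (.v 1) T129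
def T226 : Tr := .m (.v 2) T87
def T227 : Tr := .m (.v 2) T107
def T228 : Tr := .m (.v 2) T158
def T229 : Tr := .m (.v 2) T162
def T230 : Tr := .m (.v 0) T45
def T231 : Tr := .m (.v 2) T230
def T232 : Tr := .m (.v 2) T0
def T233 : Tr := .m (.v 1) T42
def T234 : Tr := .m (.v 2) T233
def T235 : Tr := .m (.v 2) T18
def T236 : Tr := .m (.v 3) T129
def T237 : Tr := .m (.v 2) T236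
def T238 : Tr := .m (.v 3) T124
def T239 : Tr := .m (.v 2) T238
def T240 : Tr := .m (.v 2) T177
def T241 : Tr := .m (.v 2) T184
def T242 : Tr := .m (.v 2) T190
def T243 : Tr := .m (.v 2) T192
def T244 : Tr := .m (.v 2) T129
def T245 : Tr := .m (.v 2) T124
def T246 : Tr := .m (.v 3) T87
def T247 : Tr := .m (.v 3) T107
def T248 : Tr := .m (.v 3) T126
def T249 : Tr := .m (.v 3) T131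
def T250 : Tr := .m (.v 0) T39
def T251 : Tr := .m (.v 3) T250
def T252 : Tr := .m (.v 3) T0
def T253 : Tr := .m (.v 1) T36
def T254 : Tr := .m (.v 3) T253
def T255 : Tr := .m (.v 3) T18
def T256 : Tr := .m (.v 3) T244
def T257 : Tr := .m (.v 3) T245
def T258 : Tr := .m (.v 3) T175
def T259 : Tr := .m (.v 3) T182
def T260 : Tr := .m (.v 3) T186
def T261 : Tr := .m (.v 3) T188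
def T262 : Tr := .m (.v 4) T82
def T263 : Tr := .m (.v 4) T86
def T264 : Tr := .m (.v 4) T102
def T265 : Tr := .m (.v 4) T106
def T266 : Tr := .m (.v 4) T127
def T267 : Tr := .m (.v 4) T132
def T268 : Tr := .m (.v 4) T159
def T269 : Tr := .m (.v 4) T163
def T270 : Tr := .m (.v 4) T74
def T271 : Tr := .m (.v 4) T76
def I0 : Bt Item :=
  (.n (.n (.n (.n (.l ⟨-1, T2, (.v 4), 0, 0, 0, 0⟩) (.l ⟨1, T4, (.v 4), 0, 0, 0, 0⟩)) (.n (.l ⟨-1, T7, (.v 3), 0, 0, 0, 0⟩) (.l ⟨1, T8, (.v 1), 0, 0, 0, 0⟩))) (.n (.n (.l ⟨1, T11, (.v 2), 0, 0, 0, 0⟩) (.l ⟨-1, T12, (.v 1), 0, 0, 0, 0⟩)) (.n (.l ⟨-1, T15, (.v 1), 0, 0, 0, 0⟩) (.l ⟨1, T17, (.v 1), 0, 0, 0, 0⟩)))) (.n (.n (.n (.l ⟨1, T20, (.v 4), 0, 0, 0, 0⟩) (.l ⟨-1, T22, (.v 4), 0, 0, 0, 0⟩)) (.n (.l ⟨1, T25, (.v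 3), 0, 0, 0, 0⟩) (.l ⟨-1, T26, (.v 0), 0, 0, 0, 0⟩))) (.n (.n (.l ⟨-1, T29, (.v 2), 0, 0, 0, 0⟩) (.l ⟨1, T30, (.v 0), 0, 0, 0, 0⟩)) (.n (.l ⟨1, T33, (.v 0), 0, 0, 0, 0⟩) (.l ⟨-1, T35, (.v 0), 0, 0, 0, 0⟩)))))
def I1 : Bt Item :=
  (.n (.n (.n (.n (.l ⟨1, T38, (.v 3), 0, 0, 0, 0⟩) (.l ⟨-1, T41, (.v 3), 0, 0, 0, 0⟩)) (.n (.l ⟨-1, T44, (.v 2), 0, 0, 0, 0⟩) (.l ⟨1, T47, (.v 2), 0, 0, 0, 0⟩))) (.n (.n (.l ⟨1, T50, (.v 3), 0, 0, 0, 0⟩) (.l ⟨-1, T52, (.v 3), 0, 0, 0, 0⟩)) (.n (.l ⟨-1, T54, (.v 1), 0, 0, 0, 0⟩) (.l ⟨1, T55, (.v 0), 0, 0, 0, 0⟩)))) (.n (.n (.n (.l ⟨-1, T58, (.v 2), 0, 0, 0, 0⟩) (.l ⟨1, T60, (.v 2), 0, 0, 0, 0⟩)) (.n (.l ⟨1, T62, (.v 1), 0, 0, 0, 0⟩) (.l ⟨-1, T63, (.v 0), 0, 0, 0, 0⟩))) (.n (.n (.l ⟨-1, T66, (.v 3), 0, 0, 0, 0⟩) (.l ⟨1,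 T69, (.v 2), 0, 0, 0, 0⟩)) (.n (.l ⟨1, T71, (.v 3), 0, 0, 0, 0⟩) (.l ⟨-1, T73, (.v 2), 0, 0, 0, 0⟩)))))
def I2 : Bt Item :=
  (.n (.n (.n (.n (.l ⟨1, T75, (.v 4), 0, 0, 0, 0⟩) (.l ⟨-1, T77, (.v 4), 0, 0, 0, 0⟩)) (.n (.l ⟨1, T1, (.v 3), 0, 0, 1, 8⟩) (.l ⟨-1, T1, (.v 4), 0, 0, 1, 6⟩))) (.n (.n (.l ⟨-1, T3, (.v 2), 0, 0, 1, 8⟩) (.l ⟨1, T3, (.v 4), 0, 0, 1, 4⟩)) (.n (.l ⟨-1, T78, T74, 0, 0, 0, 0⟩) (.l ⟨1, T78, T76, 0, 0, 0, 0⟩)))) (.n (.n (.n (.l ⟨-1, T78, (.v 2), 1, 6, 0, 0⟩) (.l ⟨1, T78, (.v 3), 1, 4, 0, 0⟩)) (.n (.l ⟨-1, T79, (.v 3), 0, 0, 0, 0⟩) (.l ⟨1, T80, (.v 4), 0, 0, 0, 0⟩))) (.n (.n (.l ⟨-1, T81, T67, 0, 0, 0, 0⟩) (.l ⟨1, T81, (.v 4), 0, 0, 1, 7⟩)) (.n (.l ⟨1, T82, (.v 4), 0, 0, 1, 2⟩) (.l ⟨1, T82, (.v 4), 0, 0, 1, 3⟩)))))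
def I3 : Bt Item :=
  (.n (.n (.n (.n (.l ⟨1, T6, (.v 3), 1, 2, 0, 0⟩) (.l ⟨1, T83, (.v 2), 0, 0, 0, 0⟩)) (.n (.l ⟨-1, T84, (.v 4), 0, 0, 0, 0⟩) (.l ⟨1, T85, T64, 0, 0, 0, 0⟩))) (.n (.n (.l ⟨-1, T85, (.v 4), 0, 0, 1, 5⟩) (.l ⟨-1, T86, (.v 4), 0, 0, 1, 2⟩)) (.n (.l ⟨-1, T86, (.v 4), 0, 0, 1, 3⟩) (.l ⟨-1, T10, (.v 2), 1, 2, 0, 0⟩)))) (.n (.n (.n (.l ⟨-1, T87, (.v 2), 0, 0, 1, 6⟩) (.l ⟨1, T87, (.v 2), 1, 7, 0, 0⟩)) (.n (.l ⟨1, T87, (.v 3), 0, 0, 1, 4⟩) (.l ⟨-1, T87, (.v 3), 1, 5, 0, 0⟩))) (.n (.n (.l ⟨1, T14, T27, 0, 0, 0, 0⟩) (.l ⟨-1, T14, (.v 3), 0, 0, 1, 3⟩)) (.n (.l ⟨1, T14, (.v 3), 1, 3, 0, 0⟩) (.l ⟨-1, T16, T23, 0, 0, 0, 0⟩)))))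
def I4 : Bt Item :=
  (.n (.n (.n (.n (.l ⟨1, T16, (.v 2), 0, 0, 1, 3⟩) (.l ⟨-1, T16, (.v 2), 1, 3, 0, 0⟩)) (.n (.l ⟨1, T89, (.v 3), 0, 0, 0, 0⟩) (.l ⟨-1, T91, (.v 2), 0, 0, 0, 0⟩))) (.n (.n (.l ⟨-1, T93, (.v 3), 0, 0, 0, 0⟩) (.l ⟨1, T95, (.v 2), 0, 0, 0, 0⟩)) (.n (.l ⟨-1, T96, (.v 4), 0, 0, 0, 0⟩) (.l ⟨1, T97, (.v 4), 0, 0, 0, 0⟩)))) (.n (.n (.n (.l ⟨-1, T19, (.v 3), 0, 0, 1, 8⟩) (.l ⟨1, T19, (.v 4), 0, 0, 1, 6⟩)) (.n (.l ⟨1, T21, (.v 2), 0, 0, 1, 8⟩) (.l ⟨-1, T21, (.v 4), 0, 0, 1, 4⟩))) (.n (.n (.l ⟨1, T98, T74, 0, 0, 0, 0⟩) (.l ⟨-1, T98, T76, 0, 0, 0, 0⟩)) (.n (.l ⟨1, T98, (.v 2), 1, 6, 0, 0⟩) (.l ⟨-1, T98, (.v 3), 1, 4, 0, 0⟩)))))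
def I5 : Bt Item :=
  (.n (.n (.n (.n (.l ⟨1, T99, (.v 3), 0, 0, 0, 0⟩) (.l ⟨-1, T100, (.v 4), 0, 0, 0, 0⟩)) (.n (.l ⟨1, T101, T67, 0, 0, 0, 0⟩) (.l ⟨-1, T101, (.v 4), 0, 0, 1, 7⟩))) (.n (.n (.l ⟨-1, T102, (.v 4), 0, 0, 1, 0⟩) (.l ⟨-1, T102, (.v 4), 0, 0, 1, 1⟩)) (.n (.l ⟨-1, T24, (.v 3), 1, 0, 0, 0⟩) (.l ⟨-1, T103, (.v 2), 0, 0, 0, 0⟩)))) (.n (.n (.n (.l ⟨1, T104, (.v 4), 0, 0, 0, 0⟩) (.l ⟨-1, T105, T64, 0, 0, 0, 0⟩)) (.n (.l ⟨1, T105, (.v 4), 0, 0, 1, 5⟩) (.l ⟨1, T106, (.v 4), 0, 0, 1, 0⟩))) (.n (.n (.l ⟨1, T106, (.v 4), 0, 0, 1, 1⟩) (.l ⟨1, T28, (.v 2), 1, 0, 0, 0⟩)) (.n (.l ⟨1, T107, (.v 2), 0, 0, 1, 6⟩) (.l ⟨-1, T107, (.v 2), 1, 7, 0, 0⟩)))))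
def I6 : Bt Item :=
  (.n (.n (.n (.n (.l ⟨-1, T107, (.v 3), 0, 0, 1, 4⟩) (.l ⟨1, T107, (.v 3), 1, 5, 0, 0⟩)) (.n (.l ⟨-1, T32, T9, 0, 0, 0, 0⟩) (.l ⟨1, T32, (.v 3), 0, 0, 1, 1⟩))) (.n (.n (.l ⟨-1, T32, (.v 3), 1, 1, 0, 0⟩) (.l ⟨1, T34, T5, 0, 0, 0, 0⟩)) (.n (.l ⟨-1, T34, (.v 2), 0, 0, 1, 1⟩) (.l ⟨1, T34, (.v 2), 1, 1, 0, 0⟩)))) (.n (.n (.n (.l ⟨-1, T109, (.v 1), 0, 0, 0, 0⟩) (.l ⟨-1, T111, (.v 1), 0, 0, 0, 0⟩)) (.n (.l ⟨1, T113, (.v 0), 0, 0, 0, 0⟩) (.l ⟨1, T115, (.v 0), 0, 0, 0, 0⟩))) (.n (.n (.l ⟨-1, T117, (.v 1), 0, 0, 0, 0⟩) (.l ⟨1, T119, (.v 0), 0, 0, 0, 0⟩)) (.n (.l ⟨-1, T121, (.v 1), 0, 0, 0, 0⟩) (.l ⟨1, T122, (.v 0), 0, 0, 0, 0⟩)))))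
def I7 : Bt Item :=
  (.n (.n (.n (.n (.l ⟨1, T123, (.v 4), 0, 0, 0, 0⟩) (.l ⟨-1, T125, (.v 3), 0, 0, 0, 0⟩)) (.n (.l ⟨1, T126, T67, 0, 0, 0, 0⟩) (.l ⟨-1, T126, (.v 3), 1, 8, 0, 0⟩))) (.n (.n (.l ⟨-1, T126, (.v 3), 1, 9, 0, 0⟩) (.l ⟨1, T126, (.v 4), 0, 0, 1, 7⟩)) (.n (.l ⟨1, T127, (.v 1), 0, 0, 1, 8⟩) (.l ⟨1, T127, (.v 4), 1, 3, 0, 0⟩)))) (.n (.n (.n (.l ⟨-1, T128, (.v 4), 0, 0, 0, 0⟩) (.l ⟨1, T130, (.v 3), 0, 0, 0, 0⟩)) (.n (.l ⟨-1, T131, T67, 0, 0, 0, 0⟩) (.l ⟨1, T131, (.v 3), 1, 8, 0, 0⟩))) (.n (.n (.l ⟨1, T131, (.v 3), 1, 9, 0, 0⟩) (.l ⟨-1, T131, (.v 4), 0, 0, 1, 7⟩)) (.n (.l ⟨-1, T132, (.v 0), 0, 0, 1, 8⟩) (.l ⟨-1, T132, (.v 4), 1, 1, 0, 0⟩)))))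
def I8 : Bt Item :=
  (.n (.n (.n (.n (.l ⟨1, T133, (.v 1), 0, 0, 0, 0⟩) (.l ⟨-1, T134, (.v 0), 0, 0, 0, 0⟩)) (.n (.l ⟨1, T135, (.v 1), 1, 9, 0, 0⟩) (.l ⟨-1, T135, (.v 4), 0, 0, 1, 3⟩))) (.n (.n (.l ⟨-1, T135, (.v 4), 1, 2, 0, 0⟩) (.l ⟨-1, T136, (.v 0), 1, 9, 0, 0⟩)) (.n (.l ⟨1, T136, (.v 4), 0, 0, 1, 1⟩) (.l ⟨1, T136, (.v 4), 1, 0, 0, 0⟩)))) (.n (.n (.n (.l ⟨1, T137, (.v 0), 1, 3, 0, 0⟩) (.l ⟨-1, T137, (.v 1), 1, 1, 0, 0⟩)) (.n (.l ⟨-1, T138, T45, 0, 0, 0, 0⟩) (.l ⟨1, T139, T42, 0, 0, 0, 0⟩))) (.n (.n (.l ⟨1, T140, (.v 0), 0, 0, 1, 3⟩) (.l ⟨1, T140, (.v 0), 1, 3, 0, 0⟩)) (.n (.l ⟨-1, T140, (.v 1), 0, 0, 1, 1⟩) (.l ⟨-1, T140, (.v 1), 1, 1, 0, 0⟩)))))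
def I9 : Bt Item :=
  (.n (.n (.n (.n (.l ⟨1, T142, (.v 1), 0, 0, 0, 0⟩) (.l ⟨1, T144, (.v 1), 0, 0, 0, 0⟩)) (.n (.l ⟨-1, T146, (.v 0), 0, 0, 0, 0⟩) (.l ⟨-1, T148, (.v 0), 0, 0, 0, 0⟩))) (.n (.n (.l ⟨1, T150, (.v 1), 0, 0, 0, 0⟩) (.l ⟨-1, T152, (.v 0), 0, 0, 0, 0⟩)) (.n (.l ⟨1, T154, (.v 1), 0, 0, 0, 0⟩) (.l ⟨-1, T155, (.v 0), 0, 0, 0, 0⟩)))) (.n (.n (.n (.l ⟨-1, T156, (.v 4), 0, 0, 0, 0⟩) (.l ⟨1, T157, (.v 2), 0, 0, 0, 0⟩)) (.n (.l ⟨-1, T158, T64, 0, 0, 0, 0⟩) (.l ⟨1, T158, (.v 2), 1, 8, 0, 0⟩))) (.n (.n (.l ⟨1, T158, (.v 2), 1, 9, 0, 0⟩) (.l ⟨-1, T158, (.v 4), 0, 0, 1, 5⟩)) (.n (.l ⟨-1, T159, (.v 1), 0, 0, 1, 8⟩) (.l ⟨-1, T159, (.v 4), 1, 3, 0, 0⟩)))))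
def I10 : Bt Item :=
  (.n (.n (.n (.n (.l ⟨1, T160, (.v 4), 0, 0, 0, 0⟩) (.l ⟨-1, T161, (.v 2), 0, 0, 0, 0⟩)) (.n (.l ⟨1, T162, T64, 0, 0, 0, 0⟩) (.l ⟨-1, T162, (.v 2), 1, 8, 0, 0⟩))) (.n (.n (.l ⟨-1, T162, (.v 2), 1, 9, 0, 0⟩) (.l ⟨1, T162, (.v 4), 0, 0, 1, 5⟩)) (.n (.l ⟨1, T163, (.v 0), 0, 0, 1, 8⟩) (.l ⟨1, T163, (.v 4), 1, 1, 0, 0⟩)))) (.n (.n (.n (.l ⟨-1, T164, (.v 1), 0, 0, 0, 0⟩) (.l ⟨1, T165, (.v 0), 0, 0, 0, 0⟩)) (.n (.l ⟨-1, T166, (.v 1), 1, 9, 0, 0⟩) (.l ⟨1, T166, (.v 4), 0, 0, 1, 3⟩))) (.n (.n (.l ⟨1, T166, (.v 4), 1, 2, 0, 0⟩) (.l ⟨1, T167, (.v 0), 1, 9, 0, 0⟩)) (.n (.l ⟨-1, T167, (.v 4), 0, 0, 1, 1⟩) (.l ⟨-1, T167, (.v 4), 1, 0, 0, 0⟩)))))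
def I11 : Bt Item :=
  (.n (.n (.n (.n (.l ⟨-1, T168, (.v 0), 1, 3, 0, 0⟩) (.l ⟨1, T168, (.v 1), 1, 1, 0, 0⟩)) (.n (.l ⟨1, T169, T39, 0, 0, 0, 0⟩) (.l ⟨-1, T170, T36, 0, 0, 0, 0⟩))) (.n (.n (.l ⟨-1, T171, (.v 0), 0, 0, 1, 3⟩) (.l ⟨-1, T171, (.v 0), 1, 3, 0, 0⟩)) (.n (.l ⟨1, T171, (.v 1), 0, 0, 1, 1⟩) (.l ⟨1, T171, (.v 1), 1, 1, 0, 0⟩)))) (.n (.n (.n (.l ⟨1, T173, (.v 3), 0, 0, 0, 0⟩) (.l ⟨-1, T174, (.v 2), 0, 0, 0, 0⟩)) (.n (.l ⟨-1, T176, (.v 1), 0, 0, 0, 0⟩) (.l ⟨1, T178, (.v 1), 0, 0, 0, 0⟩))) (.n (.n (.l ⟨-1, T180, (.v 3), 0, 0, 0, 0⟩) (.l ⟨1, T181, (.v 2), 0, 0, 0, 0⟩)) (.n (.l ⟨1, T183, (.v 0), 0, 0, 0, 0⟩) (.l ⟨-1, T185, (.v 0), 0, 0, 0, 0⟩)))))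
def I12 : Bt Item :=
  (.n (.n (.n (.n (.l ⟨1, T187, (.v 3), 0, 0, 0, 0⟩) (.l ⟨-1, T189, (.v 3), 0, 0, 0, 0⟩)) (.n (.l ⟨-1, T191, (.v 2), 0, 0, 0, 0⟩) (.l ⟨1, T193, (.v 2), 0, 0, 0, 0⟩))) (.n (.n (.l ⟨1, T194, (.v 2), 0, 0, 1, 7⟩) (.l ⟨-1, T194, (.v 3), 0, 0, 1, 5⟩)) (.n (.l ⟨-1, T195, (.v 1), 0, 0, 1, 6⟩) (.l ⟨1, T196, (.v 1), 0, 0, 1, 4⟩)))) (.n (.n (.n (.l ⟨-1, T197, (.v 2), 0, 0, 1, 7⟩) (.l ⟨1, T197, (.v 3), 0, 0, 1, 5⟩)) (.n (.l ⟨1, T198, (.v 0), 0, 0, 1, 6⟩) (.l ⟨-1, T199, (.v 0), 0, 0, 1, 4⟩))) (.n (.n (.l ⟨-1, T49, T45, 0, 0, 0, 0⟩) (.l ⟨1, T49, (.v 3), 0, 0, 1, 2⟩)) (.n (.l ⟨1, T51, T42, 0, 0, 0, 0⟩) (.l ⟨-1, T51, (.v 3), 0, 0, 1, 0⟩)))))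
def I13 : Bt Item :=
  (.n (.n (.n (.n (.l ⟨1, T53, (.v 0), 0, 0, 1, 2⟩) (.l ⟨-1, T53, (.v 0), 0, 0, 1, 3⟩)) (.n (.l ⟨-1, T53, (.v 1), 0, 0, 1, 0⟩) (.l ⟨1, T53, (.v 1), 0, 0, 1, 1⟩))) (.n (.n (.l ⟨1, T57, T39, 0, 0, 0, 0⟩) (.l ⟨-1, T57, (.v 2), 0, 0, 1, 2⟩)) (.n (.l ⟨-1, T59, T36, 0, 0, 0, 0⟩) (.l ⟨1, T59, (.v 2), 0, 0, 1, 0⟩)))) (.n (.n (.n (.l ⟨-1, T61, (.v 0), 0, 0, 1, 2⟩) (.l ⟨1, T61, (.v 0), 0, 0, 1, 3⟩)) (.n (.l ⟨1, T61, (.v 1), 0, 0, 1, 0⟩) (.l ⟨-1, T61, (.v 1), 0, 0, 1, 1⟩))) (.n (.n (.l ⟨1, T200, (.v 3), 0, 0, 0, 0⟩) (.l ⟨-1, T201, (.v 2), 0, 0, 0, 0⟩)) (.n (.l ⟨1, T202, (.v 3), 0, 0, 0, 0⟩) (.l ⟨-1, T203, (.v 2), 0, 0, 0, 0⟩)))))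
def I14 : Bt Item :=
  (.n (.n (.n (.n (.l ⟨1, T204, T67, 0, 0, 0, 0⟩) (.l ⟨-1, T204, T56, 0, 0, 0, 0⟩)) (.n (.l ⟨1, T204, (.v 3), 1, 9, 0, 0⟩) (.l ⟨1, T204, (.v 4), 0, 0, 1, 7⟩))) (.n (.n (.l ⟨1, T204, (.v 4), 1, 7, 0, 0⟩) (.l ⟨-1, T205, T64, 0, 0, 0, 0⟩)) (.n (.l ⟨1, T205, T48, 0, 0, 0, 0⟩) (.l ⟨-1, T205, (.v 2), 1, 9, 0, 0⟩)))) (.n (.n (.n (.l ⟨-1, T205, (.v 4), 0, 0, 1, 5⟩) (.l ⟨-1, T205, (.v 4), 1, 5, 0, 0⟩)) (.n (.l ⟨1, T206, T74, 0, 0, 0, 0⟩) (.l ⟨-1, T206, T76, 0, 0, 0, 0⟩))) (.n (.n (.l ⟨1, T206, (.v 2), 1, 6, 0, 0⟩) (.l ⟨-1, T206, (.v 3), 1, 4, 0, 0⟩)) (.n (.l ⟨-1, T207, (.v 4), 0, 0, 0, 0⟩) (.l ⟨1, T208, (.v 1), 0, 0, 1, 8⟩)))))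
def I15 : Bt Item :=
  (.n (.n (.n (.n (.l ⟨-1, T65, (.v 1), 0, 0, 1, 7⟩) (.l ⟨-1, T65, (.v 3), 0, 0, 1, 2⟩)) (.n (.l ⟨-1, T65, (.v 3), 1, 2, 0, 0⟩) (.l ⟨1, T209, (.v 4), 0, 0, 0, 0⟩))) (.n (.n (.l ⟨-1, T210, (.v 1), 0, 0, 1, 8⟩) (.l ⟨1, T68, (.v 1), 0, 0, 1, 5⟩)) (.n (.l ⟨1, T68, (.v 2), 0, 0, 1, 2⟩) (.l ⟨1, T68, (.v 2), 1, 2, 0, 0⟩)))) (.n (.n (.n (.l ⟨1, T211, (.v 2), 1, 7, 0, 0⟩) (.l ⟨-1, T211, (.v 3), 1, 5, 0, 0⟩)) (.n (.l ⟨-1, T70, T27, 0, 0, 0, 0⟩) (.l ⟨1, T70, (.v 1), 1, 6, 0, 0⟩))) (.n (.n (.l ⟨1, T72, T23, 0, 0, 0, 0⟩) (.l ⟨-1, T72, (.v 1), 1, 4, 0, 0⟩)) (.n (.l ⟨-1, T0, T212, 0, 0, 0, 0⟩) (.l ⟨-1, T0, T64, 1, 6, 0, 0⟩)))))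
def I16 : Bt Item :=
  (.n (.n (.n (.n (.l ⟨-1, T0, T64, 1, 7, 0, 0⟩) (.l ⟨1, T0, T213, 0, 0, 0, 0⟩)) (.n (.l ⟨1, T0, T67, 1, 4, 0, 0⟩) (.l ⟨1, T0, T67, 1, 5, 0, 0⟩))) (.n (.n (.l ⟨1, T0, (.v 2), 0, 0, 2, 150⟩) (.l ⟨1, T0, (.v 2), 0, 0, 2, 120⟩)) (.n (.l ⟨1, T0, (.v 2), 0, 0, 2, 121⟩) (.l ⟨-1, T0, (.v 2), 1, 8, 1, 7⟩)))) (.n (.n (.n (.l ⟨1, T0, (.v 2), 2, 121, 0, 0⟩) (.l ⟨-1, T0, (.v 2), 1, 9, 1, 7⟩)) (.n (.l ⟨-1, T0, (.v 3), 0, 0, 2, 148⟩) (.l ⟨-1, T0, (.v 3), 0, 0, 2, 88⟩))) (.n (.n (.l ⟨-1, T0, (.v 3), 0, 0, 2, 89⟩) (.l ⟨1, T0, (.v 3), 1, 8, 1, 5⟩)) (.n (.l ⟨-1, T0, (.v 3), 2, 89, 0, 0⟩) (.l ⟨1, T0, (.v 3), 1, 9, 1, 5⟩)))))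
def I17 : Bt Item :=
  (.n (.n (.n (.n (.l ⟨-1, T0, (.v 4), 0, 0, 2, 100⟩) (.l ⟨1, T0, (.v 4), 0, 0, 2, 70⟩)) (.n (.l ⟨-1, T0, (.v 4), 1, 4, 1, 6⟩) (.l ⟨1, T0, (.v 4), 1, 6, 1, 4⟩))) (.n (.n (.l ⟨-1, T5, T94, 0, 0, 0, 0⟩) (.l ⟨2, T5, T27, 0, 0, 1, 8⟩)) (.n (.l ⟨-2, T5, T27, 0, 0, 1, 9⟩) (.l ⟨-2, T5, T27, 1, 8, 0, 0⟩)))) (.n (.n (.n (.l ⟨1, T5, T124, 0, 0, 1, 6⟩) (.l ⟨1, T5, T124, 0, 0, 1, 7⟩)) (.n (.l ⟨1, T5, (.v 1), 0, 0, 2, 134⟩) (.l ⟨-1, T5, (.v 1), 2, 134, 0, 0⟩))) (.n (.n (.l ⟨-1, T5, (.v 1), 2, 150, 0, 0⟩) (.l ⟨1, T5, (.v 1), 1, 6, 1, 9⟩)) (.n (.l ⟨1, T5, (.v 1), 2, 105, 0, 0⟩) (.l ⟨1, T5, (.v 3), 0, 0, 2, 146⟩)))))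
def I18 : Bt Item :=
  (.n (.n (.n (.n (.l ⟨1, T5, (.v 3), 0, 0, 2, 40⟩) (.l ⟨1, T5, (.v 3), 2, 131, 0, 0⟩)) (.n (.l ⟨1, T5, (.v 3), 1, 8, 1, 2⟩) (.l ⟨1, T9, T92, 0, 0, 0, 0⟩))) (.n (.n (.l ⟨-2, T9, T23, 0, 0, 1, 8⟩) (.l ⟨2, T9, T23, 0, 0, 1, 9⟩)) (.n (.l ⟨2, T9, T23, 1, 8, 0, 0⟩) (.l ⟨-1, T9, T124, 0, 0, 1, 4⟩)))) (.n (.n (.n (.l ⟨-1, T9, T124, 0, 0, 1, 5⟩) (.l ⟨-1, T9, (.v 1), 0, 0, 2, 132⟩)) (.n (.l ⟨1, T9, (.v 1), 2, 132, 0, 0⟩) (.l ⟨1, T9, (.v 1), 2, 148, 0, 0⟩))) (.n (.n (.l ⟨-1, T9, (.v 1), 1, 4, 1, 9⟩) (.l ⟨-1, T9, (.v 1), 2, 73, 0, 0⟩)) (.n (.l ⟨-1, T9, (.v 2), 0, 0, 2, 146⟩) (.l ⟨-1, T9, (.v 2), 0, 0, 2, 40⟩)))))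
def I19 : Bt Item :=
  (.n (.n (.n (.n (.l ⟨-1, T9, (.v 2), 2, 131, 0, 0⟩) (.l ⟨-1, T9, (.v 2), 1, 8, 1, 2⟩)) (.n (.l ⟨1, T13, T118, 0, 0, 0, 0⟩) (.l ⟨-1, T13, T151, 0, 0, 0, 0⟩))) (.n (.n (.l ⟨1, T13, (.v 1), 1, 4, 1, 7⟩) (.l ⟨-1, T13, (.v 1), 1, 5, 1, 6⟩)) (.n (.l ⟨1, T13, (.v 1), 1, 5, 1, 7⟩) (.l ⟨-1, T13, (.v 1), 1, 6, 1, 5⟩)))) (.n (.n (.n (.l ⟨1, T13, (.v 1), 1, 7, 1, 4⟩) (.l ⟨-1, T13, (.v 1), 1, 7, 1, 5⟩)) (.n (.l ⟨-1, T13, (.v 2), 0, 0, 2, 115⟩) (.l ⟨1, T13, (.v 2), 0, 0, 2, 38⟩))) (.n (.n (.l ⟨-1, T13, (.v 2), 1, 2, 1, 6⟩) (.l ⟨-1, T13, (.v 2), 2, 55, 0, 0⟩)) (.n (.l ⟨1, T13, (.v 2), 1, 7, 1, 2⟩) (.l ⟨1, T13, (.v 3), 0, 0, 2, 83⟩)))))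
def I20 : Bt Item :=
  (.n (.n (.n (.n (.l ⟨-1, T13, (.v 3), 0, 0, 2, 36⟩) (.l ⟨1, T13, (.v 3), 1, 2, 1, 4⟩)) (.n (.l ⟨1, T13, (.v 3), 2, 53, 0, 0⟩) (.l ⟨-1, T13, (.v 3), 1, 5, 1, 2⟩))) (.n (.n (.l ⟨-1, T214, (.v 3), 0, 0, 0, 0⟩) (.l ⟨1, T215, (.v 2), 0, 0, 0, 0⟩)) (.n (.l ⟨-1, T216, (.v 3), 0, 0, 0, 0⟩) (.l ⟨1, T217, (.v 2), 0, 0, 0, 0⟩)))) (.n (.n (.n (.l ⟨-1, T218, T67, 0, 0, 0, 0⟩) (.l ⟨1, T218, T56, 0, 0, 0, 0⟩)) (.n (.l ⟨-1, T218, (.v 3), 1, 9, 0, 0⟩) (.l ⟨-1, T218, (.v 4), 0, 0, 1, 7⟩))) (.n (.n (.l ⟨-1, T218, (.v 4), 1, 7, 0, 0⟩) (.l ⟨1, T219, T64, 0, 0, 0, 0⟩)) (.n (.l ⟨-1, T219, T48, 0, 0, 0, 0⟩) (.l ⟨1, T219, (.v 2), 1, 9, 0, 0⟩)))))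
def I21 : Bt Item :=
  (.n (.n (.n (.n (.l ⟨1, T219, (.v 4), 0, 0, 1, 5⟩) (.l ⟨1, T219, (.v 4), 1, 5, 0, 0⟩)) (.n (.l ⟨-1, T220, T74, 0, 0, 0, 0⟩) (.l ⟨1, T220, T76, 0, 0, 0, 0⟩))) (.n (.n (.l ⟨-1, T220, (.v 2), 1, 6, 0, 0⟩) (.l ⟨1, T220, (.v 3), 1, 4, 0, 0⟩)) (.n (.l ⟨1, T221, (.v 4), 0, 0, 0, 0⟩) (.l ⟨-1, T222, (.v 0), 0, 0, 1, 8⟩)))) (.n (.n (.n (.l ⟨1, T88, (.v 0), 0, 0, 1, 7⟩) (.l ⟨1, T88, (.v 3), 0, 0, 1, 0⟩)) (.n (.l ⟨1, T88, (.v 3), 1, 0, 0, 0⟩) (.l ⟨-1, T223, (.v 4), 0, 0, 0, 0⟩))) (.n (.n (.l ⟨1, T224, (.v 0), 0, 0, 1, 8⟩) (.l ⟨-1, T90, (.v 0), 0, 0, 1, 5⟩)) (.n (.l ⟨-1, T90, (.v 2), 0, 0, 1, 0⟩) (.l ⟨-1, T90, (.v 2), 1, 0, 0, 0⟩)))))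
def I22 : Bt Item :=
  (.n (.n (.n (.n (.l ⟨-1, T225, (.v 2), 1, 7, 0, 0⟩) (.l ⟨1, T225, (.v 3), 1, 5, 0, 0⟩)) (.n (.l ⟨-1, T92, (.v 0), 1, 6, 0, 0⟩) (.l ⟨1, T94, (.v 0), 1, 4, 0, 0⟩))) (.n (.n (.l ⟨1, T18, T212, 0, 0, 0, 0⟩) (.l ⟨1, T18, T64, 1, 6, 0, 0⟩)) (.n (.l ⟨1, T18, T64, 1, 7, 0, 0⟩) (.l ⟨-1, T18, T213, 0, 0, 0, 0⟩)))) (.n (.n (.n (.l ⟨-1, T18, T67, 1, 4, 0, 0⟩) (.l ⟨-1, T18, T67, 1, 5, 0, 0⟩)) (.n (.l ⟨-1, T18, (.v 2), 0, 0, 2, 150⟩) (.l ⟨-1, T18, (.v 2), 0, 0, 2, 120⟩))) (.n (.n (.l ⟨-1, T18, (.v 2), 0, 0, 2, 121⟩) (.l ⟨1, T18, (.v 2), 1, 8, 1, 7⟩)) (.n (.l ⟨-1, T18, (.v 2), 2, 121, 0, 0⟩) (.l ⟨1, T18, (.v 2), 1, 9, 1, 7⟩)))))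
def I23 : Bt Item :=
  (.n (.n (.n (.n (.l ⟨1, T18, (.v 3), 0, 0, 2, 148⟩) (.l ⟨1, T18, (.v 3), 0, 0, 2, 88⟩)) (.n (.l ⟨1, T18, (.v 3), 0, 0, 2, 89⟩) (.l ⟨-1, T18, (.v 3), 1, 8, 1, 5⟩))) (.n (.n (.l ⟨1, T18, (.v 3), 2, 89, 0, 0⟩) (.l ⟨-1, T18, (.v 3), 1, 9, 1, 5⟩)) (.n (.l ⟨1, T18, (.v 4), 0, 0, 2, 100⟩) (.l ⟨-1, T18, (.v 4), 0, 0, 2, 70⟩)))) (.n (.n (.n (.l ⟨1, T18, (.v 4), 1, 4, 1, 6⟩) (.l ⟨-1, T18, (.v 4), 1, 6, 1, 4⟩)) (.n (.l ⟨-1, T23, T129, 0, 0, 1, 6⟩) (.l ⟨-1, T23, T129, 0, 0, 1, 7⟩))) (.n (.n (.l ⟨-1, T23, (.v 0), 0, 0, 2, 134⟩) (.l ⟨1, T23, (.v 0), 2, 134, 0, 0⟩)) (.n (.l ⟨1, T23, (.v 0), 2, 150, 0, 0⟩) (.l ⟨-1, T23, (.v 0), 1, 6, 1, 9⟩)))))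
def I24 : Bt Item :=
  (.n (.n (.n (.n (.l ⟨-1, T23, (.v 0), 2, 105, 0, 0⟩) (.l ⟨-1, T23, (.v 3), 0, 0, 2, 144⟩)) (.n (.l ⟨-1, T23, (.v 3), 0, 0, 2, 8⟩) (.l ⟨-1, T23, (.v 3), 2, 129, 0, 0⟩))) (.n (.n (.l ⟨-1, T23, (.v 3), 1, 8, 1, 0⟩) (.l ⟨1, T27, T129, 0, 0, 1, 4⟩)) (.n (.l ⟨1, T27, T129, 0, 0, 1, 5⟩) (.l ⟨1, T27, (.v 0), 0, 0, 2, 132⟩)))) (.n (.n (.n (.l ⟨-1, T27, (.v 0), 2, 132, 0, 0⟩) (.l ⟨-1, T27, (.v 0), 2, 148, 0, 0⟩)) (.n (.l ⟨1, T27, (.v 0), 1, 4, 1, 9⟩) (.l ⟨1, T27, (.v 0), 2, 73, 0, 0⟩))) (.n (.n (.l ⟨1, T27, (.v 2), 0, 0, 2, 144⟩) (.l ⟨1, T27, (.v 2), 0, 0, 2, 8⟩)) (.n (.l ⟨1, T27, (.v 2), 2, 129, 0, 0⟩) (.l ⟨1, T27, (.v 2), 1, 8, 1, 0⟩)))))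
def I25 : Bt Item :=
  (.n (.n (.n (.n (.l ⟨-1, T31, T116, 0, 0, 0, 0⟩) (.l ⟨1, T31, T149, 0, 0, 0, 0⟩)) (.n (.l ⟨-1, T31, (.v 0), 1, 4, 1, 7⟩) (.l ⟨1, T31, (.v 0), 1, 5, 1, 6⟩))) (.n (.n (.l ⟨-1, T31, (.v 0), 1, 5, 1, 7⟩) (.l ⟨1, T31, (.v 0), 1, 6, 1, 5⟩)) (.n (.l ⟨-1, T31, (.v 0), 1, 7, 1, 4⟩) (.l ⟨1, T31, (.v 0), 1, 7, 1, 5⟩)))) (.n (.n (.n (.l ⟨1, T31, (.v 2), 0, 0, 2, 113⟩) (.l ⟨-1, T31, (.v 2), 0, 0, 2, 6⟩)) (.n (.l ⟨1, T31, (.v 2), 1, 0, 1, 6⟩) (.l ⟨1, T31, (.v 2), 2, 23, 0, 0⟩))) (.n (.n (.l ⟨-1, T31, (.v 2), 1, 7, 1, 0⟩) (.l ⟨-1, T31, (.v 3), 0, 0, 2, 81⟩)) (.n (.l ⟨1, T31, (.v 3), 0, 0, 2, 4⟩) (.l ⟨-1, T31, (.v 3), 1, 0, 1, 4⟩)))))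
def I26 : Bt Item :=
  (.n (.n (.n (.n (.l ⟨-1, T31, (.v 3), 2, 21, 0, 0⟩) (.l ⟨1, T31, (.v 3), 1, 5, 1, 0⟩)) (.n (.l ⟨1, T226, (.v 3), 0, 0, 0, 0⟩) (.l ⟨-1, T227, (.v 3), 0, 0, 0, 0⟩))) (.n (.n (.l ⟨-1, T228, (.v 4), 0, 0, 0, 0⟩) (.l ⟨1, T229, (.v 4), 0, 0, 0, 0⟩)) (.n (.l ⟨1, T231, (.v 4), 0, 0, 0, 0⟩) (.l ⟨-1, T232, T56, 0, 0, 0, 0⟩)))) (.n (.n (.n (.l ⟨1, T232, (.v 3), 1, 8, 0, 0⟩) (.l ⟨1, T232, (.v 4), 0, 0, 1, 6⟩)) (.n (.l ⟨1, T232, (.v 4), 0, 0, 1, 7⟩) (.l ⟨1, T232, (.v 4), 1, 7, 0, 0⟩))) (.n (.n (.l ⟨-1, T108, (.v 4), 0, 0, 1, 3⟩) (.l ⟨-1, T108, (.v 4), 1, 3, 0, 0⟩)) (.n (.l ⟨-1, T110, (.v 1), 1, 6, 0, 0⟩) (.l ⟨-1, T110, (.v 3), 1, 2, 0, 0⟩)))))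
def I27 : Bt Item :=
  (.n (.n (.n (.n (.l ⟨-1, T234, (.v 4), 0, 0, 0, 0⟩) (.l ⟨1, T235, T56, 0, 0, 0, 0⟩)) (.n (.l ⟨-1, T235, (.v 3), 1, 8, 0, 0⟩) (.l ⟨-1, T235, (.v 4), 0, 0, 1, 6⟩))) (.n (.n (.l ⟨-1, T235, (.v 4), 0, 0, 1, 7⟩) (.l ⟨-1, T235, (.v 4), 1, 7, 0, 0⟩)) (.n (.l ⟨1, T112, (.v 4), 0, 0, 1, 1⟩) (.l ⟨1, T112, (.v 4), 1, 1, 0, 0⟩)))) (.n (.n (.n (.l ⟨1, T114, (.v 0), 1, 6, 0, 0⟩) (.l ⟨1, T114, (.v 3), 1, 0, 0, 0⟩)) (.n (.l ⟨1, T237, (.v 1), 0, 0, 0, 0⟩) (.l ⟨-1, T239, (.v 0), 0, 0, 0, 0⟩))) (.n (.n (.l ⟨1, T116, (.v 1), 0, 0, 1, 9⟩) (.l ⟨-1, T116, (.v 4), 0, 0, 1, 2⟩)) (.n (.l ⟨1, T116, (.v 4), 1, 2, 0, 0⟩) (.l ⟨-1, T118, (.v 0), 0, 0, 1, 9⟩)))))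
def I28 : Bt Item :=
  (.n (.n (.n (.n (.l ⟨1, T118, (.v 4), 0, 0, 1, 0⟩) (.l ⟨-1, T118, (.v 4), 1, 0, 0, 0⟩)) (.n (.l ⟨-1, T120, (.v 0), 0, 0, 1, 3⟩) (.l ⟨1, T120, (.v 0), 1, 3, 0, 0⟩))) (.n (.n (.l ⟨1, T120, (.v 1), 0, 0, 1, 1⟩) (.l ⟨-1, T120, (.v 1), 1, 1, 0, 0⟩)) (.n (.l ⟨1, T240, (.v 1), 0, 0, 0, 0⟩) (.l ⟨-1, T241, (.v 0), 0, 0, 0, 0⟩)))) (.n (.n (.n (.l ⟨1, T242, (.v 1), 0, 0, 0, 0⟩) (.l ⟨-1, T243, (.v 0), 0, 0, 0, 0⟩)) (.n (.l ⟨1, T244, (.v 1), 1, 7, 0, 0⟩) (.l ⟨1, T244, (.v 3), 0, 0, 1, 3⟩))) (.n (.n (.l ⟨-1, T245, (.v 0), 1, 7, 0, 0⟩) (.l ⟨-1, T245, (.v 3), 0, 0, 1, 1⟩)) (.n (.l ⟨-1, T212, (.v 0), 0, 0, 1, 3⟩) (.l ⟨1, T212, (.v 0), 1, 2, 0, 0⟩)))))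
def I29 : Bt Item :=
  (.n (.n (.n (.n (.l ⟨1, T212, (.v 1), 0, 0, 1, 1⟩) (.l ⟨-1, T212, (.v 1), 1, 0, 0, 0⟩)) (.n (.l ⟨-2, T36, T45, 1, 8, 0, 0⟩) (.l ⟨-2, T36, T45, 1, 9, 0, 0⟩))) (.n (.n (.l ⟨1, T36, T67, 0, 0, 1, 2⟩) (.l ⟨-1, T36, T124, 0, 0, 1, 6⟩)) (.n (.l ⟨-1, T36, T124, 1, 7, 0, 0⟩) (.l ⟨-1, T36, (.v 1), 2, 150, 0, 0⟩)))) (.n (.n (.n (.l ⟨1, T36, (.v 1), 1, 6, 1, 8⟩) (.l ⟨1, T36, (.v 1), 1, 6, 1, 9⟩)) (.n (.l ⟨-1, T36, (.v 1), 2, 151, 0, 0⟩) (.l ⟨-1, T36, (.v 1), 1, 7, 1, 8⟩))) (.n (.n (.l ⟨-1, T36, (.v 1), 1, 8, 1, 6⟩) (.l ⟨1, T36, (.v 1), 1, 9, 1, 6⟩)) (.n (.l ⟨-1, T36, (.v 3), 0, 0, 2, 41⟩) (.l ⟨1, T36, (.v 3), 0, 0, 2, 57⟩)))))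
def I30 : Bt Item :=
  (.n (.n (.n (.n (.l ⟨1, T36, (.v 3), 1, 3, 1, 8⟩) (.l ⟨1, T36, (.v 3), 1, 8, 1, 2⟩)) (.n (.l ⟨-1, T36, (.v 4), 0, 0, 2, 114⟩) (.l ⟨-1, T36, (.v 4), 0, 0, 2, 38⟩))) (.n (.n (.l ⟨-1, T36, (.v 4), 2, 114, 0, 0⟩) (.l ⟨-1, T36, (.v 4), 1, 2, 1, 6⟩)) (.n (.l ⟨-1, T36, (.v 4), 1, 3, 1, 6⟩) (.l ⟨2, T39, T42, 1, 8, 0, 0⟩)))) (.n (.n (.n (.l ⟨2, T39, T42, 1, 9, 0, 0⟩) (.l ⟨-1, T39, T67, 0, 0, 1, 0⟩)) (.n (.l ⟨1, T39, T129, 0, 0, 1, 6⟩) (.l ⟨1, T39, T129, 1, 7, 0, 0⟩))) (.n (.n (.l ⟨1, T39, (.v 0), 2, 150, 0, 0⟩) (.l ⟨-1, T39, (.v 0), 1, 6, 1, 8⟩)) (.n (.l ⟨-1, T39, (.v 0), 1, 6, 1, 9⟩) (.l ⟨1, T39, (.v 0), 2, 151, 0, 0⟩)))))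
def I31 : Bt Item :=
  (.n (.n (.n (.n (.l ⟨1, T39, (.v 0), 1, 7, 1, 8⟩) (.l ⟨1, T39, (.v 0), 1, 8, 1, 6⟩)) (.n (.l ⟨-1, T39, (.v 0), 1, 9, 1, 6⟩) (.l ⟨1, T39, (.v 3), 0, 0, 2, 9⟩))) (.n (.n (.l ⟨-1, T39, (.v 3), 0, 0, 2, 25⟩) (.l ⟨-1, T39, (.v 3), 1, 1, 1, 8⟩)) (.n (.l ⟨-1, T39, (.v 3), 1, 8, 1, 0⟩) (.l ⟨1, T39, (.v 4), 0, 0, 2, 112⟩)))) (.n (.n (.n (.l ⟨1, T39, (.v 4), 0, 0, 2, 6⟩) (.l ⟨1, T39, (.v 4), 2, 112, 0, 0⟩)) (.n (.l ⟨1, T39, (.v 4), 1, 0, 1, 6⟩) (.l ⟨1, T39, (.v 4), 1, 1, 1, 6⟩))) (.n (.n (.l ⟨1, T74, T129, 0, 0, 1, 3⟩) (.l ⟨1, T74, T129, 1, 2, 0, 0⟩)) (.n (.l ⟨-1, T74, T124, 0, 0, 1, 1⟩) (.l ⟨-1, T74, T124, 1, 0, 0, 0⟩)))))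
def I32 : Bt Item :=
  (.n (.n (.n (.n (.l ⟨-1, T74, (.v 0), 0, 0, 2, 130⟩) (.l ⟨-1, T74, (.v 0), 0, 0, 2, 131⟩)) (.n (.l ⟨1, T74, (.v 0), 1, 2, 1, 9⟩) (.l ⟨-1, T74, (.v 0), 2, 40, 0, 0⟩))) (.n (.n (.l ⟨-1, T74, (.v 0), 2, 56, 0, 0⟩) (.l ⟨1, T74, (.v 1), 0, 0, 2, 128⟩)) (.n (.l ⟨1, T74, (.v 1), 0, 0, 2, 129⟩) (.l ⟨-1, T74, (.v 1), 1, 0, 1, 9⟩)))) (.n (.n (.n (.l ⟨1, T74, (.v 1), 2, 8, 0, 0⟩) (.l ⟨1, T74, (.v 1), 2, 24, 0, 0⟩)) (.n (.l ⟨1, T74, (.v 4), 0, 0, 2, 32⟩) (.l ⟨1, T74, (.v 4), 0, 0, 2, 48⟩))) (.n (.n (.l ⟨-1, T74, (.v 4), 0, 0, 2, 49⟩) (.l ⟨-1, T74, (.v 4), 0, 0, 2, 2⟩)) (.n (.l ⟨-1, T74, (.v 4), 0, 0, 2, 18⟩) (.l ⟨1, T74, (.v 4), 0, 0, 2, 19⟩)))))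
def I33 : Bt Item :=
  (.n (.n (.n (.n (.l ⟨1, T74, (.v 4), 2, 48, 0, 0⟩) (.l ⟨-1, T74, (.v 4), 2, 18, 0, 0⟩)) (.n (.l ⟨-1, T64, T42, 0, 0, 1, 2⟩) (.l ⟨1, T64, T45, 0, 0, 1, 0⟩))) (.n (.n (.l ⟨1, T64, (.v 0), 0, 0, 2, 99⟩) (.l ⟨1, T64, (.v 0), 0, 0, 2, 38⟩)) (.n (.l ⟨1, T64, (.v 0), 2, 98, 0, 0⟩) (.l ⟨-1, T64, (.v 0), 2, 114, 0, 0⟩)))) (.n (.n (.n (.l ⟨-1, T64, (.v 0), 1, 2, 1, 6⟩) (.l ⟨-1, T64, (.v 0), 1, 2, 1, 7⟩)) (.n (.l ⟨-1, T64, (.v 0), 2, 99, 0, 0⟩) (.l ⟨-1, T64, (.v 0), 2, 38, 0, 0⟩))) (.n (.n (.l ⟨-1, T64, (.v 0), 1, 6, 1, 3⟩) (.l ⟨-1, T64, (.v 0), 2, 55, 0, 0⟩)) (.n (.l ⟨-1, T64, (.v 1), 0, 0, 2, 97⟩) (.l ⟨-1, T64, (.v 1), 0, 0, 2, 6⟩)))))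
def I34 : Bt Item :=
  (.n (.n (.n (.n (.l ⟨-1, T64, (.v 1), 2, 96, 0, 0⟩) (.l ⟨1, T64, (.v 1), 2, 112, 0, 0⟩)) (.n (.l ⟨1, T64, (.v 1), 1, 0, 1, 6⟩) (.l ⟨1, T64, (.v 1), 1, 0, 1, 7⟩))) (.n (.n (.l ⟨1, T64, (.v 1), 2, 97, 0, 0⟩) (.l ⟨1, T64, (.v 1), 2, 6, 0, 0⟩)) (.n (.l ⟨1, T64, (.v 1), 1, 6, 1, 1⟩) (.l ⟨1, T64, (.v 1), 2, 23, 0, 0⟩)))) (.n (.n (.n (.l ⟨1, T64, (.v 3), 2, 32, 0, 0⟩) (.l ⟨1, T64, (.v 3), 1, 0, 1, 3⟩)) (.n (.l ⟨-1, T64, (.v 3), 2, 2, 0, 0⟩) (.l ⟨-1, T64, (.v 3), 1, 2, 1, 1⟩))) (.n (.n (.l ⟨-1, T246, (.v 2), 0, 0, 0, 0⟩) (.l ⟨1, T247, (.v 2), 0, 0, 0, 0⟩)) (.n (.l ⟨1, T248, (.v 4), 0, 0, 0, 0⟩) (.l ⟨-1, T249, (.v 4), 0, 0, 0, 0⟩)))))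
def I35 : Bt Item :=
  (.n (.n (.n (.n (.l ⟨-1, T251, (.v 4), 0, 0, 0, 0⟩) (.l ⟨1, T252, T48, 0, 0, 0, 0⟩)) (.n (.l ⟨-1, T252, (.v 2), 1, 8, 0, 0⟩) (.l ⟨-1, T252, (.v 4), 0, 0, 1, 4⟩))) (.n (.n (.l ⟨-1, T252, (.v 4), 0, 0, 1, 5⟩) (.l ⟨-1, T252, (.v 4), 1, 5, 0, 0⟩)) (.n (.l ⟨1, T141, (.v 4), 0, 0, 1, 3⟩) (.l ⟨1, T141, (.v 4), 1, 3, 0, 0⟩)))) (.n (.n (.n (.l ⟨1, T143, (.v 1), 1, 4, 0, 0⟩) (.l ⟨1, T143, (.v 2), 1, 2, 0, 0⟩)) (.n (.l ⟨1, T254, (.v 4), 0, 0, 0, 0⟩) (.l ⟨-1, T255, T48, 0, 0, 0, 0⟩))) (.n (.n (.l ⟨1, T255, (.v 2), 1, 8, 0, 0⟩) (.l ⟨1, T255, (.v 4), 0, 0, 1, 4⟩)) (.n (.l ⟨1, T255, (.v 4), 0, 0, 1, 5⟩) (.l ⟨1, T255, (.v 4), 1, 5, 0, 0⟩)))))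
def I36 : Bt Item :=
  (.n (.n (.n (.n (.l ⟨-1, T145, (.v 4), 0, 0, 1, 1⟩) (.l ⟨-1, T145, (.v 4), 1, 1, 0, 0⟩)) (.n (.l ⟨-1, T147, (.v 0), 1, 4, 0, 0⟩) (.l ⟨-1, T147, (.v 2), 1, 0, 0, 0⟩))) (.n (.n (.l ⟨-1, T256, (.v 1), 0, 0, 0, 0⟩) (.l ⟨1, T257, (.v 0), 0, 0, 0, 0⟩)) (.n (.l ⟨-1, T149, (.v 1), 0, 0, 1, 9⟩) (.l ⟨1, T149, (.v 4), 0, 0, 1, 2⟩)))) (.n (.n (.n (.l ⟨-1, T149, (.v 4), 1, 2, 0, 0⟩) (.l ⟨1, T151, (.v 0), 0, 0, 1, 9⟩)) (.n (.l ⟨-1, T151, (.v 4), 0, 0, 1, 0⟩) (.l ⟨1, T151, (.v 4), 1, 0, 0, 0⟩))) (.n (.n (.l ⟨1, T153, (.v 0), 0, 0, 1, 3⟩) (.l ⟨-1, T153, (.v 0), 1, 3, 0, 0⟩)) (.n (.l ⟨-1, T153, (.v 1), 0, 0, 1, 1⟩) (.l ⟨1, T153, (.v 1), 1, 1, 0, 0⟩)))))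
def I37 : Bt Item :=
  (.n (.n (.n (.n (.l ⟨-1, T258, (.v 1), 0, 0, 0, 0⟩) (.l ⟨1, T259, (.v 0), 0, 0, 0, 0⟩)) (.n (.l ⟨-1, T260, (.v 1), 0, 0, 0, 0⟩) (.l ⟨1, T261, (.v 0), 0, 0, 0, 0⟩))) (.n (.n (.l ⟨-1, T236, (.v 1), 1, 5, 0, 0⟩) (.l ⟨-1, T236, (.v 2), 0, 0, 1, 3⟩)) (.n (.l ⟨1, T238, (.v 0), 1, 5, 0, 0⟩) (.l ⟨1, T238, (.v 2), 0, 0, 1, 1⟩)))) (.n (.n (.n (.l ⟨1, T213, (.v 0), 0, 0, 1, 3⟩) (.l ⟨-1, T213, (.v 0), 1, 2, 0, 0⟩)) (.n (.l ⟨-1, T213, (.v 1), 0, 0, 1, 1⟩) (.l ⟨1, T213, (.v 1), 1, 0, 0, 0⟩))) (.n (.n (.l ⟨1, T42, T124, 0, 0, 1, 4⟩) (.l ⟨1, T42, T124, 1, 5, 0, 0⟩)) (.n (.l ⟨1, T42, (.v 1), 2, 148, 0, 0⟩) (.l ⟨-1, T42, (.v 1), 1, 4, 1, 8⟩)))))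
def I38 : Bt Item :=
  (.n (.n (.n (.n (.l ⟨-1, T42, (.v 1), 1, 4, 1, 9⟩) (.l ⟨1, T42, (.v 1), 2, 149, 0, 0⟩)) (.n (.l ⟨1, T42, (.v 1), 1, 5, 1, 8⟩) (.l ⟨1, T42, (.v 1), 1, 8, 1, 4⟩))) (.n (.n (.l ⟨-1, T42, (.v 1), 1, 9, 1, 4⟩) (.l ⟨1, T42, (.v 2), 0, 0, 2, 41⟩)) (.n (.l ⟨-1, T42, (.v 2), 0, 0, 2, 57⟩) (.l ⟨-1, T42, (.v 2), 1, 3, 1, 8⟩)))) (.n (.n (.n (.l ⟨-1, T42, (.v 2), 1, 8, 1, 2⟩) (.l ⟨1, T42, (.v 4), 0, 0, 2, 82⟩)) (.n (.l ⟨1, T42, (.v 4), 0, 0, 2, 36⟩) (.l ⟨1, T42, (.v 4), 2, 82, 0, 0⟩))) (.n (.n (.l ⟨1, T42, (.v 4), 1, 2, 1, 4⟩) (.l ⟨1, T42, (.v 4), 1, 3, 1, 4⟩)) (.n (.l ⟨-1, T45, T129, 0, 0, 1, 4⟩) (.l ⟨-1, T45, T129, 1, 5, 0, 0⟩)))))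
def I39 : Bt Item :=
  (.n (.n (.n (.n (.l ⟨-1, T45, (.v 0), 2, 148, 0, 0⟩) (.l ⟨1, T45, (.v 0), 1, 4, 1, 8⟩)) (.n (.l ⟨1, T45, (.v 0), 1, 4, 1, 9⟩) (.l ⟨-1, T45, (.v 0), 2, 149, 0, 0⟩))) (.n (.n (.l ⟨-1, T45, (.v 0), 1, 5, 1, 8⟩) (.l ⟨-1, T45, (.v 0), 1, 8, 1, 4⟩)) (.n (.l ⟨1, T45, (.v 0), 1, 9, 1, 4⟩) (.l ⟨-1, T45, (.v 2), 0, 0, 2, 9⟩)))) (.n (.n (.n (.l ⟨1, T45, (.v 2), 0, 0, 2, 25⟩) (.l ⟨1, T45, (.v 2), 1, 1, 1, 8⟩)) (.n (.l ⟨1, T45, (.v 2), 1, 8, 1, 0⟩) (.l ⟨-1, T45, (.v 4), 0, 0, 2, 80⟩))) (.n (.n (.l ⟨-1, T45, (.v 4), 0, 0, 2, 4⟩) (.l ⟨-1, T45, (.v 4), 2, 80, 0, 0⟩)) (.n (.l ⟨-1, T45, (.v 4), 1, 0, 1, 4⟩) (.l ⟨-1, T45, (.v 4), 1, 1, 1, 4⟩)))))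
def I40 : Bt Item :=
  (.n (.n (.n (.n (.l ⟨-1, T76, T129, 0, 0, 1, 3⟩) (.l ⟨-1, T76, T129, 1, 2, 0, 0⟩)) (.n (.l ⟨1, T76, T124, 0, 0, 1, 1⟩) (.l ⟨1, T76, T124, 1, 0, 0, 0⟩))) (.n (.n (.l ⟨1, T76, (.v 0), 0, 0, 2, 130⟩) (.l ⟨1, T76, (.v 0), 0, 0, 2, 131⟩)) (.n (.l ⟨-1, T76, (.v 0), 1, 2, 1, 9⟩) (.l ⟨1, T76, (.v 0), 2, 40, 0, 0⟩)))) (.n (.n (.n (.l ⟨1, T76, (.v 0), 2, 56, 0, 0⟩) (.l ⟨-1, T76, (.v 1), 0, 0, 2, 128⟩)) (.n (.l ⟨-1, T76, (.v 1), 0, 0, 2, 129⟩) (.l ⟨1, T76, (.v 1), 1, 0, 1, 9⟩))) (.n (.n (.l ⟨-1, T76, (.v 1), 2, 8, 0, 0⟩) (.l ⟨-1, T76, (.v 1), 2, 24, 0, 0⟩)) (.n (.l ⟨-1, T76, (.v 4), 0, 0, 2, 32⟩) (.l ⟨-1, T76, (.v 4), 0, 0, 2, 48⟩)))))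
def I41 : Bt Item :=
  (.n (.n (.n (.n (.l ⟨1, T76, (.v 4), 0, 0, 2, 49⟩) (.l ⟨1, T76, (.v 4), 0, 0, 2, 2⟩)) (.n (.l ⟨1, T76, (.v 4), 0, 0, 2, 18⟩) (.l ⟨-1, T76, (.v 4), 0, 0, 2, 19⟩))) (.n (.n (.l ⟨-1, T76, (.v 4), 2, 48, 0, 0⟩) (.l ⟨1, T76, (.v 4), 2, 18, 0, 0⟩)) (.n (.l ⟨-1, T67, (.v 0), 0, 0, 2, 67⟩) (.l ⟨-1, T67, (.v 0), 0, 0, 2, 36⟩)))) (.n (.n (.n (.l ⟨-1, T67, (.v 0), 2, 66, 0, 0⟩) (.l ⟨1, T67, (.v 0), 2, 82, 0, 0⟩)) (.n (.l ⟨1, T67, (.v 0), 1, 2, 1, 4⟩) (.l ⟨1, T67, (.v 0), 1, 2, 1, 5⟩))) (.n (.n (.l ⟨1, T67, (.v 0), 2, 67, 0, 0⟩) (.l ⟨1, T67, (.v 0), 2, 36, 0, 0⟩)) (.n (.l ⟨1, T67, (.v 0), 1, 4, 1, 3⟩) (.l ⟨1, T67, (.v 0), 2, 53, 0, 0⟩)))))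
def I42 : Bt Item :=
  (.n (.n (.n (.n (.l ⟨1, T67, (.v 1), 0, 0, 2, 65⟩) (.l ⟨1, T67, (.v 1), 0, 0, 2, 4⟩)) (.n (.l ⟨1, T67, (.v 1), 2, 64, 0, 0⟩) (.l ⟨-1, T67, (.v 1), 2, 80, 0, 0⟩))) (.n (.n (.l ⟨-1, T67, (.v 1), 1, 0, 1, 4⟩) (.l ⟨-1, T67, (.v 1), 1, 0, 1, 5⟩)) (.n (.l ⟨-1, T67, (.v 1), 2, 65, 0, 0⟩) (.l ⟨-1, T67, (.v 1), 2, 4, 0, 0⟩)))) (.n (.n (.n (.l ⟨-1, T67, (.v 1), 1, 4, 1, 1⟩) (.l ⟨-1, T67, (.v 1), 2, 21, 0, 0⟩)) (.n (.l ⟨-1, T67, (.v 2), 2, 32, 0, 0⟩) (.l ⟨-1, T67, (.v 2), 1, 0, 1, 3⟩))) (.n (.n (.l ⟨1, T67, (.v 2), 2, 2, 0, 0⟩) (.l ⟨1, T67, (.v 2), 1, 2, 1, 1⟩)) (.n (.l ⟨1, T262, (.v 1), 0, 0, 0, 0⟩) (.l ⟨-1, T263, (.v 1), 0, 0, 0, 0⟩)))))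
def I43 : Bt Item :=
  (.n (.n (.n (.n (.l ⟨-1, T264, (.v 0), 0, 0, 0, 0⟩) (.l ⟨1, T265, (.v 0), 0, 0, 0, 0⟩)) (.n (.l ⟨-1, T266, (.v 1), 0, 0, 0, 0⟩) (.l ⟨1, T267, (.v 0), 0, 0, 0, 0⟩))) (.n (.n (.l ⟨1, T268, (.v 1), 0, 0, 0, 0⟩) (.l ⟨-1, T269, (.v 0), 0, 0, 0, 0⟩)) (.n (.l ⟨1, T172, (.v 2), 1, 6, 0, 0⟩) (.l ⟨1, T172, (.v 2), 1, 7, 0, 0⟩)))) (.n (.n (.n (.l ⟨-1, T172, (.v 3), 1, 4, 0, 0⟩) (.l ⟨-1, T172, (.v 3), 1, 5, 0, 0⟩)) (.n (.l ⟨-1, T175, (.v 1), 1, 7, 0, 0⟩) (.l ⟨-1, T175, (.v 3), 0, 0, 1, 2⟩))) (.n (.n (.l ⟨-1, T175, (.v 3), 1, 3, 0, 0⟩) (.l ⟨1, T177, (.v 1), 1, 5, 0, 0⟩)) (.n (.l ⟨1, T177, (.v 2), 0, 0, 1, 2⟩) (.l ⟨1, T177, (.v 2), 1, 3, 0, 0⟩)))))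
def I44 : Bt Item :=
  (.n (.n (.n (.n (.l ⟨-1, T179, (.v 2), 1, 6, 0, 0⟩) (.l ⟨-1, T179, (.v 2), 1, 7, 0, 0⟩)) (.n (.l ⟨1, T179, (.v 3), 1, 4, 0, 0⟩) (.l ⟨1, T179, (.v 3), 1, 5, 0, 0⟩))) (.n (.n (.l ⟨1, T182, (.v 0), 1, 7, 0, 0⟩) (.l ⟨1, T182, (.v 3), 0, 0, 1, 0⟩)) (.n (.l ⟨1, T182, (.v 3), 1, 1, 0, 0⟩) (.l ⟨-1, T184, (.v 0), 1, 5, 0, 0⟩)))) (.n (.n (.n (.l ⟨-1, T184, (.v 2), 0, 0, 1, 0⟩) (.l ⟨-1, T184, (.v 2), 1, 1, 0, 0⟩)) (.n (.l ⟨-1, T186, (.v 3), 0, 0, 1, 2⟩) (.l ⟨1, T188, (.v 3), 0, 0, 1, 0⟩))) (.n (.n (.l ⟨1, T270, (.v 0), 0, 0, 1, 3⟩) (.l ⟨-1, T270, (.v 0), 1, 3, 0, 0⟩)) (.n (.l ⟨-1, T270, (.v 1), 0, 0, 1, 1⟩) (.l ⟨1, T270, (.v 1), 1, 1, 0, 0⟩)))))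
def I45 : Bt Item :=
  (.n (.n (.n (.n (.l ⟨1, T190, (.v 2), 0, 0, 1, 2⟩) (.l ⟨-1, T192, (.v 2), 0, 0, 1, 0⟩)) (.n (.l ⟨-1, T271, (.v 0), 0, 0, 1, 3⟩) (.l ⟨1, T271, (.v 0), 1, 3, 0, 0⟩))) (.n (.n (.l ⟨1, T271, (.v 1), 0, 0, 1, 1⟩) (.l ⟨-1, T271, (.v 1), 1, 1, 0, 0⟩)) (.n (.l ⟨1, T129, (.v 1), 0, 0, 2, 116⟩) (.l ⟨1, T129, (.v 1), 0, 0, 2, 117⟩)))) (.n (.n (.n (.l ⟨-1, T129, (.v 1), 0, 0, 2, 86⟩) (.l ⟨-1, T129, (.v 1), 0, 0, 2, 87⟩)) (.n (.l ⟨-1, T129, (.v 1), 2, 116, 0, 0⟩) (.l ⟨-1, T129, (.v 1), 1, 5, 1, 6⟩))) (.n (.n (.l ⟨1, T129, (.v 1), 2, 86, 0, 0⟩) (.l ⟨1, T129, (.v 1), 1, 7, 1, 4⟩)) (.n (.l ⟨-1, T129, (.v 2), 0, 0, 2, 115⟩) (.l ⟨1, T129, (.v 3), 0, 0, 2, 83⟩)))))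
def I46 : Bt Item :=
  (.n (.n (.n (.n (.l ⟨-1, T124, (.v 0), 0, 0, 2, 116⟩) (.l ⟨-1, T124, (.v 0), 0, 0, 2, 117⟩)) (.n (.l ⟨1, T124, (.v 0), 0, 0, 2, 86⟩) (.l ⟨1, T124, (.v 0), 0, 0, 2, 87⟩))) (.n (.n (.l ⟨1, T124, (.v 0), 2, 116, 0, 0⟩) (.l ⟨1, T124, (.v 0), 1, 5, 1, 6⟩)) (.n (.l ⟨-1, T124, (.v 0), 2, 86, 0, 0⟩) (.l ⟨-1, T124, (.v 0), 1, 7, 1, 4⟩)))) (.n (.n (.n (.l ⟨1, T124, (.v 2), 0, 0, 2, 113⟩) (.l ⟨-1, T124, (.v 3), 0, 0, 2, 81⟩)) (.n (.l ⟨1, T48, (.v 0), 0, 0, 2, 99⟩) (.l ⟨-1, T48, (.v 0), 2, 98, 0, 0⟩))) (.n (.n (.l ⟨-1, T48, (.v 0), 2, 99, 0, 0⟩) (.l ⟨-1, T48, (.v 0), 2, 54, 0, 0⟩)) (.n (.l ⟨1, T48, (.v 0), 1, 6, 1, 3⟩) (.l ⟨-1, T48, (.v 0), 2, 39, 0, 0⟩)))))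
def I47 : Bt Item :=
  (.n (.n (.n (.n (.l ⟨-1, T48, (.v 0), 1, 7, 1, 2⟩) (.l ⟨1, T48, (.v 0), 1, 7, 1, 3⟩)) (.n (.l ⟨-1, T48, (.v 1), 0, 0, 2, 97⟩) (.l ⟨1, T48, (.v 1), 2, 96, 0, 0⟩))) (.n (.n (.l ⟨1, T48, (.v 1), 2, 97, 0, 0⟩) (.l ⟨1, T48, (.v 1), 2, 22, 0, 0⟩)) (.n (.l ⟨-1, T48, (.v 1), 1, 6, 1, 1⟩) (.l ⟨1, T48, (.v 1), 2, 7, 0, 0⟩)))) (.n (.n (.n (.l ⟨1, T48, (.v 1), 1, 7, 1, 0⟩) (.l ⟨-1, T48, (.v 1), 1, 7, 1, 1⟩)) (.n (.l ⟨1, T48, (.v 3), 2, 33, 0, 0⟩) (.l ⟨-1, T48, (.v 3), 2, 49, 0, 0⟩))) (.n (.n (.l ⟨-1, T48, (.v 3), 1, 1, 1, 2⟩) (.l ⟨-1, T48, (.v 3), 2, 3, 0, 0⟩)) (.n (.l ⟨1, T48, (.v 3), 2, 19, 0, 0⟩) (.l ⟨1, T48, (.v 3), 1, 3, 1, 0⟩)))))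
def I48 : Bt Item :=
  (.n (.n (.n (.n (.l ⟨-1, T56, (.v 0), 0, 0, 2, 67⟩) (.l ⟨1, T56, (.v 0), 2, 66, 0, 0⟩)) (.n (.l ⟨1, T56, (.v 0), 2, 67, 0, 0⟩) (.l ⟨1, T56, (.v 0), 2, 52, 0, 0⟩))) (.n (.n (.l ⟨-1, T56, (.v 0), 1, 4, 1, 3⟩) (.l ⟨1, T56, (.v 0), 2, 37, 0, 0⟩)) (.n (.l ⟨1, T56, (.v 0), 1, 5, 1, 2⟩) (.l ⟨-1, T56, (.v 0), 1, 5, 1, 3⟩)))) (.n (.n (.n (.l ⟨1, T56, (.v 1), 0, 0, 2, 65⟩) (.l ⟨-1, T56, (.v 1), 2, 64, 0, 0⟩)) (.n (.l ⟨-1, T56, (.v 1), 2, 65, 0, 0⟩) (.l ⟨-1, T56, (.v 1), 2, 20, 0, 0⟩))) (.n (.n (.l ⟨1, T56, (.v 1), 1, 4, 1, 1⟩) (.l ⟨-1, T56, (.v 1), 2, 5, 0, 0⟩)) (.n (.l ⟨-1, T56, (.v 1), 1, 5, 1, 0⟩) (.l ⟨1, T56, (.v 1), 1, 5, 1, 1⟩)))))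
def I49 : Bt Item :=
  (.n (.n (.n (.n (.l ⟨-1, T56, (.v 2), 2, 33, 0, 0⟩) (.l ⟨1, T56, (.v 2), 2, 49, 0, 0⟩)) (.n (.l ⟨1, T56, (.v 2), 1, 1, 1, 2⟩) (.l ⟨1, T56, (.v 2), 2, 3, 0, 0⟩))) (.n (.n (.l ⟨-1, T56, (.v 2), 2, 19, 0, 0⟩) (.l ⟨-1, T56, (.v 2), 1, 3, 1, 0⟩)) (.n (.l ⟨-1, (.v 0), (.v 2), 0, 0, 3, 2402⟩) (.l ⟨-1, (.v 0), (.v 2), 0, 0, 3, 2418⟩)))) (.n (.n (.n (.l ⟨-1, (.v 0), (.v 2), 0, 0, 3, 1682⟩) (.l ⟨1, (.v 0), (.v 2), 0, 0, 3, 1938⟩)) (.n (.l ⟨1, (.v 0), (.v 2), 0, 0, 3, 2147⟩) (.l ⟨1, (.v 0), (.v 2), 0, 0, 3, 1939⟩))) (.n (.n (.l ⟨1, (.v 0), (.v 2), 0, 0, 3, 2086⟩) (.l ⟨1, (.v 0), (.v 2), 0, 0, 3, 2358⟩)) (.n (.l ⟨-1, (.v 0), (.v 2), 0, 0, 3, 902⟩) (.l ⟨1, (.v 0), (.v 2), 0, 0, 3, 662⟩)))))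
def I50 : Bt Item :=
  (.n (.n (.n (.n (.l ⟨1, (.v 0), (.v 2), 0, 0, 3, 1848⟩) (.l ⟨1, (.v 0), (.v 2), 0, 0, 3, 1833⟩)) (.n (.l ⟨1, (.v 0), (.v 2), 0, 0, 3, 873⟩) (.l ⟨1, (.v 0), (.v 2), 0, 0, 3, 889⟩))) (.n (.n (.l ⟨-1, (.v 0), (.v 2), 2, 130, 1, 7⟩) (.l ⟨1, (.v 0), (.v 2), 3, 1666, 0, 0⟩)) (.n (.l ⟨1, (.v 0), (.v 2), 2, 146, 1, 6⟩) (.l ⟨-1, (.v 0), (.v 2), 3, 1682, 0, 0⟩)))) (.n (.n (.n (.l ⟨-1, (.v 0), (.v 2), 3, 1938, 0, 0⟩) (.l ⟨1, (.v 0), (.v 2), 1, 2, 2, 151⟩)) (.n (.l ⟨1, (.v 0), (.v 2), 1, 2, 2, 105⟩) (.l ⟨-1, (.v 0), (.v 2), 1, 2, 2, 121⟩))) (.n (.n (.l ⟨1, (.v 0), (.v 2), 2, 99, 1, 9⟩) (.l ⟨1, (.v 0), (.v 2), 3, 2147, 0, 0⟩)) (.n (.l ⟨1, (.v 0), (.v 2), 2, 115, 1, 9⟩) (.l ⟨-1, (.v 0), (.v 2), 3, 1667, 0, 0⟩)))))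
def I51 : Bt Item :=
  (.n (.n (.n (.n (.l ⟨-1, (.v 0), (.v 2), 2, 147, 1, 7⟩) (.l ⟨1, (.v 0), (.v 2), 3, 1683, 0, 0⟩)) (.n (.l ⟨-1, (.v 0), (.v 2), 1, 3, 2, 135⟩) (.l ⟨-1, (.v 0), (.v 2), 1, 3, 2, 104⟩))) (.n (.n (.l ⟨-1, (.v 0), (.v 2), 1, 3, 2, 121⟩) (.l ⟨-1, (.v 0), (.v 2), 2, 38, 1, 9⟩)) (.n (.l ⟨-1, (.v 0), (.v 2), 3, 2086, 0, 0⟩) (.l ⟨1, (.v 0), (.v 2), 2, 54, 1, 8⟩)))) (.n (.n (.n (.l ⟨1, (.v 0), (.v 2), 2, 134, 1, 2⟩) (.l ⟨-1, (.v 0), (.v 2), 3, 646, 0, 0⟩)) (.n (.l ⟨1, (.v 0), (.v 2), 2, 150, 1, 3⟩) (.l ⟨1, (.v 0), (.v 2), 3, 662, 0, 0⟩))) (.n (.n (.l ⟨-1, (.v 0), (.v 2), 3, 918, 0, 0⟩) (.l ⟨-1, (.v 0), (.v 2), 1, 6, 2, 40⟩)) (.n (.l ⟨-1, (.v 0), (.v 2), 1, 6, 2, 56⟩) (.l ⟨1, (.v 0), (.v 2), 2, 39, 1, 8⟩)))))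
def I52 : Bt Item :=
  (.n (.n (.n (.n (.l ⟨-1, (.v 0), (.v 2), 3, 2359, 0, 0⟩) (.l ⟨-1, (.v 0), (.v 2), 2, 151, 1, 2⟩)) (.n (.l ⟨-1, (.v 0), (.v 2), 2, 151, 1, 3⟩) (.l ⟨-1, (.v 0), (.v 2), 1, 7, 2, 147⟩))) (.n (.n (.l ⟨-1, (.v 0), (.v 2), 1, 7, 2, 56⟩) (.l ⟨-1, (.v 0), (.v 2), 2, 40, 1, 6⟩)) (.n (.l ⟨1, (.v 0), (.v 2), 3, 1576, 0, 0⟩) (.l ⟨-1, (.v 0), (.v 2), 3, 1832, 0, 0⟩)))) (.n (.n (.n (.l ⟨1, (.v 0), (.v 2), 2, 56, 1, 7⟩) (.l ⟨-1, (.v 0), (.v 2), 3, 1592, 0, 0⟩)) (.n (.l ⟨1, (.v 0), (.v 2), 3, 1848, 0, 0⟩) (.l ⟨1, (.v 0), (.v 2), 2, 120, 1, 2⟩))) (.n (.n (.l ⟨1, (.v 0), (.v 2), 3, 888, 0, 0⟩) (.l ⟨-1, (.v 0), (.v 2), 1, 8, 2, 114⟩)) (.n (.l ⟨-1, (.v 0), (.v 2), 1, 8, 2, 99⟩) (.l ⟨1, (.v 0), (.v 2), 1, 8, 2, 54⟩)))))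
def I53 : Bt Item :=
  (.n (.n (.n (.n (.l ⟨1, (.v 0), (.v 2), 2, 57, 1, 6⟩) (.l ⟨-1, (.v 0), (.v 2), 2, 57, 1, 7⟩)) (.n (.l ⟨-1, (.v 0), (.v 2), 2, 105, 1, 2⟩) (.l ⟨1, (.v 0), (.v 2), 2, 121, 1, 2⟩))) (.n (.n (.l ⟨-1, (.v 0), (.v 2), 2, 121, 1, 3⟩) (.l ⟨1, (.v 0), (.v 2), 3, 633, 0, 0⟩)) (.n (.l ⟨1, (.v 0), (.v 2), 3, 889, 0, 0⟩) (.l ⟨1, (.v 0), (.v 2), 1, 9, 2, 98⟩)))) (.n (.n (.n (.l ⟨1, (.v 0), (.v 2), 1, 9, 2, 99⟩) (.l ⟨1, (.v 0), (.v 2), 1, 9, 2, 115⟩)) (.n (.l ⟨-1, (.v 0), (.v 2), 1, 9, 2, 38⟩) (.l ⟨1, (.v 0), (.v 3), 0, 0, 3, 2370⟩))) (.n (.n (.l ⟨1, (.v 0), (.v 3), 0, 0, 3, 2386⟩) (.l ⟨1, (.v 0), (.v 3), 0, 0, 3, 1170⟩)) (.n (.l ⟨-1, (.v 0), (.v 3), 0, 0, 3, 1426⟩) (.l ⟨-1, (.v 0), (.v 3), 0, 0, 3, 2115⟩)))))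
def I54 : Bt Item :=
  (.n (.n (.n (.n (.l ⟨-1, (.v 0), (.v 3), 0, 0, 3, 1427⟩) (.l ⟨-1, (.v 0), (.v 3), 0, 0, 3, 2084⟩)) (.n (.l ⟨-1, (.v 0), (.v 3), 0, 0, 3, 2356⟩) (.l ⟨1, (.v 0), (.v 3), 0, 0, 3, 900⟩))) (.n (.n (.l ⟨-1, (.v 0), (.v 3), 0, 0, 3, 660⟩) (.l ⟨-1, (.v 0), (.v 3), 0, 0, 3, 1336⟩)) (.n (.l ⟨-1, (.v 0), (.v 3), 0, 0, 3, 1321⟩) (.l ⟨-1, (.v 0), (.v 3), 0, 0, 3, 841⟩)))) (.n (.n (.n (.l ⟨-1, (.v 0), (.v 3), 0, 0, 3, 857⟩) (.l ⟨1, (.v 0), (.v 3), 2, 130, 1, 5⟩)) (.n (.l ⟨-1, (.v 0), (.v 3), 3, 1154, 0, 0⟩) (.l ⟨-1, (.v 0), (.v 3), 2, 146, 1, 4⟩))) (.n (.n (.l ⟨1, (.v 0), (.v 3), 3, 1170, 0, 0⟩) (.l ⟨1, (.v 0), (.v 3), 3, 1426, 0, 0⟩)) (.n (.l ⟨-1, (.v 0), (.v 3), 1, 2, 2, 149⟩) (.l ⟨-1, (.v 0), (.v 3), 1, 2, 2, 73⟩)))))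
def I55 : Bt Item :=
  (.n (.n (.n (.n (.l ⟨1, (.v 0), (.v 3), 1, 2, 2, 89⟩) (.l ⟨-1, (.v 0), (.v 3), 2, 67, 1, 9⟩)) (.n (.l ⟨-1, (.v 0), (.v 3), 3, 2115, 0, 0⟩) (.l ⟨-1, (.v 0), (.v 3), 2, 83, 1, 9⟩))) (.n (.n (.l ⟨1, (.v 0), (.v 3), 3, 1155, 0, 0⟩) (.l ⟨1, (.v 0), (.v 3), 2, 147, 1, 5⟩)) (.n (.l ⟨-1, (.v 0), (.v 3), 3, 1171, 0, 0⟩) (.l ⟨1, (.v 0), (.v 3), 1, 3, 2, 133⟩)))) (.n (.n (.n (.l ⟨1, (.v 0), (.v 3), 1, 3, 2, 72⟩) (.l ⟨1, (.v 0), (.v 3), 1, 3, 2, 89⟩)) (.n (.l ⟨1, (.v 0), (.v 3), 2, 36, 1, 9⟩) (.l ⟨1, (.v 0), (.v 3), 3, 2084, 0, 0⟩))) (.n (.n (.l ⟨-1, (.v 0), (.v 3), 2, 52, 1, 8⟩) (.l ⟨-1, (.v 0), (.v 3), 2, 132, 1, 2⟩)) (.n (.l ⟨1, (.v 0), (.v 3), 3, 644, 0, 0⟩) (.l ⟨-1, (.v 0), (.v 3), 2, 148, 1, 3⟩)))))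
def I56 : Bt Item :=
  (.n (.n (.n (.n (.l ⟨-1, (.v 0), (.v 3), 3, 660, 0, 0⟩) (.l ⟨1, (.v 0), (.v 3), 3, 916, 0, 0⟩)) (.n (.l ⟨1, (.v 0), (.v 3), 1, 4, 2, 40⟩) (.l ⟨1, (.v 0), (.v 3), 1, 4, 2, 56⟩))) (.n (.n (.l ⟨-1, (.v 0), (.v 3), 2, 37, 1, 8⟩) (.l ⟨1, (.v 0), (.v 3), 3, 2357, 0, 0⟩)) (.n (.l ⟨1, (.v 0), (.v 3), 2, 149, 1, 2⟩) (.l ⟨1, (.v 0), (.v 3), 2, 149, 1, 3⟩)))) (.n (.n (.n (.l ⟨1, (.v 0), (.v 3), 1, 5, 2, 147⟩) (.l ⟨1, (.v 0), (.v 3), 1, 5, 2, 56⟩)) (.n (.l ⟨1, (.v 0), (.v 3), 2, 40, 1, 4⟩) (.l ⟨-1, (.v 0), (.v 3), 3, 1064, 0, 0⟩))) (.n (.n (.l ⟨1, (.v 0), (.v 3), 3, 1320, 0, 0⟩) (.l ⟨-1, (.v 0), (.v 3), 2, 56, 1, 5⟩)) (.n (.l ⟨1, (.v 0), (.v 3), 3, 1080, 0, 0⟩) (.l ⟨-1, (.v 0), (.v 3), 3, 1336, 0, 0⟩)))))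
def I57 : Bt Item :=
  (.n (.n (.n (.n (.l ⟨-1, (.v 0), (.v 3), 2, 88, 1, 2⟩) (.l ⟨-1, (.v 0), (.v 3), 3, 856, 0, 0⟩)) (.n (.l ⟨1, (.v 0), (.v 3), 1, 8, 2, 82⟩) (.l ⟨1, (.v 0), (.v 3), 1, 8, 2, 67⟩))) (.n (.n (.l ⟨-1, (.v 0), (.v 3), 1, 8, 2, 52⟩) (.l ⟨-1, (.v 0), (.v 3), 2, 57, 1, 4⟩)) (.n (.l ⟨1, (.v 0), (.v 3), 2, 57, 1, 5⟩) (.l ⟨1, (.v 0), (.v 3), 2, 73, 1, 2⟩)))) (.n (.n (.n (.l ⟨-1, (.v 0), (.v 3), 2, 89, 1, 2⟩) (.l ⟨1, (.v 0), (.v 3), 2, 89, 1, 3⟩)) (.n (.l ⟨-1, (.v 0), (.v 3), 3, 601, 0, 0⟩) (.l ⟨-1, (.v 0), (.v 3), 3, 857, 0, 0⟩))) (.n (.n (.l ⟨-1, (.v 0), (.v 3), 1, 9, 2, 66⟩) (.l ⟨-1, (.v 0), (.v 3), 1, 9, 2, 67⟩)) (.n (.l ⟨-1, (.v 0), (.v 3), 1, 9, 2, 83⟩) (.l ⟨1, (.v 0), (.v 3), 1, 9, 2, 36⟩)))))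
def I58 : Bt Item :=
  (.n (.n (.n (.n (.l ⟨-1, (.v 0), (.v 4), 0, 0, 3, 1618⟩) (.l ⟨1, (.v 0), (.v 4), 0, 0, 3, 1874⟩)) (.n (.l ⟨1, (.v 0), (.v 4), 0, 0, 3, 1138⟩) (.l ⟨-1, (.v 0), (.v 4), 0, 0, 3, 1394⟩))) (.n (.n (.l ⟨-1, (.v 0), (.v 4), 0, 0, 3, 1859⟩) (.l ⟨1, (.v 0), (.v 4), 0, 0, 3, 1379⟩)) (.n (.l ⟨-1, (.v 0), (.v 4), 0, 0, 3, 1828⟩) (.l ⟨-1, (.v 0), (.v 4), 0, 0, 3, 1588⟩)))) (.n (.n (.n (.l ⟨-1, (.v 0), (.v 4), 0, 0, 3, 612⟩) (.l ⟨-1, (.v 0), (.v 4), 0, 0, 3, 884⟩)) (.n (.l ⟨1, (.v 0), (.v 4), 0, 0, 3, 1573⟩) (.l ⟨1, (.v 0), (.v 4), 0, 0, 3, 1589⟩))) (.n (.n (.l ⟨1, (.v 0), (.v 4), 0, 0, 3, 613⟩) (.l ⟨1, (.v 0), (.v 4), 0, 0, 3, 1318⟩)) (.n (.l ⟨1, (.v 0), (.v 4), 0, 0, 3, 1078⟩) (.l ⟨1, (.v 0), (.v 4), 0, 0, 3, 582⟩)))))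
def I59 : Bt Item :=
  (.n (.n (.n (.n (.l ⟨1, (.v 0), (.v 4), 0, 0, 3, 854⟩) (.l ⟨-1, (.v 0), (.v 4), 0, 0, 3, 1063⟩)) (.n (.l ⟨-1, (.v 0), (.v 4), 0, 0, 3, 1079⟩) (.l ⟨-1, (.v 0), (.v 4), 0, 0, 3, 583⟩))) (.n (.n (.l ⟨-1, (.v 0), (.v 4), 2, 66, 1, 7⟩) (.l ⟨-1, (.v 0), (.v 4), 3, 1618, 0, 0⟩)) (.n (.l ⟨-1, (.v 0), (.v 4), 3, 1874, 0, 0⟩) (.l ⟨1, (.v 0), (.v 4), 2, 98, 1, 5⟩)))) (.n (.n (.n (.l ⟨1, (.v 0), (.v 4), 3, 1138, 0, 0⟩) (.l ⟨1, (.v 0), (.v 4), 3, 1394, 0, 0⟩)) (.n (.l ⟨1, (.v 0), (.v 4), 1, 2, 2, 116⟩) (.l ⟨-1, (.v 0), (.v 4), 1, 2, 2, 117⟩))) (.n (.n (.l ⟨-1, (.v 0), (.v 4), 1, 2, 2, 86⟩) (.l ⟨1, (.v 0), (.v 4), 1, 2, 2, 87⟩)) (.n (.l ⟨-1, (.v 0), (.v 4), 3, 1859, 0, 0⟩) (.l ⟨-1, (.v 0), (.v 4), 2, 83, 1, 6⟩)))))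
def I60 : Bt Item :=
  (.n (.n (.n (.n (.l ⟨1, (.v 0), (.v 4), 3, 1379, 0, 0⟩) (.l ⟨1, (.v 0), (.v 4), 2, 115, 1, 4⟩)) (.n (.l ⟨1, (.v 0), (.v 4), 1, 3, 2, 116⟩) (.l ⟨-1, (.v 0), (.v 4), 1, 3, 2, 86⟩))) (.n (.n (.l ⟨-1, (.v 0), (.v 4), 2, 36, 1, 7⟩) (.l ⟨1, (.v 0), (.v 4), 3, 1828, 0, 0⟩)) (.n (.l ⟨-1, (.v 0), (.v 4), 2, 52, 1, 6⟩) (.l ⟨1, (.v 0), (.v 4), 2, 52, 1, 7⟩)))) (.n (.n (.n (.l ⟨-1, (.v 0), (.v 4), 2, 100, 1, 2⟩) (.l ⟨-1, (.v 0), (.v 4), 3, 868, 0, 0⟩)) (.n (.l ⟨1, (.v 0), (.v 4), 2, 116, 1, 2⟩) (.l ⟨-1, (.v 0), (.v 4), 2, 116, 1, 3⟩))) (.n (.n (.l ⟨-1, (.v 0), (.v 4), 3, 884, 0, 0⟩) (.l ⟨1, (.v 0), (.v 4), 1, 4, 2, 114⟩)) (.n (.l ⟨1, (.v 0), (.v 4), 1, 4, 2, 115⟩) (.l ⟨-1, (.v 0), (.v 4), 1, 4, 2, 39⟩)))))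
def I61 : Bt Item :=
  (.n (.n (.n (.n (.l ⟨1, (.v 0), (.v 4), 2, 53, 1, 7⟩) (.l ⟨1, (.v 0), (.v 4), 3, 1845, 0, 0⟩)) (.n (.l ⟨-1, (.v 0), (.v 4), 3, 613, 0, 0⟩) (.l ⟨1, (.v 0), (.v 4), 3, 869, 0, 0⟩))) (.n (.n (.l ⟨1, (.v 0), (.v 4), 2, 117, 1, 3⟩) (.l ⟨1, (.v 0), (.v 4), 3, 629, 0, 0⟩)) (.n (.l ⟨1, (.v 0), (.v 4), 1, 5, 2, 99⟩) (.l ⟨-1, (.v 0), (.v 4), 1, 5, 2, 115⟩)))) (.n (.n (.n (.l ⟨1, (.v 0), (.v 4), 1, 5, 2, 38⟩) (.l ⟨1, (.v 0), (.v 4), 2, 38, 1, 5⟩)) (.n (.l ⟨-1, (.v 0), (.v 4), 3, 1318, 0, 0⟩) (.l ⟨1, (.v 0), (.v 4), 2, 54, 1, 4⟩))) (.n (.n (.l ⟨-1, (.v 0), (.v 4), 2, 54, 1, 5⟩) (.l ⟨1, (.v 0), (.v 4), 2, 70, 1, 2⟩)) (.n (.l ⟨1, (.v 0), (.v 4), 3, 838, 0, 0⟩) (.l ⟨-1, (.v 0), (.v 4), 2, 86, 1, 2⟩)))))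
def I62 : Bt Item :=
  (.n (.n (.n (.n (.l ⟨1, (.v 0), (.v 4), 2, 86, 1, 3⟩) (.l ⟨1, (.v 0), (.v 4), 3, 854, 0, 0⟩)) (.n (.l ⟨-1, (.v 0), (.v 4), 1, 6, 2, 82⟩) (.l ⟨-1, (.v 0), (.v 4), 1, 6, 2, 83⟩))) (.n (.n (.l ⟨1, (.v 0), (.v 4), 1, 6, 2, 37⟩) (.l ⟨-1, (.v 0), (.v 4), 2, 55, 1, 5⟩)) (.n (.l ⟨-1, (.v 0), (.v 4), 3, 1335, 0, 0⟩) (.l ⟨1, (.v 0), (.v 4), 3, 583, 0, 0⟩)))) (.n (.n (.n (.l ⟨-1, (.v 0), (.v 4), 3, 839, 0, 0⟩) (.l ⟨-1, (.v 0), (.v 4), 2, 87, 1, 3⟩)) (.n (.l ⟨-1, (.v 0), (.v 4), 3, 599, 0, 0⟩) (.l ⟨-1, (.v 0), (.v 4), 1, 7, 2, 67⟩))) (.n (.n (.l ⟨1, (.v 0), (.v 4), 1, 7, 2, 83⟩) (.l ⟨-1, (.v 0), (.v 4), 1, 7, 2, 36⟩)) (.n (.l ⟨1, (.v 1), (.v 2), 0, 0, 3, 2400⟩) (.l ⟨1, (.v 1), (.v 2), 0, 0, 3, 2416⟩)))))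
def I63 : Bt Item :=
  (.n (.n (.n (.n (.l ⟨1, (.v 1), (.v 2), 0, 0, 3, 1680⟩) (.l ⟨-1, (.v 1), (.v 2), 0, 0, 3, 1936⟩)) (.n (.l ⟨-1, (.v 1), (.v 2), 0, 0, 3, 2145⟩) (.l ⟨-1, (.v 1), (.v 2), 0, 0, 3, 1937⟩))) (.n (.n (.l ⟨-1, (.v 1), (.v 2), 0, 0, 3, 2054⟩) (.l ⟨-1, (.v 1), (.v 2), 0, 0, 3, 2326⟩)) (.n (.l ⟨1, (.v 1), (.v 2), 0, 0, 3, 390⟩) (.l ⟨-1, (.v 1), (.v 2), 0, 0, 3, 150⟩)))) (.n (.n (.n (.l ⟨-1, (.v 1), (.v 2), 0, 0, 3, 1816⟩) (.l ⟨-1, (.v 1), (.v 2), 0, 0, 3, 1801⟩)) (.n (.l ⟨-1, (.v 1), (.v 2), 0, 0, 3, 361⟩) (.l ⟨-1, (.v 1), (.v 2), 0, 0, 3, 377⟩))) (.n (.n (.l ⟨1, (.v 1), (.v 2), 2, 128, 1, 7⟩) (.l ⟨-1, (.v 1), (.v 2), 3, 1664, 0, 0⟩)) (.n (.l ⟨-1, (.v 1), (.v 2), 2, 144, 1, 6⟩) (.l ⟨1, (.v 1), (.v 2), 3, 1680, 0, 0⟩)))))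
def I64 : Bt Item :=
  (.n (.n (.n (.n (.l ⟨1, (.v 1), (.v 2), 3, 1936, 0, 0⟩) (.l ⟨-1, (.v 1), (.v 2), 1, 0, 2, 151⟩)) (.n (.l ⟨-1, (.v 1), (.v 2), 1, 0, 2, 105⟩) (.l ⟨1, (.v 1), (.v 2), 1, 0, 2, 121⟩))) (.n (.n (.l ⟨-1, (.v 1), (.v 2), 2, 97, 1, 9⟩) (.l ⟨-1, (.v 1), (.v 2), 3, 2145, 0, 0⟩)) (.n (.l ⟨-1, (.v 1), (.v 2), 2, 113, 1, 9⟩) (.l ⟨1, (.v 1), (.v 2), 3, 1665, 0, 0⟩)))) (.n (.n (.n (.l ⟨1, (.v 1), (.v 2), 2, 145, 1, 7⟩) (.l ⟨-1, (.v 1), (.v 2), 3, 1681, 0, 0⟩)) (.n (.l ⟨1, (.v 1), (.v 2), 1, 1, 2, 135⟩) (.l ⟨1, (.v 1), (.v 2), 1, 1, 2, 104⟩))) (.n (.n (.l ⟨1, (.v 1), (.v 2), 1, 1, 2, 121⟩) (.l ⟨1, (.v 1), (.v 2), 2, 6, 1, 9⟩)) (.n (.l ⟨1, (.v 1), (.v 2), 3, 2054, 0, 0⟩) (.l ⟨-1, (.v 1), (.v 2), 2, 22, 1, 8⟩)))))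
def I65 : Bt Item :=
  (.n (.n (.n (.n (.l ⟨-1, (.v 1), (.v 2), 2, 134, 1, 0⟩) (.l ⟨1, (.v 1), (.v 2), 3, 134, 0, 0⟩)) (.n (.l ⟨-1, (.v 1), (.v 2), 2, 150, 1, 1⟩) (.l ⟨-1, (.v 1), (.v 2), 3, 150, 0, 0⟩))) (.n (.n (.l ⟨1, (.v 1), (.v 2), 3, 406, 0, 0⟩) (.l ⟨1, (.v 1), (.v 2), 1, 6, 2, 8⟩)) (.n (.l ⟨1, (.v 1), (.v 2), 1, 6, 2, 24⟩) (.l ⟨-1, (.v 1), (.v 2), 2, 7, 1, 8⟩)))) (.n (.n (.n (.l ⟨1, (.v 1), (.v 2), 3, 2327, 0, 0⟩) (.l ⟨1, (.v 1), (.v 2), 2, 151, 1, 0⟩)) (.n (.l ⟨1, (.v 1), (.v 2), 2, 151, 1, 1⟩) (.l ⟨1, (.v 1), (.v 2), 1, 7, 2, 145⟩))) (.n (.n (.l ⟨1, (.v 1), (.v 2), 1, 7, 2, 24⟩) (.l ⟨1, (.v 1), (.v 2), 2, 8, 1, 6⟩)) (.n (.l ⟨-1, (.v 1), (.v 2), 3, 1544, 0, 0⟩) (.l ⟨1, (.v 1), (.v 2), 3, 1800, 0, 0⟩)))))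
def I66 : Bt Item :=
  (.n (.n (.n (.n (.l ⟨-1, (.v 1), (.v 2), 2, 24, 1, 7⟩) (.l ⟨1, (.v 1), (.v 2), 3, 1560, 0, 0⟩)) (.n (.l ⟨-1, (.v 1), (.v 2), 3, 1816, 0, 0⟩) (.l ⟨-1, (.v 1), (.v 2), 2, 120, 1, 0⟩))) (.n (.n (.l ⟨-1, (.v 1), (.v 2), 3, 376, 0, 0⟩) (.l ⟨1, (.v 1), (.v 2), 1, 8, 2, 112⟩)) (.n (.l ⟨1, (.v 1), (.v 2), 1, 8, 2, 97⟩) (.l ⟨-1, (.v 1), (.v 2), 1, 8, 2, 22⟩)))) (.n (.n (.n (.l ⟨-1, (.v 1), (.v 2), 2, 25, 1, 6⟩) (.l ⟨1, (.v 1), (.v 2), 2, 25, 1, 7⟩)) (.n (.l ⟨1, (.v 1), (.v 2), 2, 105, 1, 0⟩) (.l ⟨-1, (.v 1), (.v 2), 2, 121, 1, 0⟩))) (.n (.n (.l ⟨1, (.v 1), (.v 2), 2, 121, 1, 1⟩) (.l ⟨-1, (.v 1), (.v 2), 3, 121, 0, 0⟩)) (.n (.l ⟨-1, (.v 1), (.v 2), 3, 377, 0, 0⟩) (.l ⟨-1, (.v 1), (.v 2), 1, 9, 2, 96⟩)))))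
def I67 : Bt Item :=
  (.n (.n (.n (.n (.l ⟨-1, (.v 1), (.v 2), 1, 9, 2, 97⟩) (.l ⟨-1, (.v 1), (.v 2), 1, 9, 2, 113⟩)) (.n (.l ⟨1, (.v 1), (.v 2), 1, 9, 2, 6⟩) (.l ⟨-1, (.v 1), (.v 3), 0, 0, 3, 2368⟩))) (.n (.n (.l ⟨-1, (.v 1), (.v 3), 0, 0, 3, 2384⟩) (.l ⟨-1, (.v 1), (.v 3), 0, 0, 3, 1168⟩)) (.n (.l ⟨1, (.v 1), (.v 3), 0, 0, 3, 1424⟩) (.l ⟨1, (.v 1), (.v 3), 0, 0, 3, 2113⟩)))) (.n (.n (.n (.l ⟨1, (.v 1), (.v 3), 0, 0, 3, 1425⟩) (.l ⟨1, (.v 1), (.v 3), 0, 0, 3, 2052⟩)) (.n (.l ⟨1, (.v 1), (.v 3), 0, 0, 3, 2324⟩) (.l ⟨-1, (.v 1), (.v 3), 0, 0, 3, 388⟩))) (.n (.n (.l ⟨1, (.v 1), (.v 3), 0, 0, 3, 148⟩) (.l ⟨1, (.v 1), (.v 3), 0, 0, 3, 1304⟩)) (.n (.l ⟨1, (.v 1), (.v 3), 0, 0, 3, 1289⟩) (.l ⟨1, (.v 1), (.v 3), 0, 0, 3, 329⟩)))))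
def I68 : Bt Item :=
  (.n (.n (.n (.n (.l ⟨1, (.v 1), (.v 3), 0, 0, 3, 345⟩) (.l ⟨-1, (.v 1), (.v 3), 2, 128, 1, 5⟩)) (.n (.l ⟨1, (.v 1), (.v 3), 3, 1152, 0, 0⟩) (.l ⟨1, (.v 1), (.v 3), 2, 144, 1, 4⟩))) (.n (.n (.l ⟨-1, (.v 1), (.v 3), 3, 1168, 0, 0⟩) (.l ⟨-1, (.v 1), (.v 3), 3, 1424, 0, 0⟩)) (.n (.l ⟨1, (.v 1), (.v 3), 1, 0, 2, 149⟩) (.l ⟨1, (.v 1), (.v 3), 1, 0, 2, 73⟩)))) (.n (.n (.n (.l ⟨-1, (.v 1), (.v 3), 1, 0, 2, 89⟩) (.l ⟨1, (.v 1), (.v 3), 2, 65, 1, 9⟩)) (.n (.l ⟨1, (.v 1), (.v 3), 3, 2113, 0, 0⟩) (.l ⟨1, (.v 1), (.v 3), 2, 81, 1, 9⟩))) (.n (.n (.l ⟨-1, (.v 1), (.v 3), 3, 1153, 0, 0⟩) (.l ⟨-1, (.v 1), (.v 3), 2, 145, 1, 5⟩)) (.n (.l ⟨1, (.v 1), (.v 3), 3, 1169, 0, 0⟩) (.l ⟨-1, (.v 1), (.v 3), 1, 1, 2, 133⟩)))))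
def I69 : Bt Item :=
  (.n (.n (.n (.n (.l ⟨-1, (.v 1), (.v 3), 1, 1, 2, 72⟩) (.l ⟨-1, (.v 1), (.v 3), 1, 1, 2, 89⟩)) (.n (.l ⟨-1, (.v 1), (.v 3), 2, 4, 1, 9⟩) (.l ⟨-1, (.v 1), (.v 3), 3, 2052, 0, 0⟩))) (.n (.n (.l ⟨1, (.v 1), (.v 3), 2, 20, 1, 8⟩) (.l ⟨1, (.v 1), (.v 3), 2, 132, 1, 0⟩)) (.n (.l ⟨-1, (.v 1), (.v 3), 3, 132, 0, 0⟩) (.l ⟨1, (.v 1), (.v 3), 2, 148, 1, 1⟩)))) (.n (.n (.n (.l ⟨1, (.v 1), (.v 3), 3, 148, 0, 0⟩) (.l ⟨-1, (.v 1), (.v 3), 3, 404, 0, 0⟩)) (.n (.l ⟨-1, (.v 1), (.v 3), 1, 4, 2, 8⟩) (.l ⟨-1, (.v 1), (.v 3), 1, 4, 2, 24⟩))) (.n (.n (.l ⟨1, (.v 1), (.v 3), 2, 5, 1, 8⟩) (.l ⟨-1, (.v 1), (.v 3), 3, 2325, 0, 0⟩)) (.n (.l ⟨-1, (.v 1), (.v 3), 2, 149, 1, 0⟩) (.l ⟨-1, (.v 1), (.v 3), 2, 149, 1, 1⟩)))))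
def I70 : Bt Item :=
  (.n (.n (.n (.n (.l ⟨-1, (.v 1), (.v 3), 1, 5, 2, 145⟩) (.l ⟨-1, (.v 1), (.v 3), 1, 5, 2, 24⟩)) (.n (.l ⟨-1, (.v 1), (.v 3), 2, 8, 1, 4⟩) (.l ⟨1, (.v 1), (.v 3), 3, 1032, 0, 0⟩))) (.n (.n (.l ⟨-1, (.v 1), (.v 3), 3, 1288, 0, 0⟩) (.l ⟨1, (.v 1), (.v 3), 2, 24, 1, 5⟩)) (.n (.l ⟨-1, (.v 1), (.v 3), 3, 1048, 0, 0⟩) (.l ⟨1, (.v 1), (.v 3), 3, 1304, 0, 0⟩)))) (.n (.n (.n (.l ⟨1, (.v 1), (.v 3), 2, 88, 1, 0⟩) (.l ⟨1, (.v 1), (.v 3), 3, 344, 0, 0⟩)) (.n (.l ⟨-1, (.v 1), (.v 3), 1, 8, 2, 80⟩) (.l ⟨-1, (.v 1), (.v 3), 1, 8, 2, 65⟩))) (.n (.n (.l ⟨1, (.v 1), (.v 3), 1, 8, 2, 20⟩) (.l ⟨1, (.v 1), (.v 3), 2, 25, 1, 4⟩)) (.n (.l ⟨-1, (.v 1), (.v 3), 2, 25, 1, 5⟩) (.l ⟨-1, (.v 1), (.v 3), 2, 73, 1, 0⟩)))))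
def I71 : Bt Item :=
  (.n (.n (.n (.n (.l ⟨1, (.v 1), (.v 3), 2, 89, 1, 0⟩) (.l ⟨-1, (.v 1), (.v 3), 2, 89, 1, 1⟩)) (.n (.l ⟨1, (.v 1), (.v 3), 3, 89, 0, 0⟩) (.l ⟨1, (.v 1), (.v 3), 3, 345, 0, 0⟩))) (.n (.n (.l ⟨1, (.v 1), (.v 3), 1, 9, 2, 64⟩) (.l ⟨1, (.v 1), (.v 3), 1, 9, 2, 65⟩)) (.n (.l ⟨1, (.v 1), (.v 3), 1, 9, 2, 81⟩) (.l ⟨-1, (.v 1), (.v 3), 1, 9, 2, 4⟩)))) (.n (.n (.n (.l ⟨1, (.v 1), (.v 4), 0, 0, 3, 1616⟩) (.l ⟨-1, (.v 1), (.v 4), 0, 0, 3, 1872⟩)) (.n (.l ⟨-1, (.v 1), (.v 4), 0, 0, 3, 1136⟩) (.l ⟨1, (.v 1), (.v 4), 0, 0, 3, 1392⟩))) (.n (.n (.l ⟨1, (.v 1), (.v 4), 0, 0, 3, 1857⟩) (.l ⟨-1, (.v 1), (.v 4), 0, 0, 3, 1377⟩)) (.n (.l ⟨1, (.v 1), (.v 4), 0, 0, 3, 1796⟩) (.l ⟨1, (.v 1), (.v 4), 0, 0, 3, 1556⟩)))))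
def I72 : Bt Item :=
  (.n (.n (.n (.n (.l ⟨1, (.v 1), (.v 4), 0, 0, 3, 100⟩) (.l ⟨1, (.v 1), (.v 4), 0, 0, 3, 372⟩)) (.n (.l ⟨-1, (.v 1), (.v 4), 0, 0, 3, 1541⟩) (.l ⟨-1, (.v 1), (.v 4), 0, 0, 3, 1557⟩))) (.n (.n (.l ⟨-1, (.v 1), (.v 4), 0, 0, 3, 101⟩) (.l ⟨-1, (.v 1), (.v 4), 0, 0, 3, 1286⟩)) (.n (.l ⟨-1, (.v 1), (.v 4), 0, 0, 3, 1046⟩) (.l ⟨-1, (.v 1), (.v 4), 0, 0, 3, 70⟩)))) (.n (.n (.n (.l ⟨-1, (.v 1), (.v 4), 0, 0, 3, 342⟩) (.l ⟨1, (.v 1), (.v 4), 0, 0, 3, 1031⟩)) (.n (.l ⟨1, (.v 1), (.v 4), 0, 0, 3, 1047⟩) (.l ⟨1, (.v 1), (.v 4), 0, 0, 3, 71⟩))) (.n (.n (.l ⟨1, (.v 1), (.v 4), 2, 64, 1, 7⟩) (.l ⟨1, (.v 1), (.v 4), 3, 1616, 0, 0⟩)) (.n (.l ⟨1, (.v 1), (.v 4), 3, 1872, 0, 0⟩) (.l ⟨-1, (.v 1), (.v 4), 2, 96, 1, 5⟩)))))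
def I73 : Bt Item :=
  (.n (.n (.n (.n (.l ⟨-1, (.v 1), (.v 4), 3, 1136, 0, 0⟩) (.l ⟨-1, (.v 1), (.v 4), 3, 1392, 0, 0⟩)) (.n (.l ⟨-1, (.v 1), (.v 4), 1, 0, 2, 116⟩) (.l ⟨1, (.v 1), (.v 4), 1, 0, 2, 117⟩))) (.n (.n (.l ⟨1, (.v 1), (.v 4), 1, 0, 2, 86⟩) (.l ⟨-1, (.v 1), (.v 4), 1, 0, 2, 87⟩)) (.n (.l ⟨1, (.v 1), (.v 4), 3, 1857, 0, 0⟩) (.l ⟨1, (.v 1), (.v 4), 2, 81, 1, 6⟩)))) (.n (.n (.n (.l ⟨-1, (.v 1), (.v 4), 3, 1377, 0, 0⟩) (.l ⟨-1, (.v 1), (.v 4), 2, 113, 1, 4⟩)) (.n (.l ⟨-1, (.v 1), (.v 4), 1, 1, 2, 116⟩) (.l ⟨1, (.v 1), (.v 4), 1, 1, 2, 86⟩))) (.n (.n (.l ⟨1, (.v 1), (.v 4), 2, 4, 1, 7⟩) (.l ⟨-1, (.v 1), (.v 4), 3, 1796, 0, 0⟩)) (.n (.l ⟨1, (.v 1), (.v 4), 2, 20, 1, 6⟩) (.l ⟨-1, (.v 1), (.v 4), 2, 20, 1, 7⟩)))))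
def I74 : Bt Item :=
  (.n (.n (.n (.n (.l ⟨1, (.v 1), (.v 4), 2, 100, 1, 0⟩) (.l ⟨1, (.v 1), (.v 4), 3, 356, 0, 0⟩)) (.n (.l ⟨-1, (.v 1), (.v 4), 2, 116, 1, 0⟩) (.l ⟨1, (.v 1), (.v 4), 2, 116, 1, 1⟩))) (.n (.n (.l ⟨1, (.v 1), (.v 4), 3, 372, 0, 0⟩) (.l ⟨-1, (.v 1), (.v 4), 1, 4, 2, 112⟩)) (.n (.l ⟨-1, (.v 1), (.v 4), 1, 4, 2, 113⟩) (.l ⟨1, (.v 1), (.v 4), 1, 4, 2, 7⟩)))) (.n (.n (.n (.l ⟨-1, (.v 1), (.v 4), 2, 21, 1, 7⟩) (.l ⟨-1, (.v 1), (.v 4), 3, 1813, 0, 0⟩)) (.n (.l ⟨1, (.v 1), (.v 4), 3, 101, 0, 0⟩) (.l ⟨-1, (.v 1), (.v 4), 3, 357, 0, 0⟩))) (.n (.n (.l ⟨-1, (.v 1), (.v 4), 2, 117, 1, 1⟩) (.l ⟨-1, (.v 1), (.v 4), 3, 117, 0, 0⟩)) (.n (.l ⟨-1, (.v 1), (.v 4), 1, 5, 2, 97⟩) (.l ⟨1, (.v 1), (.v 4), 1, 5, 2, 113⟩)))))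
def I75 : Bt Item :=
  (.n (.n (.n (.n (.l ⟨-1, (.v 1), (.v 4), 1, 5, 2, 6⟩) (.l ⟨-1, (.v 1), (.v 4), 2, 6, 1, 5⟩)) (.n (.l ⟨1, (.v 1), (.v 4), 3, 1286, 0, 0⟩) (.l ⟨-1, (.v 1), (.v 4), 2, 22, 1, 4⟩))) (.n (.n (.l ⟨1, (.v 1), (.v 4), 2, 22, 1, 5⟩) (.l ⟨-1, (.v 1), (.v 4), 2, 70, 1, 0⟩)) (.n (.l ⟨-1, (.v 1), (.v 4), 3, 326, 0, 0⟩) (.l ⟨1, (.v 1), (.v 4), 2, 86, 1, 0⟩)))) (.n (.n (.n (.l ⟨-1, (.v 1), (.v 4), 2, 86, 1, 1⟩) (.l ⟨-1, (.v 1), (.v 4), 3, 342, 0, 0⟩)) (.n (.l ⟨1, (.v 1), (.v 4), 1, 6, 2, 80⟩) (.l ⟨1, (.v 1), (.v 4), 1, 6, 2, 81⟩))) (.n (.n (.l ⟨-1, (.v 1), (.v 4), 1, 6, 2, 5⟩) (.l ⟨1, (.v 1), (.v 4), 2, 23, 1, 5⟩)) (.n (.l ⟨1, (.v 1), (.v 4), 3, 1303, 0, 0⟩) (.l ⟨-1, (.v 1), (.v 4), 3, 71, 0, 0⟩)))))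
def I76 : Bt Item :=
  (.n (.n (.n (.n (.l ⟨1, (.v 1), (.v 4), 3, 327, 0, 0⟩) (.l ⟨1, (.v 1), (.v 4), 2, 87, 1, 1⟩)) (.n (.l ⟨1, (.v 1), (.v 4), 3, 87, 0, 0⟩) (.l ⟨1, (.v 1), (.v 4), 1, 7, 2, 65⟩))) (.n (.n (.l ⟨-1, (.v 1), (.v 4), 1, 7, 2, 81⟩) (.l ⟨1, (.v 1), (.v 4), 1, 7, 2, 4⟩)) (.n (.l ⟨-1, (.v 2), (.v 4), 0, 0, 3, 864⟩) (.l ⟨1, (.v 2), (.v 4), 0, 0, 3, 1569⟩)))) (.n (.n (.n (.l ⟨1, (.v 2), (.v 4), 0, 0, 3, 865⟩) (.l ⟨1, (.v 2), (.v 4), 0, 0, 3, 354⟩)) (.n (.l ⟨-1, (.v 2), (.v 4), 0, 0, 3, 1539⟩) (.l ⟨-1, (.v 2), (.v 4), 0, 0, 3, 355⟩))) (.n (.n (.l ⟨1, (.v 2), (.v 4), 0, 0, 3, 534⟩) (.l ⟨1, (.v 2), (.v 4), 0, 0, 3, 790⟩)) (.n (.l ⟨-1, (.v 2), (.v 4), 0, 0, 3, 54⟩) (.l ⟨-1, (.v 2), (.v 4), 0, 0, 3, 310⟩)))))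
def I77 : Bt Item :=
  (.n (.n (.n (.n (.l ⟨-1, (.v 2), (.v 4), 0, 0, 3, 775⟩) (.l ⟨1, (.v 2), (.v 4), 0, 0, 3, 295⟩)) (.n (.l ⟨-1, (.v 2), (.v 4), 2, 32, 1, 7⟩) (.l ⟨-1, (.v 2), (.v 4), 3, 1584, 0, 0⟩))) (.n (.n (.l ⟨-1, (.v 2), (.v 4), 3, 1840, 0, 0⟩) (.l ⟨1, (.v 2), (.v 4), 2, 96, 1, 2⟩)) (.n (.l ⟨1, (.v 2), (.v 4), 3, 608, 0, 0⟩) (.l ⟨1, (.v 2), (.v 4), 3, 864, 0, 0⟩)))) (.n (.n (.n (.l ⟨1, (.v 2), (.v 4), 1, 0, 2, 98⟩) (.l ⟨1, (.v 2), (.v 4), 1, 0, 2, 99⟩)) (.n (.l ⟨-1, (.v 2), (.v 4), 1, 0, 2, 115⟩) (.l ⟨1, (.v 2), (.v 4), 1, 0, 2, 39⟩))) (.n (.n (.l ⟨-1, (.v 2), (.v 4), 2, 33, 1, 7⟩) (.l ⟨-1, (.v 2), (.v 4), 3, 1569, 0, 0⟩)) (.n (.l ⟨1, (.v 2), (.v 4), 2, 97, 1, 2⟩) (.l ⟨-1, (.v 2), (.v 4), 3, 609, 0, 0⟩)))))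
def I78 : Bt Item :=
  (.n (.n (.n (.n (.l ⟨-1, (.v 2), (.v 4), 3, 881, 0, 0⟩) (.l ⟨-1, (.v 2), (.v 4), 1, 1, 2, 98⟩)) (.n (.l ⟨-1, (.v 2), (.v 4), 1, 1, 2, 114⟩) (.l ⟨1, (.v 2), (.v 4), 1, 1, 2, 99⟩))) (.n (.n (.l ⟨-1, (.v 2), (.v 4), 1, 1, 2, 54⟩) (.l ⟨1, (.v 2), (.v 4), 2, 2, 1, 7⟩)) (.n (.l ⟨1, (.v 2), (.v 4), 3, 1554, 0, 0⟩) (.l ⟨1, (.v 2), (.v 4), 3, 1810, 0, 0⟩)))) (.n (.n (.n (.l ⟨-1, (.v 2), (.v 4), 2, 98, 1, 0⟩) (.l ⟨-1, (.v 2), (.v 4), 3, 98, 0, 0⟩)) (.n (.l ⟨-1, (.v 2), (.v 4), 3, 354, 0, 0⟩) (.l ⟨-1, (.v 2), (.v 4), 1, 2, 2, 96⟩))) (.n (.n (.l ⟨-1, (.v 2), (.v 4), 1, 2, 2, 97⟩) (.l ⟨1, (.v 2), (.v 4), 1, 2, 2, 113⟩)) (.n (.l ⟨-1, (.v 2), (.v 4), 1, 2, 2, 7⟩) (.l ⟨1, (.v 2), (.v 4), 2, 3, 1, 7⟩)))))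
def I79 : Bt Item :=
  (.n (.n (.n (.n (.l ⟨1, (.v 2), (.v 4), 3, 1539, 0, 0⟩) (.l ⟨-1, (.v 2), (.v 4), 2, 99, 1, 0⟩)) (.n (.l ⟨1, (.v 2), (.v 4), 3, 99, 0, 0⟩) (.l ⟨1, (.v 2), (.v 4), 3, 371, 0, 0⟩))) (.n (.n (.l ⟨1, (.v 2), (.v 4), 1, 3, 2, 96⟩) (.l ⟨1, (.v 2), (.v 4), 1, 3, 2, 112⟩)) (.n (.l ⟨-1, (.v 2), (.v 4), 1, 3, 2, 97⟩) (.l ⟨1, (.v 2), (.v 4), 1, 3, 2, 22⟩)))) (.n (.n (.n (.l ⟨1, (.v 2), (.v 4), 2, 6, 1, 2⟩) (.l ⟨1, (.v 2), (.v 4), 2, 6, 1, 3⟩)) (.n (.l ⟨-1, (.v 2), (.v 4), 3, 518, 0, 0⟩) (.l ⟨-1, (.v 2), (.v 4), 3, 534, 0, 0⟩))) (.n (.n (.l ⟨-1, (.v 2), (.v 4), 2, 38, 1, 0⟩) (.l ⟨-1, (.v 2), (.v 4), 2, 38, 1, 1⟩)) (.n (.l ⟨1, (.v 2), (.v 4), 3, 38, 0, 0⟩) (.l ⟨1, (.v 2), (.v 4), 3, 54, 0, 0⟩)))))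
def I80 : Bt Item :=
  (.n (.n (.n (.n (.l ⟨1, (.v 2), (.v 4), 1, 6, 2, 33⟩) (.l ⟨-1, (.v 2), (.v 4), 1, 6, 2, 3⟩)) (.n (.l ⟨1, (.v 2), (.v 4), 2, 23, 1, 2⟩) (.l ⟨1, (.v 2), (.v 4), 3, 535, 0, 0⟩))) (.n (.n (.l ⟨1, (.v 2), (.v 4), 3, 791, 0, 0⟩) (.l ⟨-1, (.v 2), (.v 4), 2, 55, 1, 0⟩)) (.n (.l ⟨-1, (.v 2), (.v 4), 3, 55, 0, 0⟩) (.l ⟨-1, (.v 2), (.v 4), 3, 311, 0, 0⟩)))) (.n (.n (.n (.l ⟨-1, (.v 2), (.v 4), 1, 7, 2, 32⟩) (.l ⟨1, (.v 2), (.v 4), 1, 7, 2, 48⟩)) (.n (.l ⟨1, (.v 2), (.v 4), 1, 7, 2, 2⟩) (.l ⟨-1, (.v 2), (.v 4), 1, 7, 2, 18⟩))) (.n (.n (.l ⟨1, (.v 3), (.v 4), 0, 0, 3, 832⟩) (.l ⟨-1, (.v 3), (.v 4), 0, 0, 3, 1057⟩)) (.n (.l ⟨-1, (.v 3), (.v 4), 0, 0, 3, 833⟩) (.l ⟨-1, (.v 3), (.v 4), 0, 0, 3, 322⟩)))))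
def I81 : Bt Item :=
  (.n (.n (.n (.n (.l ⟨1, (.v 3), (.v 4), 0, 0, 3, 1027⟩) (.l ⟨1, (.v 3), (.v 4), 0, 0, 3, 323⟩)) (.n (.l ⟨-1, (.v 3), (.v 4), 0, 0, 3, 532⟩) (.l ⟨-1, (.v 3), (.v 4), 0, 0, 3, 788⟩))) (.n (.n (.l ⟨1, (.v 3), (.v 4), 0, 0, 3, 52⟩) (.l ⟨1, (.v 3), (.v 4), 0, 0, 3, 308⟩)) (.n (.l ⟨1, (.v 3), (.v 4), 0, 0, 3, 773⟩) (.l ⟨-1, (.v 3), (.v 4), 0, 0, 3, 293⟩)))) (.n (.n (.n (.l ⟨1, (.v 3), (.v 4), 2, 32, 1, 5⟩) (.l ⟨1, (.v 3), (.v 4), 3, 1072, 0, 0⟩)) (.n (.l ⟨1, (.v 3), (.v 4), 3, 1328, 0, 0⟩) (.l ⟨-1, (.v 3), (.v 4), 2, 64, 1, 2⟩))) (.n (.n (.l ⟨-1, (.v 3), (.v 4), 3, 576, 0, 0⟩) (.l ⟨-1, (.v 3), (.v 4), 3, 832, 0, 0⟩)) (.n (.l ⟨-1, (.v 3), (.v 4), 1, 0, 2, 66⟩) (.l ⟨-1, (.v 3), (.v 4), 1, 0, 2, 67⟩)))))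
def I82 : Bt Item :=
  (.n (.n (.n (.n (.l ⟨1, (.v 3), (.v 4), 1, 0, 2, 83⟩) (.l ⟨-1, (.v 3), (.v 4), 1, 0, 2, 37⟩)) (.n (.l ⟨1, (.v 3), (.v 4), 2, 33, 1, 5⟩) (.l ⟨1, (.v 3), (.v 4), 3, 1057, 0, 0⟩))) (.n (.n (.l ⟨-1, (.v 3), (.v 4), 2, 65, 1, 2⟩) (.l ⟨1, (.v 3), (.v 4), 3, 577, 0, 0⟩)) (.n (.l ⟨1, (.v 3), (.v 4), 3, 849, 0, 0⟩) (.l ⟨1, (.v 3), (.v 4), 1, 1, 2, 66⟩)))) (.n (.n (.n (.l ⟨1, (.v 3), (.v 4), 1, 1, 2, 82⟩) (.l ⟨-1, (.v 3), (.v 4), 1, 1, 2, 67⟩)) (.n (.l ⟨1, (.v 3), (.v 4), 1, 1, 2, 52⟩) (.l ⟨-1, (.v 3), (.v 4), 2, 2, 1, 5⟩))) (.n (.n (.l ⟨-1, (.v 3), (.v 4), 3, 1042, 0, 0⟩) (.l ⟨-1, (.v 3), (.v 4), 3, 1298, 0, 0⟩)) (.n (.l ⟨1, (.v 3), (.v 4), 2, 66, 1, 0⟩) (.l ⟨1, (.v 3), (.v 4), 3, 66, 0, 0⟩)))))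
def I83 : Bt Item :=
  (.n (.n (.n (.n (.l ⟨1, (.v 3), (.v 4), 3, 322, 0, 0⟩) (.l ⟨1, (.v 3), (.v 4), 1, 2, 2, 64⟩)) (.n (.l ⟨1, (.v 3), (.v 4), 1, 2, 2, 65⟩) (.l ⟨-1, (.v 3), (.v 4), 1, 2, 2, 81⟩))) (.n (.n (.l ⟨1, (.v 3), (.v 4), 1, 2, 2, 5⟩) (.l ⟨-1, (.v 3), (.v 4), 2, 3, 1, 5⟩)) (.n (.l ⟨-1, (.v 3), (.v 4), 3, 1027, 0, 0⟩) (.l ⟨1, (.v 3), (.v 4), 2, 67, 1, 0⟩)))) (.n (.n (.n (.l ⟨-1, (.v 3), (.v 4), 3, 67, 0, 0⟩) (.l ⟨-1, (.v 3), (.v 4), 3, 339, 0, 0⟩)) (.n (.l ⟨-1, (.v 3), (.v 4), 1, 3, 2, 64⟩) (.l ⟨-1, (.v 3), (.v 4), 1, 3, 2, 80⟩))) (.n (.n (.l ⟨1, (.v 3), (.v 4), 1, 3, 2, 65⟩) (.l ⟨-1, (.v 3), (.v 4), 1, 3, 2, 20⟩)) (.n (.l ⟨-1, (.v 3), (.v 4), 2, 4, 1, 2⟩) (.l ⟨-1, (.v 3), (.v 4), 2, 4, 1, 3⟩)))))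
def I84 : Bt Item :=
  (.n (.n (.n (.n (.l ⟨1, (.v 3), (.v 4), 3, 516, 0, 0⟩) (.l ⟨1, (.v 3), (.v 4), 3, 532, 0, 0⟩)) (.n (.l ⟨1, (.v 3), (.v 4), 2, 36, 1, 0⟩) (.l ⟨1, (.v 3), (.v 4), 2, 36, 1, 1⟩))) (.n (.n (.l ⟨-1, (.v 3), (.v 4), 3, 36, 0, 0⟩) (.l ⟨-1, (.v 3), (.v 4), 3, 52, 0, 0⟩)) (.n (.l ⟨-1, (.v 3), (.v 4), 1, 4, 2, 33⟩) (.l ⟨1, (.v 3), (.v 4), 1, 4, 2, 3⟩)))) (.n (.n (.n (.l ⟨-1, (.v 3), (.v 4), 2, 21, 1, 2⟩) (.l ⟨-1, (.v 3), (.v 4), 3, 533, 0, 0⟩)) (.n (.l ⟨-1, (.v 3), (.v 4), 3, 789, 0, 0⟩) (.l ⟨1, (.v 3), (.v 4), 2, 53, 1, 0⟩))) (.n (.n (.l ⟨1, (.v 3), (.v 4), 3, 53, 0, 0⟩) (.l ⟨1, (.v 3), (.v 4), 3, 309, 0, 0⟩)) (.n (.l ⟨1, (.v 3), (.v 4), 1, 5, 2, 32⟩) (.l ⟨-1, (.v 3), (.v 4), 1, 5, 2, 48⟩)))))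
def I85 : Bt Item :=
  (.n (.l ⟨-1, (.v 3), (.v 4), 1, 5, 2, 2⟩) (.l ⟨1, (.v 3), (.v 4), 1, 5, 2, 18⟩))
/-- all -/
def Is : Bt Item :=
  (.n (.n (.n (.n (.n (.n I0 I1) (.n I2 (.n I3 I4))) (.n (.n I5 I6) (.n I7 (.n I8 I9)))) (.n (.n (.n I10 I11) (.n I12 (.n I13 I14))) (.n (.n I15 (.n I16 I17)) (.n I18 (.n I19 I20))))) (.n (.n (.n (.n I21 I22) (.n I23 (.n I24 I25))) (.n (.n I26 (.n I27 I28)) (.n I29 (.n I30 I31)))) (.n (.n (.n I32 I33) (.n I34 (.n I35 I36))) (.n (.n I37 (.n I38 I39)) (.n I40 (.n I41 I42)))))) (.n (.n (.n (.n (.n I43 I44) (.n I45 (.n I46 I47))) (.n (.n I48 I49) (.n I50 (.n I51 I52)))) (.n (.n (.n I53 I54) (.n I55 (.n I56 I57))) (.n (.n I58 (.n I59 I60)) (.n I61 (.n I62 I63))))) (.n (.n (.n (.n I64 I65) (.n I66 (.n I67 I68))) (.n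 (.n I69 (.n I70 I71)) (.n I72 (.n I73 I74)))) (.n (.n (.n I75 I76) (.n I77 (.n I78 I79))) (.n (.n I80 (.n I81 I82)) (.n I83 (.n I84 I85)))))))
def W0 : Bt (ℤ × ℕ) :=
  (.n (.n (.n (.n (.n (.l (-1, 9336)) (.l (1, 9366))) (.n (.l (-1, 9592)) (.l (-1, 9593)))) (.n (.n (.l (1, 9622)) (.l (1, 9623))) (.n (.l (1, 9816)) (.l (-1, 9876))))) (.n (.n (.n (.l (1, 10072)) (.l (1, 10073))) (.n (.l (-1, 10132)) (.l (-1, 10133)))) (.n (.n (.l (-1, 10311)) (.l (-1, 10326))) (.n (.l (-1, 10327)) (.l (1, 10341)))))) (.n (.n (.n (.n (.l (1, 10356)) (.l (1, 10357))) (.n (.l (-2, 10566)) (.l (-2, 10567)))) (.n (.n (.l (-1, 10582)) (.l (-1, 10583))) (.n (.l (2, 10596)) (.l (2, 10597))))) (.n (.n (.n (.l (1, 10612)) (.l (1, 10613))) (.n (.l (1, 13416)) (.l (1, 13672))))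 (.n (.n (.l (1, 13702)) (.l (1, 13718))) (.n (.l (1, 13719)) (.l (-1, 13896)))))))
def W1 : Bt (ℤ × ℕ) :=
  (.n (.n (.n (.n (.n (.l (-1, 14152)) (.l (-1, 14212))) (.n (.l (-1, 14228)) (.l (-1, 14229)))) (.n (.n (.l (1, 14406)) (.l (-1, 14436))) (.n (.l (-1, 14663)) (.l (-2, 14678))))) (.n (.n (.n (.l (-1, 14679)) (.l (1, 14693))) (.n (.l (2, 14708)) (.l (1, 14709)))) (.n (.n (.l (1, 17001)) (.l (1, 17016))) (.n (.l (2, 17017)) (.l (-1, 17031)))))) (.n (.n (.n (.n (.l (1, 17257)) (.l (1, 17272))) (.n (.l (-2, 17286)) (.l (-1, 17287)))) (.n (.n (.l (-1, 17302)) (.l (-1, 17303))) (.n (.l (-1, 18306)) (.l (-1, 18322))))) (.n (.n (.n (.l (1, 18486)) (.l (1, 18487))) (.n (.l (1, 18742)) (.l (-1, 18787)))) (.n (.n (.l (-1, 18802)) (.l (-1, 21096)))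 (.n (.l (1, 21097)) (.l (1, 21112)))))))
def W2 : Bt (ℤ × ℕ) :=
  (.n (.n (.n (.n (.n (.l (2, 21113)) (.l (-1, 21126))) (.n (.l (-1, 21127)) (.l (-1, 21142)))) (.n (.n (.l (-1, 21143)) (.l (1, 21352))) (.n (.l (1, 21368)) (.l (1, 21369))))) (.n (.n (.n (.l (1, 22057)) (.l (-1, 22072))) (.n (.l (-1, 22162)) (.l (1, 22163)))) (.n (.n (.l (-1, 22402)) (.l (-1, 22418))) (.n (.l (1, 22626)) (.l (1, 22627)))))) (.n (.n (.n (.n (.l (-2, 22839)) (.l (-1, 22883))) (.n (.l (-1, 22899)) (.l (-1, 25161)))) (.n (.n (.l (-1, 25176)) (.l (-2, 25177))) (.n (.l (1, 25221)) (.l (-1, 25417))))) (.n (.n (.n (.l (-1, 25432)) (.l (2, 25476))) (.n (.l (1, 25477)) (.l (1, 25492)))) (.n (.n (.l (1, 25493)) (.l (1, 25986))) (.n (.l (1, 26002)) (.l (-1, 26676)))))))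
def W3 : Bt (ℤ × ℕ) :=
  (.n (.n (.n (.n (.n (.l (-1, 26677)) (.l (-1, 26932))) (.n (.l (1, 26947)) (.l (1, 26962)))) (.n (.n (.l (1, 29256)) (.l (-1, 29257))) (.n (.l (-1, 29272)) (.l (-2, 29273))))) (.n (.n (.n (.l (1, 29316)) (.l (1, 29317))) (.n (.l (1, 29332)) (.l (1, 29333)))) (.n (.n (.l (-1, 29512)) (.l (-1, 29528))) (.n (.l (-1, 29529)) (.l (-1, 29737)))))) (.n (.n (.n (.n (.l (1, 29752)) (.l (1, 29842))) (.n (.l (-1, 29843)) (.l (1, 30082)))) (.n (.n (.l (1, 30098)) (.l (-1, 30786))) (.n (.l (-1, 30787)) (.l (2, 31029))))) (.n (.n (.n (.l (1, 31043)) (.l (1, 31059))) (.n (.l (-1, 33366)) (.l (-2, 33367)))) (.n (.n (.l (1, 33396)) (.l (2, 33397))) (.n (.l (-1, 33606)) (.l (-1, 33623)))))))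
def W4 : Bt (ℤ × ℕ) :=
  (.n (.n (.n (.n (.n (.l (1, 33636)) (.l (1, 33653))) (.n (.l (1, 34086)) (.l (2, 34087)))) (.n (.n (.l (1, 34102)) (.l (1, 34103))) (.n (.l (-1, 34146)) (.l (-1, 34147))))) (.n (.n (.n (.l (-1, 34596)) (.l (-2, 34597))) (.n (.l (-1, 34612)) (.l (-1, 34613)))) (.n (.n (.l (1, 34626)) (.l (1, 34627))) (.n (.l (2, 37447)) (.l (-2, 37477)))))) (.n (.n (.n (.n (.l (-1, 37703)) (.l (1, 37733))) (.n (.l (1, 37927)) (.l (-1, 37942)))) (.n (.n (.l (1, 37987)) (.l (-1, 38003))) (.n (.l (-1, 38198)) (.l (-1, 38259))))) (.n (.n (.n (.l (-1, 38437)) (.l (1, 38452))) (.n (.l (-1, 38467)) (.l (1, 38483)))) (.n (.n (.l (1, 38708)) (.l (1, 38739))) (.n (.l (1, 74856)) (.l (1, 74872)))))))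
def W5 : Bt (ℤ × ℕ) :=
  (.n (.n (.n (.n (.n (.l (-1, 74886)) (.l (-1, 74902))) (.n (.l (1, 75112)) (.l (1, 75128)))) (.n (.n (.l (1, 75129)) (.l (-1, 75143))) (.n (.l (-1, 75336)) (.l (-1, 75352))))) (.n (.n (.n (.l (1, 75396)) (.l (1, 75412))) (.n (.l (-1, 75592)) (.l (-1, 75608)))) (.n (.n (.l (-1, 75609)) (.l (1, 75653))) (.n (.l (-1, 75847)) (.l (-1, 75862)))))) (.n (.n (.n (.n (.l (-1, 75863)) (.l (1, 75877))) (.n (.l (1, 75892)) (.l (1, 75893)))) (.n (.n (.l (-2, 76103)) (.l (-2, 76118))) (.n (.l (-2, 76119)) (.l (2, 76133))))) (.n (.n (.n (.l (2, 76148)) (.l (2, 76149))) (.n (.l (1, 78952)) (.l (1, 78953)))) (.n (.n (.l (1, 78983)) (.l (1, 78999))) (.n (.l (-1, 79238)) (.l (-1, 79239)))))))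
def W6 : Bt (ℤ × ℕ) :=
  (.n (.n (.n (.n (.n (.l (-1, 79254)) (.l (-1, 79432))) (.n (.l (-1, 79433)) (.l (-1, 79493)))) (.n (.n (.l (-1, 79509)) (.l (1, 79748))) (.n (.l (1, 79749)) (.l (1, 79764))))) (.n (.n (.n (.l (1, 79942)) (.l (1, 79943))) (.n (.l (3, 79958)) (.l (1, 79959)))) (.n (.n (.l (-1, 79972)) (.l (-1, 79973))) (.n (.l (-3, 79988)) (.l (-1, 79989)))))) (.n (.n (.n (.n (.l (1, 80198)) (.l (1, 80214))) (.n (.l (-1, 80228)) (.l (-1, 80244)))) (.n (.n (.l (-1, 82537)) (.l (1, 82552))) (.n (.l (-1, 82553)) (.l (-2, 82567))))) (.n (.n (.n (.l (-1, 82582)) (.l (-1, 82583))) (.n (.l (-1, 82792)) (.l (-1, 82793)))) (.n (.n (.l (-1, 82808)) (.l (-1, 82809))) (.n (.l (1, 83512)) (.l (1, 83513)))))))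
def W7 : Bt (ℤ × ℕ) :=
  (.n (.n (.n (.n (.n (.l (-1, 83587)) (.l (1, 83602))) (.n (.l (-1, 83603)) (.l (1, 83769)))) (.n (.n (.l (-1, 83843)) (.l (1, 83858))) (.n (.l (1, 83859)) (.l (1, 84006))))) (.n (.n (.n (.l (1, 84007)) (.l (1, 84022))) (.n (.l (1, 84023)) (.l (-1, 84082)))) (.n (.n (.l (1, 84263)) (.l (1, 84278))) (.n (.l (1, 84279)) (.l (1, 84323)))))) (.n (.n (.n (.n (.l (-1, 86633)) (.l (-1, 86648))) (.n (.l (-1, 86649)) (.l (1, 86662)))) (.n (.n (.l (1, 86678)) (.l (1, 86889))) (.n (.l (1, 86934)) (.l (-2, 87593))))) (.n (.n (.n (.l (-1, 87609)) (.l (-1, 87683))) (.n (.l (1, 87698)) (.l (1, 87848)))) (.n (.n (.l (1, 87849)) (.l (-1, 87954))) (.n (.l (1, 88102)) (.l (1, 88103)))))))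
def W8 : Bt (ℤ × ℕ) :=
  (.n (.n (.n (.n (.n (.l (-1, 88178)) (.l (1, 88358))) (.n (.l (2, 88359)) (.l (1, 88419)))) (.n (.n (.l (-1, 88434)) (.l (1, 90697))) (.n (.l (-1, 90712)) (.l (1, 90713))))) (.n (.n (.n (.l (2, 90757)) (.l (1, 90772))) (.n (.l (1, 90773)) (.l (1, 90952)))) (.n (.n (.l (1, 90953)) (.l (1, 90968))) (.n (.l (1, 90969)) (.l (-1, 91192)))))) (.n (.n (.n (.n (.l (-1, 91193)) (.l (1, 91267))) (.n (.l (-1, 91282)) (.l (1, 91283)))) (.n (.n (.l (-1, 91449)) (.l (1, 91523))) (.n (.l (-1, 91538)) (.l (-1, 91539))))) (.n (.n (.n (.l (-1, 92196)) (.l (-1, 92197))) (.n (.l (-1, 92212)) (.l (-1, 92213)))) (.n (.n (.l (1, 92242)) (.l (-1, 92453))) (.n (.l (-1, 92468)) (.l (-1, 92469)))))))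
def W9 : Bt (ℤ × ℕ) :=
  (.n (.n (.n (.n (.n (.l (-1, 92483)) (.l (1, 94793))) (.n (.l (1, 94808)) (.l (1, 94809)))) (.n (.n (.l (-1, 94852)) (.l (-1, 94868))) (.n (.l (-1, 95049)) (.l (-1, 95124))))) (.n (.n (.n (.l (2, 95273)) (.l (1, 95289))) (.n (.l (1, 95363)) (.l (-1, 95378)))) (.n (.n (.l (-1, 95528)) (.l (-1, 95529))) (.n (.l (1, 95634)) (.l (-1, 96292)))))) (.n (.n (.n (.n (.l (-1, 96293)) (.l (1, 96338))) (.n (.l (-1, 96548)) (.l (-2, 96549)))) (.n (.n (.l (-1, 96579)) (.l (1, 96594))) (.n (.l (-1, 98887)) (.l (1, 98917))))) (.n (.n (.n (.l (-2, 99142)) (.l (-1, 99143))) (.n (.l (-2, 99158)) (.l (2, 99172)))) (.n (.n (.l (1, 99173)) (.l (2, 99188))) (.n (.l (1, 99366)) (.l (2, 99382)))))))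
def W10 : Bt (ℤ × ℕ) :=
  (.n (.n (.n (.n (.n (.l (1, 99383)) (.l (1, 99427))) (.n (.l (1, 99442)) (.l (1, 99638)))) (.n (.n (.l (1, 99639)) (.l (-1, 99699))) (.n (.l (-1, 99876)) (.l (-2, 99892))))) (.n (.n (.n (.l (-1, 99893)) (.l (-1, 99907))) (.n (.l (-1, 99922)) (.l (-1, 100148)))) (.n (.n (.l (-1, 100149)) (.l (1, 100179))) (.n (.l (1, 102982)) (.l (1, 102998)))))) (.n (.n (.n (.n (.l (-1, 103012)) (.l (-1, 103028))) (.n (.l (-1, 103238)) (.l (-2, 103239)))) (.n (.n (.l (1, 103268)) (.l (2, 103269))) (.n (.l (1, 103462)) (.l (1, 103463))))) (.n (.n (.n (.l (1, 103479)) (.l (-1, 103522))) (.n (.l (1, 103538)) (.l (-1, 103718)))) (.n (.n (.l (-1, 103734)) (.l (1, 103778))) (.n (.l (1, 103794)) (.l (-1, 103972)))))))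
def W11 : Bt (ℤ × ℕ) :=
  (.n (.n (.n (.n (.n (.l (-1, 103973)) (.l (-1, 103989))) (.n (.l (1, 104002)) (.l (-1, 104018)))) (.n (.n (.l (1, 104228)) (.l (1, 104244))) (.n (.l (-1, 104258)) (.l (-1, 104274))))) (.n (.n (.n (.l (1, 132216)) (.l (-1, 132246))) (.n (.l (1, 132472)) (.l (1, 132473)))) (.n (.n (.l (-1, 132502)) (.l (-1, 132503))) (.n (.l (-1, 132696)) (.l (1, 132756)))))) (.n (.n (.n (.n (.l (-1, 132952)) (.l (-1, 132953))) (.n (.l (1, 133012)) (.l (1, 133013)))) (.n (.n (.l (1, 133191)) (.l (1, 133206))) (.n (.l (1, 133207)) (.l (-1, 133221))))) (.n (.n (.n (.l (-1, 133236)) (.l (-1, 133237))) (.n (.l (2, 133446)) (.l (2, 133447)))) (.n (.n (.l (1, 133462)) (.l (1, 133463))) (.n (.l (-2, 133476)) (.l (-2, 133477)))))))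
def W12 : Bt (ℤ × ℕ) :=
  (.n (.n (.n (.n (.n (.l (-1, 133492)) (.l (-1, 133493))) (.n (.l (-1, 136296)) (.l (-1, 136552)))) (.n (.n (.l (-1, 136582)) (.l (-1, 136598))) (.n (.l (-1, 136599)) (.l (1, 136776))))) (.n (.n (.n (.l (1, 137032)) (.l (1, 137092))) (.n (.l (1, 137108)) (.l (1, 137109)))) (.n (.n (.l (-1, 137286)) (.l (1, 137316))) (.n (.l (1, 137543)) (.l (2, 137558)))))) (.n (.n (.n (.n (.l (1, 137559)) (.l (-1, 137573))) (.n (.l (-2, 137588)) (.l (-1, 137589)))) (.n (.n (.l (-1, 147561)) (.l (-1, 147576))) (.n (.l (-2, 147577)) (.l (1, 147591))))) (.n (.n (.n (.l (-1, 147817)) (.l (-1, 147832))) (.n (.l (2, 147846)) (.l (1, 147847)))) (.n (.n (.l (1, 147862)) (.l (1, 147863))) (.n (.l (1, 149376)) (.l (1, 149392)))))))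
def W13 : Bt (ℤ × ℕ) :=
  (.n (.n (.n (.n (.n (.l (-1, 149526)) (.l (-1, 149527))) (.n (.l (-1, 149782)) (.l (1, 149857)))) (.n (.n (.l (1, 149872)) (.l (1, 151656))) (.n (.l (-1, 151657)) (.l (-1, 151672))))) (.n (.n (.n (.l (-2, 151673)) (.l (1, 151686))) (.n (.l (1, 151687)) (.l (1, 151702)))) (.n (.n (.l (1, 151703)) (.l (-1, 151912))) (.n (.l (-1, 151928)) (.l (-1, 151929)))))) (.n (.n (.n (.n (.l (-1, 153097)) (.l (1, 153112))) (.n (.l (1, 153232)) (.l (-1, 153233)))) (.n (.n (.l (1, 153472)) (.l (1, 153488))) (.n (.l (-1, 153696)) (.l (-1, 153697))))) (.n (.n (.n (.l (2, 153879)) (.l (1, 153953))) (.n (.l (1, 153969)) (.l (1, 155721)))) (.n (.n (.l (1, 155736)) (.l (2, 155737))) (.n (.l (-1, 155781)) (.l (1, 155977)))))))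
def W14 : Bt (ℤ × ℕ) :=
  (.n (.n (.n (.n (.n (.l (1, 155992)) (.l (-2, 156036))) (.n (.l (-1, 156037)) (.l (-1, 156052)))) (.n (.n (.l (-1, 156053)) (.l (-1, 157056))) (.n (.l (-1, 157072)) (.l (1, 157716))))) (.n (.n (.n (.l (1, 157717)) (.l (1, 157972))) (.n (.l (-1, 158017)) (.l (-1, 158032)))) (.n (.n (.l (-1, 159816)) (.l (1, 159817))) (.n (.l (1, 159832)) (.l (2, 159833)))))) (.n (.n (.n (.n (.l (-1, 159876)) (.l (-1, 159877))) (.n (.l (-1, 159892)) (.l (-1, 159893)))) (.n (.n (.l (1, 160072)) (.l (1, 160088))) (.n (.l (1, 160089)) (.l (1, 160777))))) (.n (.n (.n (.l (-1, 160792)) (.l (-1, 160912))) (.n (.l (1, 160913)) (.l (-1, 161152)))) (.n (.n (.l (-1, 161168)) (.l (1, 161856))) (.n (.l (1, 161857)) (.l (-2, 162069)))))))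
def W15 : Bt (ℤ × ℕ) :=
  (.n (.n (.n (.n (.n (.l (-1, 162113)) (.l (-1, 162129))) (.n (.l (1, 163926)) (.l (2, 163927)))) (.n (.n (.l (-1, 163956)) (.l (-2, 163957))) (.n (.l (1, 164166)) (.l (1, 164183))))) (.n (.n (.n (.l (-1, 164196)) (.l (-1, 164213))) (.n (.l (-1, 165126)) (.l (-2, 165127)))) (.n (.n (.l (-1, 165142)) (.l (-1, 165143))) (.n (.l (1, 165216)) (.l (1, 165217)))))) (.n (.n (.n (.n (.l (1, 165636)) (.l (2, 165637))) (.n (.l (1, 165652)) (.l (1, 165653)))) (.n (.n (.l (-1, 165696)) (.l (-1, 165697))) (.n (.l (-2, 168007)) (.l (2, 168037))))) (.n (.n (.n (.l (1, 168263)) (.l (-1, 168293))) (.n (.l (-1, 168967)) (.l (1, 168982)))) (.n (.n (.l (-1, 169057)) (.l (1, 169073))) (.n (.l (1, 169238)) (.l (1, 169329)))))))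
def W16 : Bt (ℤ × ℕ) :=
  (.n (.n (.n (.n (.n (.l (1, 169477)) (.l (-1, 169492))) (.n (.l (1, 169537)) (.l (-1, 169553)))) (.n (.n (.l (-1, 169748)) (.l (-1, 169809))) (.n (.l (-1, 197736)) (.l (-1, 197752))))) (.n (.n (.n (.l (1, 197766)) (.l (1, 197782))) (.n (.l (-1, 197992)) (.l (-1, 198008)))) (.n (.n (.l (-1, 198009)) (.l (1, 198023))) (.n (.l (1, 198216)) (.l (1, 198232)))))) (.n (.n (.n (.n (.l (-1, 198276)) (.l (-1, 198292))) (.n (.l (1, 198472)) (.l (1, 198488)))) (.n (.n (.l (1, 198489)) (.l (-1, 198533))) (.n (.l (1, 198727)) (.l (1, 198742))))) (.n (.n (.n (.l (1, 198743)) (.l (-1, 198757))) (.n (.l (-1, 198772)) (.l (-1, 198773)))) (.n (.n (.l (2, 198983)) (.l (2, 198998))) (.n (.l (2, 198999)) (.l (-2, 199013)))))))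
def W17 : Bt (ℤ × ℕ) :=
  (.n (.n (.n (.n (.n (.l (-2, 199028)) (.l (-2, 199029))) (.n (.l (-1, 201832)) (.l (-1, 201833)))) (.n (.n (.l (-1, 201863)) (.l (-1, 201879))) (.n (.l (1, 202118)) (.l (1, 202119))))) (.n (.n (.n (.l (1, 202134)) (.l (1, 202312))) (.n (.l (1, 202313)) (.l (1, 202373)))) (.n (.n (.l (1, 202389)) (.l (-1, 202628))) (.n (.l (-1, 202629)) (.l (-1, 202644)))))) (.n (.n (.n (.n (.l (-1, 202822)) (.l (-1, 202823))) (.n (.l (-3, 202838)) (.l (-1, 202839)))) (.n (.n (.l (1, 202852)) (.l (1, 202853))) (.n (.l (3, 202868)) (.l (1, 202869))))) (.n (.n (.n (.l (-1, 203078)) (.l (-1, 203094))) (.n (.l (1, 203108)) (.l (1, 203124)))) (.n (.n (.l (1, 213097)) (.l (-1, 213112))) (.n (.l (1, 213113)) (.l (2, 213127)))))))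
def W18 : Bt (ℤ × ℕ) :=
  (.n (.n (.n (.n (.n (.l (1, 213142)) (.l (1, 213143))) (.n (.l (1, 213352)) (.l (1, 213353)))) (.n (.n (.l (1, 213368)) (.l (1, 213369))) (.n (.l (-1, 214552)) (.l (-1, 214553))))) (.n (.n (.n (.l (1, 214657)) (.l (-1, 214672))) (.n (.l (1, 214673)) (.l (-1, 214809)))) (.n (.n (.l (1, 214913)) (.l (-1, 214928))) (.n (.l (-1, 214929)) (.l (-1, 215046)))))) (.n (.n (.n (.n (.l (-1, 215047)) (.l (-1, 215062))) (.n (.l (-1, 215063)) (.l (1, 215152)))) (.n (.n (.l (-1, 215303)) (.l (-1, 215318))) (.n (.l (-1, 215319)) (.l (-1, 215393))))) (.n (.n (.n (.l (1, 217193)) (.l (1, 217208))) (.n (.l (1, 217209)) (.l (-1, 217222)))) (.n (.n (.l (-1, 217238)) (.l (-1, 217449))) (.n (.l (-1, 217494)) (.l (2, 218633)))))))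
def W19 : Bt (ℤ × ℕ) :=
  (.n (.n (.n (.n (.n (.l (1, 218649)) (.l (1, 218753))) (.n (.l (-1, 218768)) (.l (-1, 218888)))) (.n (.n (.l (-1, 218889)) (.l (1, 219024))) (.n (.l (-1, 219142)) (.l (-1, 219143))))) (.n (.n (.n (.l (1, 219248)) (.l (-1, 219398))) (.n (.l (-2, 219399)) (.l (-1, 219489)))) (.n (.n (.l (1, 219504)) (.l (-1, 221257))) (.n (.l (1, 221272)) (.l (-1, 221273)))))) (.n (.n (.n (.n (.l (-2, 221317)) (.l (-1, 221332))) (.n (.l (-1, 221333)) (.l (-1, 221512)))) (.n (.n (.l (-1, 221513)) (.l (-1, 221528))) (.n (.l (-1, 221529)) (.l (1, 222232))))) (.n (.n (.n (.l (1, 222233)) (.l (-1, 222337))) (.n (.l (1, 222352)) (.l (-1, 222353)))) (.n (.n (.l (1, 222489)) (.l (-1, 222593))) (.n (.l (1, 222608)) (.l (1, 222609)))))))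
def W20 : Bt (ℤ × ℕ) :=
  (.n (.n (.n (.n (.n (.l (1, 223236)) (.l (1, 223237))) (.n (.l (1, 223252)) (.l (1, 223253)))) (.n (.n (.l (-1, 223312)) (.l (1, 223493))) (.n (.l (1, 223508)) (.l (1, 223509))))) (.n (.n (.n (.l (1, 223553)) (.l (-1, 225353))) (.n (.l (-1, 225368)) (.l (-1, 225369)))) (.n (.n (.l (1, 225412)) (.l (1, 225428))) (.n (.l (1, 225609)) (.l (1, 225684)))))) (.n (.n (.n (.n (.l (-2, 226313)) (.l (-1, 226329))) (.n (.l (-1, 226433)) (.l (1, 226448)))) (.n (.n (.l (1, 226568)) (.l (1, 226569))) (.n (.l (-1, 226704)) (.l (1, 227332))))) (.n (.n (.n (.l (1, 227333)) (.l (-1, 227408))) (.n (.l (1, 227588)) (.l (2, 227589)))) (.n (.n (.l (1, 227649)) (.l (-1, 227664))) (.n (.l (1, 229447)) (.l (-1, 229477)))))))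
def W21 : Bt (ℤ × ℕ) :=
  (.n (.n (.n (.n (.n (.l (2, 229702)) (.l (1, 229703))) (.n (.l (2, 229718)) (.l (-2, 229732)))) (.n (.n (.l (-1, 229733)) (.l (-2, 229748))) (.n (.l (-1, 230406)) (.l (-2, 230422))))) (.n (.n (.n (.l (-1, 230423)) (.l (-1, 230497))) (.n (.l (-1, 230512)) (.l (-1, 230678)))) (.n (.n (.l (-1, 230679)) (.l (1, 230769))) (.n (.l (1, 230916)) (.l (2, 230932)))))) (.n (.n (.n (.n (.l (1, 230933)) (.l (1, 230977))) (.n (.l (1, 230992)) (.l (1, 231188)))) (.n (.n (.l (1, 231189)) (.l (-1, 231249))) (.n (.l (-1, 233542)) (.l (-1, 233558))))) (.n (.n (.n (.l (1, 233572)) (.l (1, 233588))) (.n (.l (1, 233798)) (.l (2, 233799)))) (.n (.n (.l (-1, 233828)) (.l (-2, 233829))) (.n (.l (-1, 234502)) (.l (-1, 234503)))))))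
def W22 : Bt (ℤ × ℕ) :=
  (.n (.n (.n (.n (.n (.l (-1, 234519)) (.l (1, 234592))) (.n (.l (-1, 234608)) (.l (1, 234758)))) (.n (.n (.l (1, 234774)) (.l (-1, 234848))) (.n (.l (-1, 234864)) (.l (1, 235012))))) (.n (.n (.n (.l (1, 235013)) (.l (1, 235029))) (.n (.l (-1, 235072)) (.l (1, 235088)))) (.n (.n (.l (-1, 235268)) (.l (-1, 235284))) (.n (.l (1, 235328)) (.l (1, 235344)))))) (.n (.n (.n (.n (.l (1, 262806)) (.l (1, 262807))) (.n (.l (-1, 263016)) (.l (-1, 263032)))) (.n (.n (.l (1, 263033)) (.l (-1, 263046))) (.n (.l (-1, 263062)) (.l (-1, 263063))))) (.n (.n (.n (.l (-1, 263721)) (.l (-1, 263737))) (.n (.l (1, 263811)) (.l (2, 263826)))) (.n (.n (.l (2, 263827)) (.l (-1, 263977))) (.n (.l (-1, 263992)) (.l (-1, 263993)))))))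
def W23 : Bt (ℤ × ℕ) :=
  (.n (.n (.n (.n (.n (.l (1, 264066)) (.l (3, 264067))) (.n (.l (1, 264082)) (.l (1, 264083)))) (.n (.n (.l (-1, 264231)) (.l (-1, 264291))) (.n (.l (-1, 264307)) (.l (-1, 264486))))) (.n (.n (.n (.l (-1, 264487)) (.l (-1, 264547))) (.n (.l (-1, 264563)) (.l (-1, 266857)))) (.n (.n (.l (1, 266873)) (.l (-2, 266886))) (.n (.l (1, 266902)) (.l (1, 266903)))))) (.n (.n (.n (.n (.l (-1, 267113)) (.l (-2, 267142))) (.n (.l (-1, 267143)) (.l (-1, 267158)))) (.n (.n (.l (-1, 267817)) (.l (-1, 267832))) (.n (.l (1, 267833)) (.l (1, 267922))))) (.n (.n (.n (.l (3, 267923)) (.l (-1, 268178))) (.n (.l (-1, 268326)) (.l (-1, 268327)))) (.n (.n (.l (-2, 268342)) (.l (-1, 268343))) (.n (.l (1, 268386)) (.l (1, 268387)))))))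
def W24 : Bt (ℤ × ℕ) :=
  (.n (.n (.n (.n (.n (.l (1, 268402)) (.l (-1, 268582))) (.n (.l (-2, 268583)) (.l (-1, 268598)))) (.n (.n (.l (-2, 268643)) (.l (-1, 268658))) (.n (.l (-1, 268659)) (.l (-1, 270486))))) (.n (.n (.n (.l (-1, 270487)) (.l (1, 270696))) (.n (.l (1, 270712)) (.l (-1, 270713)))) (.n (.n (.l (1, 270726)) (.l (1, 270742))) (.n (.l (1, 270743)) (.l (1, 271881)))))) (.n (.n (.n (.n (.l (1, 271897)) (.l (-1, 272001))) (.n (.l (-2, 272016)) (.l (-2, 272017)))) (.n (.n (.l (1, 272137)) (.l (1, 272152))) (.n (.l (1, 272153)) (.l (-1, 272256))))) (.n (.n (.n (.l (-3, 272257)) (.l (-1, 272272))) (.n (.l (-1, 272273)) (.l (1, 272391)))) (.n (.n (.l (1, 272481)) (.l (1, 272497))) (.n (.l (1, 272646)) (.l (1, 272647)))))))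
def W25 : Bt (ℤ × ℕ) :=
  (.n (.n (.n (.n (.n (.l (1, 272737)) (.l (1, 272753))) (.n (.l (1, 274537)) (.l (-1, 274553)))) (.n (.n (.l (2, 274566)) (.l (-1, 274582))) (.n (.l (-1, 274583)) (.l (1, 274793))))) (.n (.n (.n (.l (2, 274822)) (.l (1, 274823))) (.n (.l (1, 274838)) (.l (1, 275977)))) (.n (.n (.l (1, 275992)) (.l (-1, 275993))) (.n (.l (-1, 276112)) (.l (-3, 276113)))))) (.n (.n (.n (.n (.l (1, 276368)) (.l (1, 276486))) (.n (.l (1, 276487)) (.l (2, 276502)))) (.n (.n (.l (1, 276503)) (.l (-1, 276576))) (.n (.l (-1, 276577)) (.l (-1, 276592))))) (.n (.n (.n (.l (1, 276742)) (.l (2, 276743))) (.n (.l (1, 276758)) (.l (2, 276833)))) (.n (.n (.l (1, 276848)) (.l (1, 276849))) (.n (.l (-1, 286866)) (.l (-1, 286867)))))))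
def W26 : Bt (ℤ × ℕ) :=
  (.n (.n (.n (.n (.n (.l (-1, 287033)) (.l (1, 287107))) (.n (.l (1, 287376)) (.l (1, 287377)))) (.n (.n (.l (1, 287513)) (.l (-1, 287617))) (.n (.l (1, 289042)) (.l (2, 289043))))) (.n (.n (.n (.l (-1, 289072)) (.l (-2, 289073))) (.n (.l (1, 290873)) (.l (-1, 290947)))) (.n (.n (.l (-1, 290963)) (.l (1, 291218))) (.n (.l (-1, 291353)) (.l (1, 291457)))))) (.n (.n (.n (.n (.l (1, 291473)) (.l (-1, 291728))) (.n (.l (-1, 292867)) (.l (1, 292897)))) (.n (.n (.l (2, 294966)) (.l (1, 294967))) (.n (.l (-1, 295026)) (.l (2, 295206))))) (.n (.n (.n (.l (1, 295207)) (.l (3, 295222))) (.n (.l (1, 295223)) (.l (-1, 295267)))) (.n (.n (.l (-2, 295446)) (.l (-1, 295447))) (.n (.l (1, 295536)) (.l (-2, 295686)))))))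
def W27 : Bt (ℤ × ℕ) :=
  (.n (.n (.n (.n (.n (.l (-1, 295687)) (.l (-3, 295702))) (.n (.l (-1, 295703)) (.l (1, 295777)))) (.n (.n (.l (-1, 296466)) (.l (1, 296496))) (.n (.l (1, 296723)) (.l (-1, 296753))))) (.n (.n (.n (.l (-1, 299047)) (.l (-2, 299063))) (.n (.l (-2, 299106)) (.l (-1, 299107)))) (.n (.n (.l (-1, 299122)) (.l (-1, 299123))) (.n (.l (1, 299302)) (.l (2, 299318)))))) (.n (.n (.n (.n (.l (-1, 299362)) (.l (-1, 299363))) (.n (.l (1, 299379)) (.l (1, 299527)))) (.n (.n (.l (2, 299543)) (.l (2, 299616))) (.n (.l (1, 299617)) (.l (1, 299632))))) (.n (.n (.n (.l (1, 299633)) (.l (-1, 299782))) (.n (.l (-2, 299798)) (.l (1, 299872)))) (.n (.n (.l (1, 299873)) (.l (-1, 299889))) (.n (.l (1, 300547)) (.l (-1, 300562)))))))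
def W28 : Bt (ℤ × ℕ) :=
  (.n (.n (.n (.n (.n (.l (-1, 300563)) (.l (-1, 300577))) (.n (.l (1, 300592)) (.l (1, 300593)))) (.n (.n (.l (1, 300803)) (.l (-1, 300833))) (.n (.l (-2, 328312)) (.l (-1, 328313))))) (.n (.n (.n (.l (1, 328326)) (.l (2, 328327))) (.n (.l (1, 328343)) (.l (1, 328553)))) (.n (.n (.l (-1, 328582)) (.l (1, 328599))) (.n (.l (-1, 329346)) (.l (1, 329362)))))) (.n (.n (.n (.n (.l (-1, 329363)) (.l (1, 329512))) (.n (.l (1, 329529)) (.l (-1, 329603)))) (.n (.n (.l (1, 329618)) (.l (1, 329842))) (.n (.l (-1, 330038)) (.l (1, 330039))))) (.n (.n (.n (.l (1, 330082)) (.l (1, 330083))) (.n (.l (1, 332393)) (.l (1, 332408)))) (.n (.n (.l (1, 332409)) (.l (1, 332423))) (.n (.l (1, 332439)) (.l (1, 332664)))))))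
def W29 : Bt (ℤ × ℕ) :=
  (.n (.n (.n (.n (.n (.l (-1, 332678)) (.l (1, 333352))) (.n (.l (1, 333353)) (.l (1, 333443)))) (.n (.n (.l (-1, 333624)) (.l (1, 333698))) (.n (.l (1, 333699)) (.l (-1, 333862))))) (.n (.n (.n (.l (-1, 333878)) (.l (-1, 333879))) (.n (.l (1, 334178)) (.l (2, 335992)))) (.n (.n (.l (1, 335993)) (.l (-1, 336006))) (.n (.l (-2, 336007)) (.l (-1, 336023)))))) (.n (.n (.n (.n (.l (-1, 336233)) (.l (1, 336262))) (.n (.l (-1, 336279)) (.l (1, 337536)))) (.n (.n (.l (-1, 337552)) (.l (1, 337553))) (.n (.l (-1, 337672)) (.l (-1, 337689))))) (.n (.n (.n (.l (1, 337793)) (.l (-1, 337808))) (.n (.l (-1, 338032)) (.l (1, 338198)))) (.n (.n (.l (-1, 338199)) (.l (-1, 338272))) (.n (.l (-1, 338273)) (.l (-1, 340073)))))))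
def W30 : Bt (ℤ × ℕ) :=
  (.n (.n (.n (.n (.n (.l (-1, 340088)) (.l (-1, 340089))) (.n (.l (-1, 340103)) (.l (-1, 340119)))) (.n (.n (.l (-1, 340344)) (.l (1, 340358))) (.n (.l (-1, 341512)) (.l (-1, 341513))))) (.n (.n (.n (.l (-1, 341633)) (.l (1, 341784))) (.n (.l (-1, 341888)) (.l (-1, 341889)))) (.n (.n (.l (1, 342022)) (.l (1, 342038))) (.n (.l (1, 342039)) (.l (-1, 342368)))))) (.n (.n (.n (.n (.l (-1, 352403)) (.l (-1, 352552))) (.n (.l (-1, 352553)) (.l (1, 352913)))) (.n (.n (.l (1, 353032)) (.l (1, 353033))) (.n (.l (-1, 354306)) (.l (-1, 354307))))) (.n (.n (.n (.l (1, 354336)) (.l (1, 354337))) (.n (.l (1, 354578)) (.l (1, 354579)))) (.n (.n (.l (-1, 354608)) (.l (-1, 354609))) (.n (.l (1, 356392)) (.l (1, 356408)))))))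
def W31 : Bt (ℤ × ℕ) :=
  (.n (.n (.n (.n (.n (.l (-1, 356409)) (.l (1, 356483))) (.n (.l (1, 356648)) (.l (1, 356739)))) (.n (.n (.l (-1, 356872)) (.l (-1, 356888))) (.n (.l (1, 356889)) (.l (-1, 356993))))) (.n (.n (.n (.l (-1, 357128)) (.l (-1, 357249))) (.n (.l (1, 358402)) (.l (1, 358418)))) (.n (.n (.l (-1, 358432)) (.l (-1, 358448))) (.n (.l (1, 360503)) (.l (1, 360546)))))) (.n (.n (.n (.n (.l (1, 360547)) (.l (1, 360562))) (.n (.l (2, 360742)) (.l (2, 360758)))) (.n (.n (.l (1, 360759)) (.l (-1, 360819))) (.n (.l (-1, 360983)) (.l (-1, 361056))))) (.n (.n (.n (.l (-1, 361057)) (.l (-1, 361072))) (.n (.l (-2, 361222)) (.l (-2, 361238)))) (.n (.n (.l (-1, 361239)) (.l (1, 361329))) (.n (.l (-1, 361987)) (.l (1, 362017)))))))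
def W32 : Bt (ℤ × ℕ) :=
  (.n (.n (.n (.n (.n (.l (-1, 362242)) (.l (-1, 362243))) (.n (.l (-1, 362258)) (.l (1, 362272)))) (.n (.n (.l (1, 362273)) (.l (1, 362288))) (.n (.l (-1, 364582)) (.l (-1, 364642))))) (.n (.n (.n (.l (1, 364643)) (.l (1, 364658))) (.n (.l (1, 364854)) (.l (-1, 364898)))) (.n (.n (.l (-1, 364899)) (.l (-1, 364914))) (.n (.l (1, 365062)) (.l (1, 365152)))))) (.n (.n (.n (.n (.l (-1, 365153)) (.l (-1, 365168))) (.n (.l (-1, 365334)) (.l (1, 365408)))) (.n (.n (.l (1, 365409)) (.l (1, 365424))) (.n (.l (-1, 366098)) (.l (-1, 366099))))) (.n (.n (.n (.l (1, 366128)) (.l (1, 366129))) (.n (.l (-2, 366338)) (.l (-1, 366339)))) (.n (.n (.l (-2, 366354)) (.l (2, 366368))) (.n (.l (1, 366369)) (.l (2, 366384)))))))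
def W33 : Bt (ℤ × ℕ) :=
  (.n (.n (.n (.n (.n (.l (-1, 393876)) (.l (-1, 393877))) (.n (.l (1, 394056)) (.l (1, 394072)))) (.n (.n (.l (-1, 394073)) (.l (1, 394116))) (.n (.l (1, 394132)) (.l (1, 394133))))) (.n (.n (.n (.l (1, 394281)) (.l (1, 394297))) (.n (.l (-1, 394371)) (.l (-2, 394386)))) (.n (.n (.l (-2, 394387)) (.l (1, 394537))) (.n (.l (1, 394552)) (.l (1, 394553)))))) (.n (.n (.n (.n (.l (-1, 394626)) (.l (-3, 394627))) (.n (.l (-1, 394642)) (.l (-1, 394643)))) (.n (.n (.l (1, 395301)) (.l (1, 395331))) (.n (.l (1, 395347)) (.l (1, 395556))))) (.n (.n (.n (.l (1, 395557)) (.l (1, 395587))) (.n (.l (1, 395603)) (.l (1, 397897)))) (.n (.n (.l (-1, 397913)) (.l (2, 397956))) (.n (.l (-1, 397972)) (.l (-1, 397973)))))))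
def W34 : Bt (ℤ × ℕ) :=
  (.n (.n (.n (.n (.n (.l (1, 398153)) (.l (2, 398212))) (.n (.l (1, 398213)) (.l (1, 398228)))) (.n (.n (.l (1, 398377)) (.l (1, 398392))) (.n (.l (-1, 398393)) (.l (-1, 398482))))) (.n (.n (.n (.l (-3, 398483)) (.l (1, 398738))) (.n (.l (1, 399396)) (.l (1, 399397)))) (.n (.n (.l (2, 399412)) (.l (1, 399413))) (.n (.l (-1, 399426)) (.l (-1, 399427)))))) (.n (.n (.n (.n (.l (-1, 399442)) (.l (1, 399652))) (.n (.l (2, 399653)) (.l (1, 399668)))) (.n (.n (.l (2, 399683)) (.l (1, 399698))) (.n (.l (1, 399699)) (.l (1, 401556))))) (.n (.n (.n (.l (1, 401557)) (.l (-1, 401736))) (.n (.l (-1, 401752)) (.l (1, 401753)))) (.n (.n (.l (-1, 401796)) (.l (-1, 401812))) (.n (.l (-1, 401813)) (.l (-1, 402441)))))))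
def W35 : Bt (ℤ × ℕ) :=
  (.n (.n (.n (.n (.n (.l (-1, 402457)) (.l (1, 402561))) (.n (.l (2, 402576)) (.l (2, 402577)))) (.n (.n (.l (-1, 402697)) (.l (-1, 402712))) (.n (.l (-1, 402713)) (.l (1, 402816))))) (.n (.n (.n (.l (3, 402817)) (.l (1, 402832))) (.n (.l (1, 402833)) (.l (-1, 403461)))) (.n (.n (.l (-1, 403521)) (.l (-1, 403537))) (.n (.l (-1, 403716)) (.l (-1, 403717)))))) (.n (.n (.n (.n (.l (-1, 403777)) (.l (-1, 403793))) (.n (.l (-1, 405577)) (.l (1, 405593)))) (.n (.n (.l (-2, 405636)) (.l (1, 405652))) (.n (.l (1, 405653)) (.l (-1, 405833))))) (.n (.n (.n (.l (-2, 405892)) (.l (-1, 405893))) (.n (.l (-1, 405908)) (.l (-1, 406537)))) (.n (.n (.l (-1, 406552)) (.l (1, 406553))) (.n (.l (1, 406672)) (.l (3, 406673)))))))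
def W36 : Bt (ℤ × ℕ) :=
  (.n (.n (.n (.n (.n (.l (-1, 406928)) (.l (-1, 407556))) (.n (.l (-1, 407557)) (.l (-2, 407572)))) (.n (.n (.l (-1, 407573)) (.l (1, 407616))) (.n (.l (1, 407617)) (.l (1, 407632))))) (.n (.n (.n (.l (-1, 407812)) (.l (-2, 407813))) (.n (.l (-1, 407828)) (.l (-2, 407873)))) (.n (.n (.l (-1, 407888)) (.l (-1, 407889))) (.n (.l (1, 409746)) (.l (1, 409747)))))) (.n (.n (.n (.n (.l (1, 409913)) (.l (-1, 409987))) (.n (.l (-1, 410256)) (.l (-1, 410257)))) (.n (.n (.l (-1, 410393)) (.l (1, 410497))) (.n (.l (-1, 411922)) (.l (-2, 411923))))) (.n (.n (.n (.l (1, 411952)) (.l (2, 411953))) (.n (.l (-1, 413753)) (.l (1, 413827)))) (.n (.n (.l (1, 413843)) (.l (-1, 414098))) (.n (.l (1, 414233)) (.l (-1, 414337)))))))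
def W37 : Bt (ℤ × ℕ) :=
  (.n (.n (.n (.n (.n (.l (-1, 414353)) (.l (1, 414608))) (.n (.l (1, 415747)) (.l (-1, 415777)))) (.n (.n (.l (-2, 426036)) (.l (-1, 426037))) (.n (.l (1, 426066)) (.l (-2, 426276))))) (.n (.n (.n (.l (-1, 426277)) (.l (-3, 426292))) (.n (.l (-1, 426293)) (.l (1, 426307)))) (.n (.n (.l (2, 426516)) (.l (1, 426517))) (.n (.l (-1, 426576)) (.l (2, 426756)))))) (.n (.n (.n (.n (.l (1, 426757)) (.l (3, 426772))) (.n (.l (1, 426773)) (.l (-1, 426817)))) (.n (.n (.l (1, 427026)) (.l (-1, 427056))) (.n (.l (-1, 427283)) (.l (1, 427313))))) (.n (.n (.n (.l (1, 430117)) (.l (2, 430133))) (.n (.l (2, 430146)) (.l (1, 430147)))) (.n (.n (.l (1, 430162)) (.l (1, 430163))) (.n (.l (-1, 430372)) (.l (-2, 430388)))))))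
def W38 : Bt (ℤ × ℕ) :=
  (.n (.n (.n (.n (.n (.l (1, 430402)) (.l (1, 430403))) (.n (.l (-1, 430419)) (.l (-1, 430597)))) (.n (.n (.l (-2, 430613)) (.l (-2, 430656))) (.n (.l (-1, 430657)) (.l (-1, 430672))))) (.n (.n (.n (.l (-1, 430673)) (.l (1, 430852))) (.n (.l (2, 430868)) (.l (-1, 430912)))) (.n (.n (.l (-1, 430913)) (.l (1, 430929))) (.n (.l (-1, 431107)) (.l (1, 431122)))))) (.n (.n (.n (.n (.l (1, 431123)) (.l (1, 431137))) (.n (.l (-1, 431152)) (.l (-1, 431153)))) (.n (.n (.l (-1, 431363)) (.l (1, 431393))) (.n (.l (2, 459352)) (.l (1, 459353))))) (.n (.n (.n (.l (-1, 459396)) (.l (-2, 459397))) (.n (.l (-1, 459413)) (.l (-1, 459593)))) (.n (.n (.l (1, 459652)) (.l (-1, 459669))) (.n (.l (1, 459906)) (.l (-1, 459922)))))))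
def W39 : Bt (ℤ × ℕ) :=
  (.n (.n (.n (.n (.n (.l (1, 459923)) (.l (-1, 460072))) (.n (.l (-1, 460089)) (.l (1, 460163)))) (.n (.n (.l (-1, 460178)) (.l (-1, 460882))) (.n (.l (1, 461108)) (.l (-1, 461109))))) (.n (.n (.n (.l (-1, 461122)) (.l (-1, 461123))) (.n (.l (-1, 463433)) (.l (-1, 463448)))) (.n (.n (.l (-1, 463449)) (.l (-1, 463493))) (.n (.l (-1, 463509)) (.l (-1, 463704)))))) (.n (.n (.n (.n (.l (1, 463748)) (.l (-1, 463912))) (.n (.l (-1, 463913)) (.l (-1, 464003)))) (.n (.n (.l (1, 464184)) (.l (-1, 464258))) (.n (.l (-1, 464259)) (.l (1, 464932))))) (.n (.n (.n (.l (1, 464948)) (.l (1, 464949))) (.n (.l (-1, 465218)) (.l (-2, 467032)))) (.n (.n (.l (-1, 467033)) (.l (1, 467076))) (.n (.l (2, 467077)) (.l (1, 467093)))))))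
def W40 : Bt (ℤ × ℕ) :=
  (.n (.n (.n (.n (.n (.l (1, 467273)) (.l (-1, 467332))) (.n (.l (1, 467349)) (.l (-1, 468096)))) (.n (.n (.l (1, 468112)) (.l (-1, 468113))) (.n (.l (1, 468232)) (.l (1, 468249))))) (.n (.n (.n (.l (-1, 468353)) (.l (1, 468368))) (.n (.l (1, 469072)) (.l (-1, 469268)))) (.n (.n (.l (1, 469269)) (.l (1, 469312))) (.n (.l (1, 469313)) (.l (1, 471113)))))) (.n (.n (.n (.n (.l (1, 471128)) (.l (1, 471129))) (.n (.l (1, 471173)) (.l (1, 471189)))) (.n (.n (.l (1, 471384)) (.l (-1, 471428))) (.n (.l (1, 472072)) (.l (1, 472073))))) (.n (.n (.n (.l (1, 472193)) (.l (-1, 472344))) (.n (.l (1, 472448)) (.l (1, 472449)))) (.n (.n (.l (-1, 473092)) (.l (-1, 473108))) (.n (.l (-1, 473109)) (.l (1, 473408)))))))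
def W41 : Bt (ℤ × ℕ) :=
  (.n (.n (.n (.n (.n (.l (1, 475283)) (.l (1, 475432))) (.n (.l (1, 475433)) (.l (-1, 475793)))) (.n (.n (.l (-1, 475912)) (.l (-1, 475913))) (.n (.l (1, 477186)) (.l (1, 477187))))) (.n (.n (.n (.l (-1, 477216)) (.l (-1, 477217))) (.n (.l (-1, 477458)) (.l (-1, 477459)))) (.n (.n (.l (1, 477488)) (.l (1, 477489))) (.n (.l (-1, 479272)) (.l (-1, 479288)))))) (.n (.n (.n (.n (.l (1, 479289)) (.l (-1, 479363))) (.n (.l (-1, 479528)) (.l (-1, 479619)))) (.n (.n (.l (1, 479752)) (.l (1, 479768))) (.n (.l (-1, 479769)) (.l (1, 479873))))) (.n (.n (.n (.l (1, 480008)) (.l (1, 480129))) (.n (.l (-1, 481282)) (.l (-1, 481298)))) (.n (.n (.l (1, 481312)) (.l (1, 481328))) (.n (.l (-1, 491573)) (.l (-1, 491586)))))))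
def W42 : Bt (ℤ × ℕ) :=
  (.n (.n (.n (.n (.n (.l (-1, 491587)) (.l (-1, 491602))) (.n (.l (-2, 491812)) (.l (-2, 491828)))) (.n (.n (.l (-1, 491829)) (.l (1, 491859))) (.n (.l (1, 492053)) (.l (1, 492096))))) (.n (.n (.n (.l (1, 492097)) (.l (1, 492112))) (.n (.l (2, 492292)) (.l (2, 492308)))) (.n (.n (.l (1, 492309)) (.l (-1, 492369))) (.n (.l (1, 492547)) (.l (-1, 492577)))))) (.n (.n (.n (.n (.l (1, 492802)) (.l (1, 492803))) (.n (.l (1, 492818)) (.l (-1, 492832)))) (.n (.n (.l (-1, 492833)) (.l (-1, 492848))) (.n (.l (1, 495652)) (.l (1, 495682))))) (.n (.n (.n (.l (-1, 495683)) (.l (-1, 495698))) (.n (.l (-1, 495924)) (.l (1, 495938)))) (.n (.n (.l (1, 495939)) (.l (1, 495954))) (.n (.l (-1, 496132)) (.l (-1, 496192)))))))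
def W43 : Bt (ℤ × ℕ) :=
  (.n (.n (.n (.n (.n (.l (1, 496193)) (.l (1, 496208))) (.n (.l (1, 496404)) (.l (-1, 496448)))) (.n (.n (.l (-1, 496449)) (.l (-1, 496464))) (.n (.l (1, 496658)) (.l (1, 496659))))) (.n (.n (.n (.l (-1, 496688)) (.l (-1, 496689))) (.n (.l (2, 496898)) (.l (1, 496899)))) (.n (.n (.l (2, 496914)) (.l (-2, 496928))) (.n (.l (-1, 496929)) (.l (-2, 496944)))))) (.n (.n (.n (.n (.l (1, 524871)) (.l (1, 524886))) (.n (.l (1, 524887)) (.l (-1, 524901)))) (.n (.n (.l (-1, 524916)) (.l (-1, 524917))) (.n (.l (1, 525351)) (.l (-1, 525366))))) (.n (.n (.n (.l (-1, 525367)) (.l (-1, 525426))) (.n (.l (-1, 525427)) (.l (-1, 525606)))) (.n (.n (.l (-1, 525607)) (.l (-1, 525622))) (.n (.l (-1, 525623)) (.l (-1, 525861)))))))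
def W44 : Bt (ℤ × ℕ) :=
  (.n (.n (.n (.n (.n (.l (1, 525876)) (.l (1, 525877))) (.n (.l (1, 525906)) (.l (1, 525907)))) (.n (.n (.l (1, 526116)) (.l (1, 526117))) (.n (.l (1, 526132)) (.l (1, 526133))))) (.n (.n (.n (.l (-1, 528966)) (.l (1, 528996))) (.n (.l (-1, 529462)) (.l (-1, 529463)))) (.n (.n (.l (-1, 529507)) (.l (-1, 529702))) (.n (.l (-1, 529718)) (.l (-1, 529719)))))) (.n (.n (.n (.n (.l (-1, 529762)) (.l (1, 529779))) (.n (.l (1, 529972)) (.l (1, 529973)))) (.n (.n (.l (1, 529987)) (.l (1, 530212))) (.n (.l (1, 530228)) (.l (1, 530229))))) (.n (.n (.n (.l (1, 530242)) (.l (-1, 530259))) (.n (.l (-1, 532551)) (.l (-1, 532566)))) (.n (.n (.l (-1, 532567)) (.l (1, 532581))) (.n (.l (1, 532596)) (.l (1, 532597)))))))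
def W45 : Bt (ℤ × ℕ) :=
  (.n (.n (.n (.n (.n (.l (-1, 533511)) (.l (1, 533526))) (.n (.l (1, 533527)) (.l (1, 533616)))) (.n (.n (.l (1, 533617)) (.l (1, 533766))) (.n (.l (1, 533767)) (.l (1, 533782))))) (.n (.n (.n (.l (1, 533783)) (.l (1, 534021))) (.n (.l (-1, 534036)) (.l (-1, 534037)))) (.n (.n (.l (-1, 534096)) (.l (-1, 534097))) (.n (.l (-1, 534276)) (.l (-1, 534277)))))) (.n (.n (.n (.n (.l (-1, 534292)) (.l (-1, 534293))) (.n (.l (1, 536646)) (.l (-1, 536676)))) (.n (.n (.l (1, 537622)) (.l (1, 537623))) (.n (.l (1, 537697)) (.l (1, 537862))))) (.n (.n (.n (.l (1, 537878)) (.l (1, 537879))) (.n (.l (1, 537952)) (.l (-1, 537969)))) (.n (.n (.l (-1, 538132)) (.l (-1, 538133))) (.n (.l (-1, 538177)) (.l (-1, 538372)))))))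
def W46 : Bt (ℤ × ℕ) :=
  (.n (.n (.n (.n (.n (.l (-1, 538388)) (.l (-1, 538389))) (.n (.l (-1, 538432)) (.l (1, 538449)))) (.n (.n (.l (1, 540726)) (.l (1, 540727))) (.n (.l (-1, 540771)) (.l (-1, 540966))))) (.n (.n (.n (.l (1, 541027)) (.l (-1, 541042))) (.n (.l (-1, 541206)) (.l (-1, 541207)))) (.n (.n (.l (1, 541281)) (.l (1, 541446))) (.n (.l (-1, 541537)) (.l (1, 541552)))))) (.n (.n (.n (.n (.l (-1, 542227)) (.l (1, 542257))) (.n (.l (-1, 542466)) (.l (-1, 542482)))) (.n (.n (.l (-1, 542483)) (.l (1, 542496))) (.n (.l (1, 542512)) (.l (1, 542513))))) (.n (.n (.n (.l (1, 544806)) (.l (1, 544807))) (.n (.l (-1, 544866)) (.l (-1, 544867)))) (.n (.n (.l (-2, 544882)) (.l (2, 544883))) (.n (.l (-1, 545062)) (.l (-1, 545078)))))))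
def W47 : Bt (ℤ × ℕ) :=
  (.n (.n (.n (.n (.n (.l (-1, 545079)) (.l (-1, 545122))) (.n (.l (-1, 545123)) (.l (-1, 545138)))) (.n (.n (.l (1, 545139)) (.l (-1, 545286))) (.n (.l (-1, 545287)) (.l (1, 545376))))) (.n (.n (.n (.l (1, 545377)) (.l (2, 545392))) (.n (.l (-2, 545393)) (.l (1, 545542)))) (.n (.n (.l (1, 545558)) (.l (1, 545559))) (.n (.l (1, 545632)) (.l (1, 545633)))))) (.n (.n (.n (.n (.l (1, 545648)) (.l (-1, 545649))) (.n (.l (-1, 546306)) (.l (1, 546307)))) (.n (.n (.l (1, 546323)) (.l (1, 546336))) (.n (.l (-1, 546337)) (.l (-1, 546353))))) (.n (.n (.n (.l (-1, 546563)) (.l (-1, 546579))) (.n (.l (1, 546593)) (.l (1, 546609)))) (.n (.n (.l (-1, 548916)) (.l (-1, 548917))) (.n (.l (1, 548931)) (.l (1, 549156)))))))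
def W48 : Bt (ℤ × ℕ) :=
  (.n (.n (.n (.n (.n (.l (-1, 549187)) (.l (1, 549202))) (.n (.l (1, 549396)) (.l (1, 549397)))) (.n (.n (.l (-1, 549441)) (.l (-1, 549636))) (.n (.l (1, 549697)) (.l (-1, 549712))))) (.n (.n (.n (.l (1, 549907)) (.l (-1, 549937))) (.n (.l (1, 550146)) (.l (1, 550162)))) (.n (.n (.l (1, 550163)) (.l (-1, 550176))) (.n (.l (-1, 550192)) (.l (-1, 550193)))))) (.n (.n (.n (.n (.l (-1, 552996)) (.l (-1, 552997))) (.n (.l (1, 553026)) (.l (1, 553027)))) (.n (.n (.l (2, 553042)) (.l (-2, 553043))) (.n (.l (1, 553252)) (.l (1, 553268))))) (.n (.n (.n (.l (1, 553269)) (.l (1, 553282))) (.n (.l (1, 553283)) (.l (1, 553298)))) (.n (.n (.l (-1, 553299)) (.l (1, 553476))) (.n (.l (1, 553477)) (.l (-1, 553536)))))))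
def W49 : Bt (ℤ × ℕ) :=
  (.n (.n (.n (.n (.n (.l (-1, 553537)) (.l (-2, 553552))) (.n (.l (2, 553553)) (.l (-1, 553732)))) (.n (.n (.l (-1, 553748)) (.l (-1, 553749))) (.n (.l (-1, 553792)) (.l (-1, 553793))))) (.n (.n (.n (.l (-1, 553808)) (.l (1, 553809))) (.n (.l (1, 553986)) (.l (-1, 553987)))) (.n (.n (.l (-1, 554003)) (.l (-1, 554016))) (.n (.l (1, 554017)) (.l (1, 554033)))))) (.n (.n (.n (.n (.l (1, 554243)) (.l (1, 554259))) (.n (.l (-1, 554273)) (.l (-1, 554289)))) (.n (.n (.l (1, 590406)) (.l (1, 590422))) (.n (.l (1, 590423)) (.l (-1, 590436))))) (.n (.n (.n (.l (-1, 590452)) (.l (-1, 590453))) (.n (.l (-1, 590662)) (.l (1, 590663)))) (.n (.n (.l (-1, 590678)) (.l (1, 590679))) (.n (.l (1, 590692)) (.l (-1, 590693)))))))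
def W50 : Bt (ℤ × ℕ) :=
  (.n (.n (.n (.n (.n (.l (1, 590708)) (.l (-1, 590709))) (.n (.l (-1, 590886)) (.l (-1, 590887)))) (.n (.n (.l (-1, 590903)) (.l (1, 590962))) (.n (.l (-2, 591142)) (.l (-1, 591143))))) (.n (.n (.n (.l (-1, 591159)) (.l (1, 591218))) (.n (.l (1, 591396)) (.l (1, 591397)))) (.n (.n (.l (1, 591413)) (.l (-1, 591442))) (.n (.l (2, 591652)) (.l (1, 591653)))))) (.n (.n (.n (.n (.l (1, 591669)) (.l (-1, 591698))) (.n (.l (-1, 594502)) (.l (-1, 594503)))) (.n (.n (.l (-1, 594518)) (.l (1, 594532))) (.n (.l (1, 594533)) (.l (1, 594548))))) (.n (.n (.n (.l (-2, 594758)) (.l (-2, 594759))) (.n (.l (-1, 594774)) (.l (2, 594788)))) (.n (.n (.l (2, 594789)) (.l (1, 594804))) (.n (.l (1, 594982)) (.l (1, 594983)))))))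
def W51 : Bt (ℤ × ℕ) :=
  (.n (.n (.n (.n (.n (.l (1, 594999)) (.l (1, 595042))) (.n (.l (-1, 595058)) (.l (-1, 595059)))) (.n (.n (.l (1, 595239)) (.l (-1, 595254))) (.n (.l (2, 595298)) (.l (2, 595299))))) (.n (.n (.n (.l (-1, 595492)) (.l (-1, 595493))) (.n (.l (-1, 595509)) (.l (-1, 595522)))) (.n (.n (.l (1, 595538)) (.l (1, 595539))) (.n (.l (-1, 595749)) (.l (1, 595764)))))) (.n (.n (.n (.n (.l (-2, 595778)) (.l (-2, 595779))) (.n (.l (-1, 598086)) (.l (-1, 598102)))) (.n (.n (.l (-1, 598103)) (.l (1, 598116))) (.n (.l (1, 598132)) (.l (1, 598133))))) (.n (.n (.n (.l (1, 598342)) (.l (-1, 598343))) (.n (.l (1, 598358)) (.l (-1, 598359)))) (.n (.n (.l (-1, 598372)) (.l (1, 598373))) (.n (.l (-1, 598388)) (.l (1, 598389)))))))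
def W52 : Bt (ℤ × ℕ) :=
  (.n (.n (.n (.n (.n (.l (1, 599046)) (.l (1, 599047))) (.n (.l (1, 599063)) (.l (-1, 599152)))) (.n (.n (.l (2, 599302)) (.l (1, 599303))) (.n (.l (1, 599319)) (.l (-1, 599408))))) (.n (.n (.n (.l (-1, 599556)) (.l (-1, 599557))) (.n (.l (-1, 599573)) (.l (1, 599632)))) (.n (.n (.l (-2, 599812)) (.l (-1, 599813))) (.n (.l (-1, 599829)) (.l (1, 599888)))))) (.n (.n (.n (.n (.l (1, 602182)) (.l (1, 602183))) (.n (.l (1, 602198)) (.l (-1, 602212)))) (.n (.n (.l (-1, 602213)) (.l (-1, 602228))) (.n (.l (2, 602438)) (.l (2, 602439))))) (.n (.n (.n (.l (1, 602454)) (.l (-2, 602468))) (.n (.l (-2, 602469)) (.l (-1, 602484)))) (.n (.n (.l (-1, 603142)) (.l (-1, 603143))) (.n (.l (-1, 603159)) (.l (-1, 603232)))))))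
def W53 : Bt (ℤ × ℕ) :=
  (.n (.n (.n (.n (.n (.l (1, 603248)) (.l (1, 603249))) (.n (.l (-1, 603399)) (.l (1, 603414)))) (.n (.n (.l (-2, 603488)) (.l (-2, 603489))) (.n (.l (1, 603652)) (.l (1, 603653))))) (.n (.n (.n (.l (1, 603669)) (.l (1, 603712))) (.n (.l (-1, 603728)) (.l (-1, 603729)))) (.n (.n (.l (1, 603909)) (.l (-1, 603924))) (.n (.l (2, 603968)) (.l (2, 603969)))))) (.n (.n (.n (.n (.l (1, 606247)) (.l (1, 606262))) (.n (.l (1, 606263)) (.l (1, 606306)))) (.n (.n (.l (1, 606307)) (.l (1, 606322))) (.n (.l (1, 606323)) (.l (1, 606563))))) (.n (.n (.n (.l (1, 606578)) (.l (1, 606579))) (.n (.l (-1, 606727)) (.l (-1, 606742)))) (.n (.n (.l (-1, 606743)) (.l (-1, 606816))) (.n (.l (-1, 606817)) (.l (-1, 606832)))))))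
def W54 : Bt (ℤ × ℕ) :=
  (.n (.n (.n (.n (.n (.l (-1, 606833)) (.l (-1, 607073))) (.n (.l (-1, 607088)) (.l (-1, 607089)))) (.n (.n (.l (1, 607746)) (.l (-1, 607763))) (.n (.l (-1, 607776)) (.l (1, 607793))))) (.n (.n (.n (.l (-1, 608018)) (.l (-1, 608019))) (.n (.l (1, 608048)) (.l (1, 608049)))) (.n (.n (.l (2, 610342)) (.l (1, 610343))) (.n (.l (1, 610358)) (.l (1, 610359)))))) (.n (.n (.n (.n (.l (-1, 610403)) (.l (-1, 610418))) (.n (.l (-1, 610614)) (.l (-2, 610822)))) (.n (.n (.l (-1, 610823)) (.l (-1, 610838))) (.n (.l (-1, 610839)) (.l (1, 610913))))) (.n (.n (.n (.l (1, 610928)) (.l (1, 611094))) (.n (.l (1, 611843)) (.l (-1, 611873)))) (.n (.n (.l (1, 612099)) (.l (-1, 612129))) (.n (.l (-1, 614437)) (.l (-1, 614452)))))))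
def W55 : Bt (ℤ × ℕ) :=
  (.n (.n (.n (.n (.n (.l (-1, 614453)) (.l (-1, 614466))) (.n (.l (-1, 614467)) (.l (-1, 614482)))) (.n (.n (.l (-1, 614483)) (.l (-1, 614723))) (.n (.l (-1, 614738)) (.l (-1, 614739))))) (.n (.n (.n (.l (1, 614917)) (.l (1, 614932))) (.n (.l (1, 614933)) (.l (1, 614976)))) (.n (.n (.l (1, 614977)) (.l (1, 614992))) (.n (.l (1, 614993)) (.l (1, 615233)))))) (.n (.n (.n (.n (.l (1, 615248)) (.l (1, 615249))) (.n (.l (-1, 615426)) (.l (1, 615443)))) (.n (.n (.l (1, 615456)) (.l (-1, 615473))) (.n (.l (1, 615698)) (.l (1, 615699))))) (.n (.n (.n (.l (-1, 615728)) (.l (-1, 615729))) (.n (.l (-2, 618532)) (.l (-1, 618533)))) (.n (.n (.l (-1, 618548)) (.l (-1, 618549))) (.n (.l (1, 618563)) (.l (1, 618578)))))))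
def W56 : Bt (ℤ × ℕ) :=
  (.n (.n (.n (.l (1, 618804)) (.n (.l (2, 619012)) (.l (1, 619013)))) (.n (.l (1, 619028)) (.n (.l (1, 619029)) (.l (-1, 619073))))) (.n (.n (.l (-1, 619088)) (.n (.l (-1, 619284)) (.l (-1, 619523)))) (.n (.l (1, 619553)) (.n (.l (-1, 619779)) (.l (1, 619809))))))
/-- all -/
def Ws : Bt (ℤ × ℕ) :=
  (.n (.n (.n (.n (.n W0 (.n W1 W2)) (.n (.n W3 W4) (.n W5 W6))) (.n (.n W7 (.n W8 W9)) (.n (.n W10 W11) (.n W12 W13)))) (.n (.n (.n W14 (.n W15 W16)) (.n (.n W17 W18) (.n W19 W20))) (.n (.n W21 (.n W22 W23)) (.n (.n W24 W25) (.n W26 W27))))) (.n (.n (.n (.n W28 (.n W29 W30)) (.n (.n W31 W32) (.n W33 W34))) (.n (.n W35 (.n W36 W37)) (.n (.n W38 W39) (.n W40 W41)))) (.n (.n (.n W42 (.n W43 W44)) (.n (.n W45 W46) (.n W47 W48)))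 (.n (.n (.n W49 W50) (.n W51 W52)) (.n (.n W53 W54) (.n W55 W56))))))
end Pool.Agent.H61R2.Tor
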