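import Pool.Agent.H61R2.Tor.Model
set_option autoImplicit false

/-! Evaluation of operator words in the model. -/

namespace Pool.Agent.H61R2.Tor
open Pool.Agent.Helper928.Nuc.Tens Pool.Agent.Helper928.Nuc.Alt

/-- the coefficient of `e 63` in the value of a word at `k • e S` (modulo `3`) -/
def mco (n : ℕ) : ℕ → ℕ → ℕ → ℕ :=
  Nat.rec (motive := fun _ => ℕ → ℕ → ℕ → ℕ) (fun _ k S => cond (Nat.beq S 63) k 0)
    (fun _ ih c k S => cond (Nat.ble 10 (Nat.mod c 16)) 0
      (cond (Nat.beq (Nat.mod (Nat.mod c 16) 2) 0)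
        (ih (Nat.div c 16) (Nat.mod (Nat.mul k (cT S (Nat.pow 2 (Nat.div (Nat.mod c 16) 2)))) 3)
          (Nat.lor S (Nat.pow 2 (Nat.div (Nat.mod c 16) 2))))
        (ih (Nat.div c 16) (Nat.mod (Nat.mul k (cT (Nat.pow 2 (Nat.div (Nat.mod c 16) 2)) S)) 3)
          (Nat.lor (Nat.pow 2 (Nat.div (Nat.mod c 16) 2)) S)))) n

/-- sums of words -/
noncomputable def mL (l : Bt (ℤ × ℕ)) : ℤ :=
  Bt.rec (motive := fun _ => ℤ) (fun i => Int.mul i.1 (Int.ofNat (mco 5 i.2 1 32))) (fun _ _ a b => Int.add a b) l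

theorem opw_zero {R : Type} [NonUnitalNonAssocRing R] (x : ℕ → R) (n : ℕ) : ∀ c, opw x n c 0 = 0 := by
  induction n with
  | zero => intro c; rfl
  | succ n ih =>
    intro c
    show opw x n (c / 16) (op x (c % 16) 0) = 0
    have : op x (c % 16) (0 : R) = 0 := by
      unfold op
      split_ifs
      · rw [zero_mul]
      · rw [mul_zero]
      · rfl
    rw [this, ih]

variable {K : Type} [CommRing K]

/-- the generators `e 1, e 2, e 4, e 8, e 16` -/
def gx (i : ℕ) : BK K := e (2 ^ i)

theorem mco_spec (h3 : (3 : K) = 0) (n : ℕ) : ∀ c k S : ℕ, S < 64 →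
    (opw (gx : ℕ → BK K) n c ((k : K) • e S)) (⟨63, by norm_num⟩ : Fin 64) = ((mco n c k S : ℕ) : K) := by
  induction n with
  | zero =>
    intro c k S hS
    show (k : K) * (if 63 = S then 1 else 0) = ((cond (Nat.beq S 63) k 0 : ℕ) : K)
    by_cases h : S = 63
    · subst h
      rw [if_pos rfl, mul_one]; rfl
    · have hb : Nat.beq S 63 = false := by
        cases hb : Nat.beq S 63 with
        | false => rfl
        | true => exact absurd (Nat.eq_of_beq_eq_true hb) h
      rw [if_neg (fun h' => h h'.symm), hb, mul_zero, cond_false, Nat.cast_zero]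
  | succ n ih =>
    intro c k S hS
    show (opw gx n (c / 16) (op gx (c % 16) ((k : K) • e S))) _ = _
    by_cases hi : c % 16 < 10
    · have hb : Nat.ble 10 (Nat.mod c 16) = false := by
        cases hb : Nat.ble 10 (Nat.mod c 16) with
        | false => rfl
        | true =>
          rw [Nat.ble_eq] at hb
          exact absurd hb (by show ¬ 10 ≤ c % 16; omega)
      have hj : 2 ^ (c % 16 / 2) < 64 := by
        calc 2 ^ (c % 16 / 2) ≤ 2 ^ 4 := Nat.pow_le_pow_right (by norm_num) (by omega)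
          _ < 64 := by norm_num
      by_cases hp : c % 16 % 2 = 0
      · have e1 : mco (n + 1) c k S = mco n (c / 16) (k * cT S (2 ^ (c % 16 / 2)) % 3) (S ||| 2 ^ (c % 16 / 2)) := by
          show cond (Nat.ble 10 (Nat.mod c 16)) 0 (cond (Nat.beq (c % 16 % 2) 0) _ _) = _
          rw [hb, hp]; rfl
        have e2 : op gx (c % 16) ((k : K) • (e S : BK K)) =
            ((k * cT S (2 ^ (c % 16 / 2)) % 3 : ℕ) : K) • (e (S ||| 2 ^ (c % 16 / 2)) : BK K) := by
          unfold op
          rw [if_pos hi, if_pos hp, smul_mulB]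
          show (k : K) • (e S * e (2 ^ (c % 16 / 2)) : BK K) = _
          rw [e_mul_e hS hj, smul_smul, ← cast_mod h3, Nat.cast_mul]
        rw [e1, ← ih _ _ _ (Nat.or_lt_two_pow (n := 6) hS hj), e2]
      · have e1 : mco (n + 1) c k S = mco n (c / 16) (k * cT (2 ^ (c % 16 / 2)) S % 3) (2 ^ (c % 16 / 2) ||| S) := by
          show cond (Nat.ble 10 (Nat.mod c 16)) 0 (cond (Nat.beq (c % 16 % 2) 0) _ _) = _
          have hp' : c % 16 % 2 = 1 := by omega
          rw [hb, hp']; rfl
        have e2 : op gx (c % 16) ((k : K) • (e S : BK K)) =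
            ((k * cT (2 ^ (c % 16 / 2)) S % 3 : ℕ) : K) • (e (2 ^ (c % 16 / 2) ||| S) : BK K) := by
          unfold op
          rw [if_pos hi, if_neg hp, mulB_smul]
          show (k : K) • (e (2 ^ (c % 16 / 2)) * e S : BK K) = _
          rw [e_mul_e hj hS, smul_smul, ← cast_mod h3, Nat.cast_mul]
        rw [e1, ← ih _ _ _ (Nat.or_lt_two_pow (n := 6) hj hS), e2]
    · have hb : Nat.ble 10 (Nat.mod c 16) = true := by
        rw [Nat.ble_eq]; show 10 ≤ c % 16; omega
      have e1 : mco (n + 1) c k S = 0 := by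
        show cond (Nat.ble 10 (Nat.mod c 16)) 0 _ = _
        rw [hb]; rfl
      rw [e1]
      unfold op
      rw [if_neg hi, opw_zero, Nat.cast_zero]
      rfl

theorem mL_spec (h3 : (3 : K) = 0) (l : Bt (ℤ × ℕ)) :
    (opL (gx : ℕ → BK K) l (e 32)) (⟨63, by norm_num⟩ : Fin 64) = ((mL l : ℤ) : K) := by
  induction l with
  | l i =>
    show (i.1 • opw gx 5 i.2 (e 32)) _ = ((i.1 * (mco 5 i.2 1 32 : ℤ) : ℤ) : K)
    have h := mco_spec h3 5 i.2 1 32 (by norm_num)
    rw [Nat.cast_one, one_smul] at h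
    rw [Int.cast_mul, Int.cast_natCast, ← h]
    have h2 : ∀ (z : ℤ) (v : BK K) (U : Fin 64), (z • v) U = (z : K) * v U := by
      intro z v U
      have : (z • v) U = z • v U := rfl
      rw [this, zsmul_eq_mul]
    exact h2 _ _ _
  | n a b iha ihb =>
    show (opL gx a (e 32) + opL gx b (e 32) : BK K) (⟨63, by norm_num⟩ : Fin 64) = ((mL a + mL b : ℤ) : K)
    rw [add_ap, iha, ihb, Int.cast_add]

/-- homomorphisms commute with words -/
theorem map_opw {R S : Type} [NonUnitalNonAssocRing R] [NonUnitalNonAssocRing S] (g : R →ₙ+* S) (x : ℕ → R) (n : ℕ) :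
    ∀ (c : ℕ) (m : R), g (opw x n c m) = opw (fun i => g (x i)) n c (g m) := by
  induction n with
  | zero => intro c m; rfl
  | succ n ih =>
    intro c m
    show g (opw x n (c / 16) (op x (c % 16) m)) = opw (fun i => g (x i)) n (c / 16) (op (fun i => g (x i)) (c % 16) (g m))
    rw [ih]
    congr 1
    unfold op
    split_ifs
    · rw [map_mul]
    · rw [map_mul]
    · rw [map_zero]

theorem map_opL {R S : Type} [NonUnitalNonAssocRing R] [NonUnitalNonAssocRing S] (g : R →ₙ+* S) (x : ℕ → R)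
    (l : Bt (ℤ × ℕ)) (m : R) : g (opL x l m) = opL (fun i => g (x i)) l (g m) := by
  induction l with
  | l i =>
    show g (i.1 • opw x 5 i.2 m) = i.1 • opw (fun i => g (x i)) 5 i.2 (g m)
    rw [map_zsmul, map_opw]
  | n a b iha ihb =>
    show g (opL x a m + opL x b m) = _
    rw [map_add, iha, ihb]; rfl

/-- `opL` depends only on `x 0, ..., x 4` -/
theorem opw_congr {R : Type} [NonUnitalNonAssocRing R] (x y : ℕ → R) (h : ∀ i < 5, x i = y i) (n : ℕ) :
    ∀ (c : ℕ) (m : R), opw x n c m = opw y n c m := by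
  induction n with
  | zero => intro c m; rfl
  | succ n ih =>
    intro c m
    show opw x n (c / 16) (op x (c % 16) m) = opw y n (c / 16) (op y (c % 16) m)
    rw [ih]
    congr 1
    unfold op
    split_ifs with h1 h2
    · rw [h _ (by omega)]
    · rw [h _ (by omega)]
    · rfl

theorem opL_congr {R : Type} [NonUnitalNonAssocRing R] (x y : ℕ → R) (h : ∀ i < 5, x i = y i) (l : Bt (ℤ × ℕ))
    (m : R) : opL x l m = opL y l m := by
  induction l with
  | l i =>
    show i.1 • opw x 5 i.2 m = i.1 • opw y 5 i.2 m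
    rw [opw_congr x y h]
  | n a b iha ihb =>
    show opL x a m + opL x b m = opL y a m + opL y b m
    rw [iha, ihb]

end Pool.Agent.H61R2.Tor
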