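import Pool.Agent.H61R2.Tor.Check
import Pool.Agent.H61R2.Tor.Eval
set_option autoImplicit false

/-! Three-torsion in free alternative algebras. -/

namespace Pool.Agent.H61R2.Tor
open Pool.Agent.Helper928.Nuc.Tens Pool.Agent.Helper928.Nuc.Alt Pool.Agent.Helper928.Nuc.Free

/-- the value of the polynomial in the model -/
theorem mL_val : mL Ws % 3 = 1 := by decide +kernel

/-- the multilinear polynomial of degree six, with the letters `x 0, ..., x 4, m` -/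
noncomputable def F {R : Type} [NonUnitalNonAssocRing R] (x : ℕ → R) (m : R) : R := opL x Ws m

/-- `3 F = 0` in every alternative ring -/
theorem three_F {R : Type} [NonUnitalNonAssocRing R] (hR : IsAlt R) (x : ℕ → R) (m : R) : (3 : ℤ) • F x m = 0 := by
  have h := cert_sound (x := x) hR Is Ws (Int.negSucc 2) check m
  have h2 : (Int.negSucc 2 : ℤ) = -3 := rfl
  rw [h2, neg_smul, neg_eq_zero] at h
  exact h

/-- `F ≠ 0` in the model -/
theorem F_ne {K : Type} [CommRing K] [Nontrivial K] (h3 : (3 : K) = 0) : F (gx : ℕ → BK K) (e 32) ≠ 0 := by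
  intro h
  have h1 := mL_spec h3 Ws
  have h2 : (opL (gx : ℕ → BK K) Ws (e 32)) = 0 := h
  rw [h2] at h1
  have h4 : ((mL Ws : ℤ) : K) = 1 := by
    have h5 := Int.emod_add_mul_ediv (mL Ws) 3
    rw [mL_val] at h5
    rw [← h5]
    push_cast
    rw [h3, zero_mul, add_zero]
  rw [h4] at h1
  exact zero_ne_one h1

/-- six generators (and `0`) -/
noncomputable def gn (Φ : Type) [CommRing Φ] (X : Type) (ι : Fin 6 ↪ X) : ℕ → FreeAlt Φ X :=
  fun i => if h : i < 6 then FreeAlt.gen (ι ⟨i, h⟩) else 0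

/-- the element `F` of the free alternative algebra is killed by `3` -/
theorem three_smul_F (Φ : Type) [CommRing Φ] (X : Type) (ι : Fin 6 ↪ X) :
    (3 : Φ) • F (gn Φ X ι) (gn Φ X ι 5) = 0 := by
  have h := three_F (freeAlt_isAlt (Φ := Φ) (X := X)) (gn Φ X ι) (gn Φ X ι 5)
  have h2 : (3 : Φ) • F (gn Φ X ι) (gn Φ X ι 5) = (3 : ℤ) • F (gn Φ X ι) (gn Φ X ι 5) := by
    rw [← Int.cast_smul_eq_zsmul Φ]
    norm_num
  rw [h2, h]

/-- a homomorphism detecting `F` modulo a proper ideal containing `3` -/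
theorem exists_hom (Φ : Type) [CommRing Φ] (J : Ideal Φ) (hJ : J ≠ ⊤) (h3 : (3 : Φ) ∈ J) (X : Type) (ι : Fin 6 ↪ X) :
    ∃ g : FreeAlt Φ X →+ BK (Φ ⧸ J), (∀ c ∈ J, ∀ y, g (c • y) = 0) ∧ g (F (gn Φ X ι) (gn Φ X ι 5)) ≠ 0 := by
  classical
  let q : Φ →+* Φ ⧸ J := Ideal.Quotient.mk J
  have hK3 : (3 : Φ ⧸ J) = 0 := by
    have : q 3 = 0 := Ideal.Quotient.eq_zero_iff_mem.mpr h3
    rw [map_ofNat] at this
    exact this
  haveI : Nontrivial (Φ ⧸ J) := Ideal.Quotient.nontrivial_iff.mpr hJ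
  have hB : IsAlt (BK (Φ ⧸ J)) := isAlt_B hK3
  letI : Module Φ (BK (Φ ⧸ J)) := Module.compHom (BK (Φ ⧸ J)) q
  haveI : IsScalarTower Φ (BK (Φ ⧸ J)) (BK (Φ ⧸ J)) := ⟨fun r a b => smul_mulB (q r) a b⟩
  haveI : SMulCommClass Φ (BK (Φ ⧸ J)) (BK (Φ ⧸ J)) := ⟨fun r a b => (mulB_smul (q r) a b).symm⟩
  let v : Fin 6 → BK (Φ ⧸ J) := fun i => e (2 ^ i.val)
  let f : X → BK (Φ ⧸ J) := fun x => if h : ∃ i, ι i = x then v h.choose else (0 : BK (Φ ⧸ J))
  have hf : ∀ i, f (ι i) = v i := by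
    intro i
    have h : ∃ j, ι j = ι i := ⟨i, rfl⟩
    show (if h : ∃ j, ι j = ι i then v h.choose else 0) = v i
    rw [dif_pos h]
    exact congrArg v (ι.injective h.choose_spec)
  let g : FreeAlt Φ X →ₙₐ[Φ] BK (Φ ⧸ J) := FreeAlt.lift (fun a b => ⟨hB.left a b, hB.right a b⟩) f
  let g' : FreeAlt Φ X →ₙ+* BK (Φ ⧸ J) :=
    { toFun := g, map_mul' := map_mul g, map_zero' := map_zero g, map_add' := map_add g }
  have hg : ∀ i : Fin 6, g' (FreeAlt.gen (ι i)) = v i := fun i =>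
    (FreeAlt.lift_gen (fun a b => ⟨hB.left a b, hB.right a b⟩) f (ι i)).trans (hf i)
  have hw : ∀ i < 6, g' (gn Φ X ι i) = e (2 ^ i) := by
    intro i hi
    have : gn Φ X ι i = FreeAlt.gen (ι ⟨i, hi⟩) := dif_pos hi
    rw [this, hg]
  refine ⟨g'.toAddMonoidHom, ?_, ?_⟩
  · intro c hc y
    have h1 : g (c • y) = q c • g y := map_smul g c y
    have h2 : q c = 0 := Ideal.Quotient.eq_zero_iff_mem.mpr hc
    rw [h2, zero_smul] at h1
    exact h1
  · intro h1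
    have h2 : g' (F (gn Φ X ι) (gn Φ X ι 5)) = 0 := h1
    unfold F at h2
    rw [map_opL, hw 5 (by norm_num)] at h2
    apply F_ne (K := Φ ⧸ J) hK3
    unfold F
    rw [← h2]
    apply opL_congr
    intro i hi
    exact (hw i (by omega)).symm

theorem exists_torsion (Φ : Type) [CommRing Φ] (h3 : ¬ IsUnit (3 : Φ)) (X : Type) (ι : Fin 6 ↪ X) :
    ∃ f : FreeAlt Φ X, f ≠ 0 ∧ (3 : Φ) • f = 0 := by
  refine ⟨_, ?_, three_smul_F Φ X ι⟩
  intro hF
  have hJ : Ideal.span {(3 : Φ)} ≠ ⊤ := by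
    rw [Ne, Ideal.span_singleton_eq_top]
    exact h3
  obtain ⟨g, _, h⟩ := exists_hom Φ (Ideal.span {(3 : Φ)}) hJ (Ideal.subset_span rfl) X ι
  rw [hF, map_zero] at h
  exact h rfl

theorem not_flat (Φ : Type) [CommRing Φ] (h9 : ∀ a : Φ, (3 : Φ) ≠ 9 * a) (X : Type) (ι : Fin 6 ↪ X) :
    ¬ Module.Flat Φ (FreeAlt Φ X) := by
  intro hfl
  have h0 := three_smul_F Φ X ι
  set f : FreeAlt Φ X := F (gn Φ X ι) (gn Φ X ι 5) with hf
  have h1 : ∑ i : Fin 1, (fun _ => (3 : Φ)) i • (fun _ : Fin 1 => f) i = 0 := by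
    rw [Fin.sum_univ_one]
    exact h0
  obtain ⟨k, a, y, hx, ha⟩ := Module.Flat.isTrivialRelation_of_sum_smul_eq_zero h1
  have hx0 : f = ∑ j, a 0 j • y j := hx 0
  have ha0 : ∀ j, (3 : Φ) * a 0 j = 0 := by
    intro j
    have := ha j
    rwa [Fin.sum_univ_one] at this
  let A : Ideal Φ :=
    { carrier := {c | (3 : Φ) * c = 0}
      add_mem' := by intro c d hc hd; show (3 : Φ) * (c + d) = 0; rw [mul_add, hc, hd, add_zero]
      zero_mem' := by show (3 : Φ) * 0 = 0; rw [mul_zero]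
      smul_mem' := by
        intro r c hc
        show (3 : Φ) * (r * c) = 0
        rw [mul_left_comm, hc, mul_zero] }
  have hJ : A ⊔ Ideal.span {(3 : Φ)} ≠ ⊤ := by
    intro htop
    have h1 : (1 : Φ) ∈ A ⊔ Ideal.span {(3 : Φ)} := htop ▸ Submodule.mem_top
    obtain ⟨c, hc, d, hd, hcd⟩ := Submodule.mem_sup.mp h1
    obtain ⟨u, hu⟩ := Ideal.mem_span_singleton'.mp hd
    have hc' : (3 : Φ) * c = 0 := hc
    apply h9 u
    calc (3 : Φ) = 3 * (c + d) := by rw [hcd, mul_one]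
      _ = 3 * c + 9 * u := by rw [← hu]; ring
      _ = 9 * u := by rw [hc', zero_add]
  obtain ⟨g, hg, hne⟩ := exists_hom Φ _ hJ (Submodule.mem_sup_right (Ideal.subset_span rfl)) X ι
  apply hne
  show g f = 0
  rw [hx0, map_sum]
  refine Finset.sum_eq_zero fun j _ => hg _ (Submodule.mem_sup_left ?_) _
  exact ha0 j

end Pool.Agent.H61R2.Tor
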