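import Pool.Agent.H61R2.Tor.Tree
set_option autoImplicit false

/-!
A commutative alternative algebra over a commutative ring `K` with `3 = 0`: it has a basis `e S` indexed by
`S < 64` (subsets of a six element set, as binary numbers), with `e S * e T = c(S,T) e (S ∪ T)` for a table `c`
(53 of the basis elements occur in nonzero products; the others annihilate everything).
-/

namespace Pool.Agent.H61R2.Tor
open Pool.Agent.Helper928.Nuc.Tens Pool.Agent.Helper928.Nuc.Alt

/-- the table of structure constants, two bits each -/
def TB : ℕ := 37679539001457162386215040100200408436462728708447978892394448119828082764430803723115305568750178742623224231086745755492728202983615346036228121828968897441373245095302238499611732630929588166937750285162211702816677007753370412373236363196230539656292492721024146845539573221520677422186393157262286828656099064457452765055659212936568094616293276459939483519285426914635504894409112339797506333862560080545089170187266027124295081163198817449805140804079169381911692141787390310564481031575688751667378984743382936692075831784718741401916719008801371103785466943158402922259215346795357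0925185228296703689791453280723800457875261302311642797128360845469089159676738003858284957851106499778581250828957351131461074919300005404607714906073953614506417496592076964655213786330050406944293593328026369617418294654006023264864509896396493243057630382907382425413752628168953070503720821504286706920448314688348841589640371903818995310343441805711825195044781182518412684508590803992628217980988798696848593827874779421349545330871730629416856111858032883485946029069396987442554326435524463536975202940540153382070250494761575671154442685434614823049767398635090517143629599954830061537887108969644105251795481620678708328004824356609820505889538655577282275972716825207359844813656542062249211025468920219697174412864435369288867273260845163982393803412972342137216439365075219457839181965447872508693962859959790279919265711295537769901546132763720514241518631796283637844933835357244611973610289624061394302802614580331414082568591118122858469942046429142081554264783880414684129004260315825569535932255818081800928336713560077441774423219141354386289026422376419525096849480874409412702192409859800874698536376422257621635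25330630851831310956710367455600894201341324238186033772669978661016290730333616454709955319457483015665970538910310303066026703050470650625712723029657288957204879285227464656595416537228023794199827647302802750594509888594106415796178487637263794987150744739256492680092242716082484686097746889723840668466630292269737458628985056044630277527890956646338538595403268161581350440927406046235188506440953868905347921679409497654435838124943077864996147680989247027246344158070158524330906394156147329786275093237025033461891639413677510353138750815964341752296574535914297925544974111634921727019577635557429485489254981732568744900962655420399146314205815740825600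

/-- structure constants -/
def cT (S T : ℕ) : ℕ := Nat.mod (Nat.shiftRight TB (Nat.mul 2 (Nat.add (Nat.mul 64 S) T))) 4

/-- `p` holds below `n` -/
def allB (n : ℕ) (p : ℕ → Bool) : Bool := Nat.rec (motive := fun _ => Bool) true (fun S ih => ih && p S) n

theorem allB_spec {n : ℕ} {p : ℕ → Bool} (h : allB n p = true) : ∀ S < n, p S = true := by
  induction n with
  | zero => intro S hS; omega
  | succ n ih =>
    have h' : (allB n p && p n) = true := h
    rw [Bool.and_eq_true] at h'
    intro S hS
    rcases Nat.lt_succ_iff_lt_or_eq.mp hS with h1 | h1
    · exact ih h'.1 S h1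
    · rw [h1]; exact h'.2

/-- the table is symmetric modulo `3` -/
def chkComm : Bool := allB 64 fun S => allB 64 fun T => Nat.beq (Nat.mod (cT S T) 3) (Nat.mod (cT T S) 3)

/-- Jacobi sum -/
def jac (S T R : ℕ) : ℕ := Nat.add (Nat.mul (cT T R) (cT S (Nat.lor T R)))
  (Nat.add (Nat.mul (cT R S) (cT T (Nat.lor R S))) (Nat.mul (cT S T) (cT R (Nat.lor S T))))

/-- the Jacobi sum vanishes modulo `3` if the first structure constant is not zero -/
def chkJac : Bool := allB 64 fun T => allB 64 fun R => cond (Nat.beq (cT T R) 0) true
  (allB 64 fun S => Nat.beq (Nat.mod (jac S T R) 3) 0)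

theorem comm_ok : chkComm = true := by decide +kernel
theorem jac_ok : chkJac = true := by decide +kernel

theorem cT_comm {S T : ℕ} (hS : S < 64) (hT : T < 64) : cT S T % 3 = cT T S % 3 :=
  Nat.eq_of_beq_eq_true (allB_spec (allB_spec comm_ok S hS) T hT)

theorem jac_first {S T R : ℕ} (hS : S < 64) (hT : T < 64) (hR : R < 64) (h0 : cT T R ≠ 0) : jac S T R % 3 = 0 := by
  have h := allB_spec (allB_spec jac_ok T hT) R hR
  have e : Nat.beq (cT T R) 0 = false := by
    cases hb : Nat.beq (cT T R) 0 with
    | false => rfl
    | true => exact absurd (Nat.eq_of_beq_eq_true hb) h0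
  rw [e, cond_false] at h
  exact Nat.eq_of_beq_eq_true (allB_spec h S hS)

theorem jac_rot (S T R : ℕ) : jac S T R = jac T R S := by
  show cT T R * cT S (T ||| R) + (cT R S * cT T (R ||| S) + cT S T * cT R (S ||| T)) =
    cT R S * cT T (R ||| S) + (cT S T * cT R (S ||| T) + cT T R * cT S (T ||| R))
  ring

theorem jac_all {S T R : ℕ} (hS : S < 64) (hT : T < 64) (hR : R < 64) : jac S T R % 3 = 0 := by
  by_cases h1 : cT T R = 0
  · by_cases h2 : cT R S = 0
    · by_cases h3 : cT S T = 0
      · have : jac S T R = 0 := by
          show cT T R * _ + (cT R S * _ + cT S T * _) = 0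
          rw [h1, h2, h3]; ring
        rw [this]
      · rw [jac_rot, jac_rot]; exact jac_first hR hS hT h3
    · rw [jac_rot]; exact jac_first hT hR hS h2
  · exact jac_first hS hT hR h1

/-- the algebra -/
def BK (K : Type) : Type := Fin 64 → K

section
variable {K : Type} [CommRing K]

instance : AddCommGroup (BK K) := inferInstanceAs (AddCommGroup (Fin 64 → K))
instance : Module K (BK K) := inferInstanceAs (Module K (Fin 64 → K))

/-- basis -/
def e (S : ℕ) : BK K := fun U => if U.val = S then 1 else 0

/-- product -/
def mulB (v w : BK K) : BK K := ∑ S : Fin 64, ∑ T : Fin 64, (v S * w T * (cT S T : K)) • e (S.val ||| T.val)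

instance : Mul (BK K) := ⟨mulB⟩

theorem mul_def (v w : BK K) :
    v * w = ∑ S : Fin 64, ∑ T : Fin 64, (v S * w T * (cT S T : K)) • (e (S.val ||| T.val) : BK K) := rfl

theorem add_ap (v w : BK K) (S : Fin 64) : (v + w) S = v S + w S := rfl
theorem smul_ap (c : K) (v : BK K) (S : Fin 64) : (c • v) S = c * v S := rfl
theorem zero_ap (S : Fin 64) : (0 : BK K) S = 0 := rfl

instance : NonUnitalNonAssocRing (BK K) where
  left_distrib := by
    intro a b c
    simp only [mul_def, add_ap, mul_add, add_mul, add_smul, Finset.sum_add_distrib]
  right_distrib := by
    intro a b c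
    simp only [mul_def, add_ap, add_mul, add_smul, Finset.sum_add_distrib]
  zero_mul := by
    intro a
    simp only [mul_def, zero_ap, zero_mul, zero_smul, Finset.sum_const_zero]
  mul_zero := by
    intro a
    simp only [mul_def, zero_ap, mul_zero, zero_mul, zero_smul, Finset.sum_const_zero]

theorem smul_mulB (c : K) (v w : BK K) : (c • v) * w = c • (v * w) := by
  simp only [mul_def, smul_ap, Finset.smul_sum, smul_smul, mul_assoc]

theorem mulB_smul (c : K) (v w : BK K) : v * (c • w) = c • (v * w) := by
  simp only [mul_def, smul_ap, Finset.smul_sum, smul_smul]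
  refine Finset.sum_congr rfl fun S _ => Finset.sum_congr rfl fun T _ => ?_
  congr 1
  ring

theorem e_mul_e {S T : ℕ} (hS : S < 64) (hT : T < 64) : (e S * e T : BK K) = (cT S T : K) • e (S ||| T) := by
  rw [mul_def, Finset.sum_eq_single (⟨S, hS⟩ : Fin 64), Finset.sum_eq_single (⟨T, hT⟩ : Fin 64)]
  · simp [e]
  · intro b _ hb
    have : (e T : BK K) b = 0 := if_neg (fun h => hb (Fin.ext h))
    rw [this]; simp
  · intro h; exact absurd (Finset.mem_univ _) h
  · intro b _ hb
    have : (e S : BK K) b = 0 := if_neg (fun h => hb (Fin.ext h))
    simp only [this, zero_mul, zero_smul, Finset.sum_const_zero]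
  · intro h; exact absurd (Finset.mem_univ _) h

theorem ind {P : BK K → Prop} (h0 : P 0) (ha : ∀ a b, P a → P b → P (a + b))
    (hs : ∀ (c : K) (S : ℕ), S < 64 → P (c • e S)) (v : BK K) : P v := by
  have hv : v = ∑ S : Fin 64, v S • (e S.val : BK K) := by
    funext U
    have h1 : (∑ S : Fin 64, v S • (e S.val : BK K)) U = ∑ S : Fin 64, (v S • (e S.val : BK K)) U :=
      Finset.sum_apply U Finset.univ fun S : Fin 64 => (v S • (e S.val : BK K) : Fin 64 → K)
    rw [h1, Finset.sum_eq_single U]
    · show v U = v U * (if U.val = U.val then 1 else 0)
      rw [if_pos rfl, mul_one]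
    · intro b _ hb
      show v b * (if U.val = b.val then 1 else 0) = 0
      rw [if_neg (fun h => hb (Fin.ext h.symm)), mul_zero]
    · intro h; exact absurd (Finset.mem_univ _) h
  rw [hv]
  exact Finset.sum_induction _ P ha h0 (fun S _ => hs _ _ S.isLt)

/-- the Jacobi sum -/
def J (u v w : BK K) : BK K := u * (v * w) + v * (w * u) + w * (u * v)

variable (h3 : (3 : K) = 0)
include h3

theorem cast_mod (n : ℕ) : ((n : ℕ) : K) = ((n % 3 : ℕ) : K) := by
  conv_lhs => rw [← Nat.div_add_mod n 3]
  push_cast
  rw [h3, zero_mul, zero_add]

theorem comm_B (v w : BK K) : v * w = w * v := by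
  refine ind (P := fun v => v * w = w * v) ?_ ?_ ?_ v
  · rw [zero_mul, mul_zero]
  · intro a b ha hb; rw [add_mul, mul_add, ha, hb]
  · intro c S hS
    refine ind (P := fun w => c • e S * w = w * c • e S) ?_ ?_ ?_ w
    · rw [zero_mul, mul_zero]
    · intro a b ha hb; rw [add_mul, mul_add, ha, hb]
    · intro d T hT
      rw [smul_mulB, mulB_smul, smul_mulB, mulB_smul, e_mul_e hS hT, e_mul_e hT hS, Nat.lor_comm T S,
        cast_mod h3 (cT S T), cast_mod h3 (cT T S), cT_comm hS hT, smul_comm]

omit h3 in
theorem J_rot (u v w : BK K) : J u v w = J v w u := by
  unfold J; abel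

omit h3 in
theorem J_step (v w : BK K) (h : ∀ S < 64, J (e S) v w = 0) (u : BK K) : J u v w = 0 := by
  refine ind (P := fun u => J u v w = 0) ?_ ?_ ?_ u
  · unfold J; simp only [zero_mul, mul_zero, add_zero]
  · intro a b ha hb
    have : J (a + b) v w = J a v w + J b v w := by
      unfold J
      simp only [add_mul, mul_add]; abel
    rw [this, ha, hb, add_zero]
  · intro c S hS
    have : J (c • e S) v w = c • J (e S) v w := by
      unfold J
      simp only [smul_mulB, mulB_smul, smul_add]
    rw [this, h S hS, smul_zero]

theorem J_basis {S T R : ℕ} (hS : S < 64) (hT : T < 64) (hR : R < 64) : J (e S : BK K) (e T) (e R) = 0 := by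
  have hTR : T ||| R < 64 := Nat.or_lt_two_pow (n := 6) hT hR
  have hRS : R ||| S < 64 := Nat.or_lt_two_pow (n := 6) hR hS
  have hST : S ||| T < 64 := Nat.or_lt_two_pow (n := 6) hS hT
  have e1 : T ||| (R ||| S) = S ||| (T ||| R) := by
    rw [Nat.lor_comm S, Nat.lor_assoc]
  have e2 : R ||| (S ||| T) = S ||| (T ||| R) := by
    rw [Nat.lor_comm R, Nat.lor_assoc]
  unfold J
  rw [e_mul_e hT hR, e_mul_e hR hS, e_mul_e hS hT, mulB_smul, mulB_smul, mulB_smul, e_mul_e hS hTR, e_mul_e hT hRS,
    e_mul_e hR hST, smul_smul, smul_smul, smul_smul, e1, e2, ← add_smul, ← add_smul]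
  have h := cast_mod h3 (jac S T R)
  rw [jac_all hS hT hR, Nat.cast_zero] at h
  have h' : ((cT T R * cT S (T ||| R) + (cT R S * cT T (R ||| S) + cT S T * cT R (S ||| T)) : ℕ) : K) = 0 := h
  rw [Nat.cast_add, Nat.cast_add, Nat.cast_mul, Nat.cast_mul, Nat.cast_mul] at h'
  rw [add_assoc, h', zero_smul]

theorem jac_B (u v w : BK K) : u * (v * w) + v * (w * u) + w * (u * v) = 0 := by
  refine J_step v w (fun S hS => ?_) u
  rw [J_rot]
  refine J_step w (e S) (fun T hT => ?_) v
  rw [J_rot]
  refine J_step (e S) (e T) (fun R hR => ?_) w
  exact J_basis h3 hR hS hT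

theorem isAlt_B : IsAlt (BK K) := by
  have key : ∀ a b : BK K, b * (a * a) = a * (a * b) := by
    intro a b
    have h := jac_B h3 a a b
    rw [comm_B h3 b a] at h
    have h2 : (3 : K) • (a * (a * b)) = 0 := by rw [h3, zero_smul]
    have h4 : (3 : K) • (a * (a * b)) = a * (a * b) + a * (a * b) + a * (a * b) := by
      rw [show (3 : K) = 1 + 1 + 1 by norm_num, add_smul, add_smul, one_smul]
    rw [h4] at h2
    have h5 : b * (a * a) = - (a * (a * b) + a * (a * b)) := by
      rw [eq_neg_iff_add_eq_zero, add_comm]; exact h
    rw [h5, neg_eq_iff_add_eq_zero]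
    exact h2
  constructor
  · intro a b
    rw [comm_B h3 (a * a) b, key]
  · intro a b
    rw [comm_B h3 (b * a) a, comm_B h3 b a, key]

end
end Pool.Agent.H61R2.Tor
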