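import Pool.Agent.H61R2.Tor.Word
set_option autoImplicit false

/-! Operator polynomials of nonassociative monomials, the relations between them, and certificates. -/

namespace Pool.Agent.H61R2.Tor
open Pool.Agent.Helper928.Nuc.Tens Pool.Agent.Helper928.Nuc.Alt
open Pl

/-- nonassociative monomials in the letters `v 0, ..., v 4` -/
inductive Tr
  | v : ℕ → Tr
  | m : Tr → Tr → Tr

/-- value of a monomial (letters `v i` with `i ≥ 5` have the value `0`) -/
def Tr.val {R : Type} [NonUnitalNonAssocRing R] (x : ℕ → R) : Tr → R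
  | .v i => if i < 5 then x i else 0
  | .m a b => a.val x * b.val x

/-- difference -/
noncomputable def sub (s t : Pl) : Pl := Pl.add s (Pl.smul (.negSucc 0) t)

/-- from the polynomials of right and left multiplication by `a` and by `b` to those of `a * b` -/
noncomputable def RLm (p q : Pl × Pl) : Pl × Pl :=
  (add (mul q.1 p.1) (sub (mul q.1 p.2) (mul p.2 q.1)),
    sub (mul p.2 q.2) (sub (mul q.1 p.2) (mul p.2 q.1)))

/-- the polynomials of right and left multiplication by a monomial -/
noncomputable def RL (t : Tr) : Pl × Pl :=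
  Tr.rec (motive := fun _ => Pl × Pl)
    (fun i => cond (Nat.ble i 4) (letter (Nat.mul 2 i), letter (Nat.add (Nat.mul 2 i) 1)) (.Z, .Z))
    (fun _ _ p q => RLm p q) t

theorem RL_m (a b : Tr) : RL (a.m b) = RLm (RL a) (RL b) := rfl

/-- `m ↦ (a m) b - a (m b)` -/
noncomputable def Ap (p q : Pl × Pl) : Pl := sub (mul q.1 p.2) (mul p.2 q.1)

/-- the relation `m ↦ (a, m, b) + (b, m, a)` -/
noncomputable def relP (a b : Tr) : Pl := add (Ap (RL a) (RL b)) (Ap (RL b) (RL a))

/-- the word with `n` letters, the base `16` digits of `c` -/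
noncomputable def monoK (k : ℤ) (n : ℕ) : ℕ → Pl :=
  Nat.rec (motive := fun _ => ℕ → Pl) (fun _ => Kc k) (fun _ ih c => child (Nat.mod c 16) (ih (Nat.div c 16))) n

/-- the polynomial `P` preceded by the word with `n` letters, the base `16` digits of `c` -/
noncomputable def pre (P : Pl) (n : ℕ) : ℕ → Pl :=
  Nat.rec (motive := fun _ => ℕ → Pl) (fun _ => P) (fun _ ih c => child (Nat.mod c 16) (ih (Nat.div c 16))) n

theorem monoK_succ (k : ℤ) (n c : ℕ) : monoK k (n + 1) c = child (c % 16) (monoK k n (c / 16)) := rfl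
theorem pre_succ (P : Pl) (n c : ℕ) : pre P (n + 1) c = child (c % 16) (pre P n (c / 16)) := rfl

/-- a relation between two words, with a coefficient -/
structure Item where
  s : ℤ
  a : Tr
  b : Tr
  pn : ℕ
  p : ℕ
  qn : ℕ
  q : ℕ

/-- the polynomial of an item -/
noncomputable def Item.poly (i : Item) : Pl :=
  pre (mul (monoK i.s i.qn i.q) (relP i.a i.b)) i.pn i.p

/-- binary trees with labelled leaves -/
inductive Bt (α : Type)
  | l : α → Bt α
  | n : Bt α → Bt α → Bt α

/-- the polynomial of a tree of items -/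
noncomputable def items (l : Bt Item) : Pl :=
  Bt.rec (motive := fun _ => Pl) (fun i => i.poly) (fun _ _ p q => Pl.add p q) l

theorem items_n (a b : Bt Item) : items (.n a b) = Pl.add (items a) (items b) := rfl

/-- a sum of words with five letters -/
noncomputable def words (l : Bt (ℤ × ℕ)) : Pl :=
  Bt.rec (motive := fun _ => Pl) (fun i => monoK i.1 5 i.2) (fun _ _ p q => Pl.add p q) l

theorem words_n (a b : Bt (ℤ × ℕ)) : words (.n a b) = Pl.add (words a) (words b) := rfl

section
variable {R : Type} [NonUnitalNonAssocRing R] (x : ℕ → R)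

/-- the action of a word -/
def opw : ℕ → ℕ → R → R
  | 0, _, m => m
  | n + 1, c, m => opw n (c / 16) (op x (c % 16) m)

/-- the action of a sum of words with five letters -/
def opL : Bt (ℤ × ℕ) → R → R
  | .l i, m => i.1 • opw x 5 i.2 m
  | .n a b, m => opL a m + opL b m

/-- `s` represents the operator `g` -/
def Rep (s : Pl) (g : R → R) : Prop := ∀ f : ℕ → ℕ → R → R, Addi f → ∀ m, ev x f s 0 0 m = f 0 0 (g m)

variable {x}

theorem Rep.addi {s : Pl} {g : R → R} (h : Rep x s g) (a b : R) : g (a + b) = g a + g b := by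
  have hid : Addi (fun _ _ (m : R) => m) := fun _ _ _ _ => rfl
  have : ev x (fun _ _ m => m) s 0 0 (a + b) = ev x (fun _ _ m => m) s 0 0 a + ev x (fun _ _ m => m) s 0 0 b :=
    ev_addi x hid s 0 0 a b
  rw [h _ hid, h _ hid, h _ hid] at this
  exact this

theorem Rep.map_zero {s : Pl} {g : R → R} (h : Rep x s g) : g 0 = 0 := by
  have := h.addi 0 0
  rw [add_zero] at this
  exact left_eq_add.mp this

theorem Rep.add {s t : Pl} {g h : R → R} (hs : Rep x s g) (ht : Rep x t h) :
    Rep x (Pl.add s t) (fun m => g m + h m) := by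
  intro f hf m
  rw [ev_add, hs f hf, ht f hf, hf]

theorem Rep.sub {s t : Pl} {g h : R → R} (hs : Rep x s g) (ht : Rep x t h) :
    Rep x (Tor.sub s t) (fun m => g m - h m) := by
  intro f hf m
  unfold Tor.sub
  rw [ev_add, ev_smul, hs f hf, ht f hf, hf.sub]
  show f 0 0 (g m) + (-1 : ℤ) • f 0 0 (h m) = f 0 0 (g m) - f 0 0 (h m)
  rw [neg_one_zsmul, sub_eq_add_neg]

theorem Rep.mul {s v : Pl} {g h : R → R} (hs : Rep x s g) (hv : Rep x v h) :
    Rep x (Pl.mul v s) (fun m => h (g m)) := by
  intro f hf m
  rw [ev_mul, hs _ (ev_addi x hf v), hv f hf]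

theorem Rep.congr {s : Pl} {g h : R → R} (hs : Rep x s g) (e : ∀ m, g m = h m) : Rep x s h := by
  intro f hf m
  rw [hs f hf, e]

theorem Rep.child {s : Pl} {g : R → R} (hs : Rep x s g) (i : ℕ) (hi : i < 16) :
    Rep x (child i s) (fun m => g (op x i m)) := by
  intro f hf m
  rw [ev_child x f i hi, hs f hf]

theorem rep_z : Rep x Pl.Z (fun _ => (0 : R)) := by
  intro f hf m
  show (0 : R) = f 0 0 0
  rw [hf.zero]

theorem rep_monoK (k : ℤ) (n : ℕ) : ∀ c : ℕ, Rep x (monoK k n c) (fun m => k • opw x n c m) := by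
  induction n with
  | zero =>
    intro c f hf m
    show ev x f (Kc k) 0 0 m = f 0 0 (k • m)
    rw [ev_Kc, hf.smul]
  | succ n ih =>
    intro c
    rw [monoK_succ]
    exact (ih (c / 16)).child (c % 16) (Nat.mod_lt _ (by norm_num))

theorem rep_pre {P : Pl} (hP : Rep x P (fun _ => 0)) (n : ℕ) : ∀ c : ℕ, Rep x (pre P n c) (fun _ => 0) := by
  induction n with
  | zero => intro c; exact hP
  | succ n ih =>
    intro c
    rw [pre_succ]
    exact (ih (c / 16)).child (c % 16) (Nat.mod_lt _ (by norm_num))

theorem rep_words (l : Bt (ℤ × ℕ)) : Rep x (words l) (opL x l) := by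
  induction l with
  | l i => exact rep_monoK i.1 5 i.2
  | n a b iha ihb =>
    rw [words_n]
    exact iha.add ihb

variable (hR : IsAlt R)
include hR

theorem RL_rep (t : Tr) : Rep x (RL t).1 (fun m => m * t.val x) ∧ Rep x (RL t).2 (fun m => t.val x * m) := by
  induction t with
  | v i =>
    by_cases hi : i < 5
    · have e : Nat.ble i 4 = true := by rw [Nat.ble_eq]; omega
      have e1 : RL (.v i) = (letter (2 * i), letter (2 * i + 1)) := by
        show cond (Nat.ble i 4) _ _ = _
        rw [e]; rfl
      rw [e1]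
      constructor
      · intro f hf m
        show ev x f (letter (2 * i)) 0 0 m = _
        rw [ev_letter x f _ (by omega)]
        unfold op Tr.val
        rw [if_pos (by omega), if_pos (by omega), if_pos hi]
        congr 3
        omega
      · intro f hf m
        show ev x f (letter (2 * i + 1)) 0 0 m = _
        rw [ev_letter x f _ (by omega)]
        unfold op Tr.val
        rw [if_pos (by omega), if_neg (by omega), if_pos hi]
        congr 3
        omega
    · have e : Nat.ble i 4 = false := by
        cases h : Nat.ble i 4 with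
        | false => rfl
        | true => rw [Nat.ble_eq] at h; omega
      have e1 : RL (.v i) = (.Z, .Z) := by
        show cond (Nat.ble i 4) _ _ = _
        rw [e]; rfl
      rw [e1]
      constructor
      · refine rep_z.congr fun m => ?_
        unfold Tr.val
        rw [if_neg hi, mul_zero]
      · refine rep_z.congr fun m => ?_
        unfold Tr.val
        rw [if_neg hi, zero_mul]
  | m a b iha ihb =>
    obtain ⟨ra, la⟩ := iha
    obtain ⟨rb, lb⟩ := ihb
    have A : Rep x (Tor.sub (Pl.mul (RL b).1 (RL a).2) (Pl.mul (RL a).2 (RL b).1))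
        (fun m => as (a.val x) m (b.val x)) := (la.mul rb).sub (rb.mul la)
    rw [RL_m]
    constructor
    · refine ((ra.mul rb).add A).congr fun m => ?_
      show m * a.val x * b.val x + as (a.val x) m (b.val x) = m * (a.val x * b.val x)
      rw [p12 hR (a.val x) m (b.val x)]
      unfold as
      abel
    · refine ((lb.mul la).sub A).congr fun m => ?_
      show a.val x * (b.val x * m) - as (a.val x) m (b.val x) = (a.val x * b.val x) * m
      rw [p23 hR (a.val x) m (b.val x)]
      unfold as
      abel

theorem Ap_rep (a b : Tr) : Rep x (Ap (RL a) (RL b)) (fun m => as (a.val x) m (b.val x)) :=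
  ((RL_rep hR a).2.mul (RL_rep hR b).1).sub ((RL_rep hR b).1.mul (RL_rep hR a).2)

theorem relP_rep (a b : Tr) : Rep x (relP a b) (fun _ => 0) := by
  refine ((Ap_rep hR a b).add (Ap_rep hR b a)).congr fun m => ?_
  show as (a.val x) m (b.val x) + as (b.val x) m (a.val x) = 0
  rw [p12 hR (a.val x) m (b.val x), p23 hR m (a.val x) (b.val x), p12 hR m (b.val x) (a.val x)]
  abel

theorem items_rep (l : Bt Item) : Rep x (items l) (fun _ => 0) := by
  induction l with
  | l i =>
    refine rep_pre ?_ _ _
    refine ((relP_rep hR i.a i.b).mul (rep_monoK i.s i.qn i.q)).congr fun m => ?_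
    exact (rep_monoK i.s i.qn i.q).map_zero
  | n a b iha ihb =>
    rw [items_n]
    exact (iha.add ihb).congr fun m => add_zero _

/-- soundness of certificates -/
theorem cert_sound (l : Bt Item) (w : Bt (ℤ × ℕ)) (d : ℤ)
    (h : Pl.isZ (Pl.add (Pl.smul d (words w)) (items l)) = true) (m : R) : d • opL x w m = 0 := by
  have hf : Addi (fun _ _ (m : R) => m) := fun _ _ _ _ => rfl
  have h1 := ev_isZ x (fun _ _ m => m) _ h 0 0 m
  rw [ev_add, ev_smul, rep_words w _ hf, items_rep hR l _ hf, add_zero] at h1
  exact h1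

end
end Pool.Agent.H61R2.Tor
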