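import Pool.Agent.Helper928.Nuc.Alt
set_option autoImplicit false

/-!
Operator words in alternative rings.

For an alternative ring `R` and five elements `x 0, ..., x 4` we look at integer polynomials in ten non-commuting
letters: letter `2 * i` is right multiplication by `x i`, letter `2 * i + 1` is left multiplication by `x i`.
A letter is coded by its four binary digits (lowest first), and a polynomial is stored as a binary tree (`Pl`): the
first letter of a word is applied first.
-/

namespace Pool.Agent.H61R2.Tor
open Pool.Agent.Helper928.Nuc.Tens Pool.Agent.Helper928.Nuc.Alt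

/-- polynomials: `Z` is zero, `B l r` a branch, `N k l r` a branch with the coefficient `k` of the empty word -/
inductive Pl
  | Z : Pl
  | B : Pl → Pl → Pl
  | N : ℤ → Pl → Pl → Pl

namespace Pl

/-- sum -/
noncomputable def add (s : Pl) : Pl → Pl :=
  Pl.rec (motive := fun _ => Pl → Pl) (fun t => t)
    (fun l r hl hr t =>
      Pl.casesOn (motive := fun _ => Pl) t (B l r) (fun l' r' => B (hl l') (hr r')) (fun k l' r' => N k (hl l') (hr r')))
    (fun k l r hl hr t =>
      Pl.casesOn (motive := fun _ => Pl) t (N k l r) (fun l' r' => N k (hl l') (hr r'))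
        (fun k' l' r' => N (Int.add k k') (hl l') (hr r'))) s

/-- multiplication by an integer -/
noncomputable def smul (c : ℤ) (s : Pl) : Pl :=
  Pl.rec (motive := fun _ => Pl) Z (fun _ _ hl hr => B hl hr) (fun k _ _ hl hr => N (Int.mul c k) hl hr) s

/-- `mul v s` is the product `s * v` (first `s`, then `v`) -/
noncomputable def mul (v s : Pl) : Pl :=
  Pl.rec (motive := fun _ => Pl) Z (fun _ _ hl hr => B hl hr) (fun k _ _ hl hr => add (smul k v) (B hl hr)) s

/-- is this integer `0`? -/
def isz : ℤ → Bool
  | .ofNat q => Nat.beq q 0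
  | .negSucc _ => false

theorem isz_eq {k : ℤ} (h : isz k = true) : k = 0 := by
  cases k with
  | ofNat q =>
    simp only [isz] at h
    have := Nat.eq_of_beq_eq_true h
    subst this; rfl
  | negSucc q => simp [isz] at h

/-- is this the zero polynomial? -/
noncomputable def isZ (s : Pl) : Bool :=
  Pl.rec (motive := fun _ => Bool) true (fun _ _ hl hr => hl && hr) (fun k _ _ hl hr => isz k && (hl && hr)) s

end Pl
open Pl

section eval
variable {R : Type} [NonUnitalNonAssocRing R]

/-- the action of the letter `i < 10`; other letters act as `0` -/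
def op (x : ℕ → R) (i : ℕ) (m : R) : R :=
  if i < 10 then (if i % 2 = 0 then m * x (i / 2) else x (i / 2) * m) else 0

theorem op_add (x : ℕ → R) (i : ℕ) (m m' : R) : op x i (m + m') = op x i m + op x i m' := by
  unfold op
  split_ifs
  · rw [add_mul]
  · rw [mul_add]
  · rw [add_zero]

/-- the element reached after reading the bit `β` (`j` bits with value `c` of the current letter have been read) -/
def stm (x : ℕ → R) (β j c : ℕ) (m : R) : R := if j = 3 then op x (c + 8 * β) m else m
/-- the number of bits read after reading a bit -/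
def stj (j : ℕ) : ℕ := if j = 3 then 0 else j + 1
/-- their value -/
def stc (β j c : ℕ) : ℕ := if j = 3 then 0 else c + 2 ^ j * β

theorem stm_add (x : ℕ → R) (β j c : ℕ) (m m' : R) : stm x β j c (m + m') = stm x β j c m + stm x β j c m' := by
  unfold stm
  split_ifs
  · exact op_add _ _ _ _
  · rfl

/-- evaluation of a polynomial at `m`, followed by `f` -/
noncomputable def ev (x : ℕ → R) (f : ℕ → ℕ → R → R) : Pl → ℕ → ℕ → R → R
  | Z, _, _, _ => 0
  | B l r, j, c, m => ev x f l (stj j) (stc 0 j c) (stm x 0 j c m) + ev x f r (stj j) (stc 1 j c) (stm x 1 j c m)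
  | N k l r, j, c, m => k • f j c m +
      (ev x f l (stj j) (stc 0 j c) (stm x 0 j c m) + ev x f r (stj j) (stc 1 j c) (stm x 1 j c m))

variable (x : ℕ → R) (f : ℕ → ℕ → R → R)

theorem ev_add (s : Pl) : ∀ (t : Pl) (j c : ℕ) (m : R), ev x f (add s t) j c m = ev x f s j c m + ev x f t j c m := by
  induction s with
  | Z => intro t j c m; show ev x f t j c m = 0 + _; rw [zero_add]
  | B l r hl hr =>
    intro t j c m
    cases t with
    | Z => show ev x f (B l r) j c m = _ + 0; rw [add_zero]
    | B l' r' =>
      show ev x f (B (add l l') (add r r')) j c m = _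
      simp only [ev, hl, hr]
      abel
    | N k l' r' =>
      show ev x f (N k (add l l') (add r r')) j c m = _
      simp only [ev, hl, hr]
      abel
  | N k l r hl hr =>
    intro t j c m
    cases t with
    | Z => show ev x f (N k l r) j c m = _ + 0; rw [add_zero]
    | B l' r' =>
      show ev x f (N k (add l l') (add r r')) j c m = _
      simp only [ev, hl, hr]
      abel
    | N k' l' r' =>
      show ev x f (N (k + k') (add l l') (add r r')) j c m = _
      simp only [ev, hl, hr, add_smul]
      abel

theorem ev_smul (a : ℤ) (s : Pl) : ∀ (j c : ℕ) (m : R), ev x f (smul a s) j c m = a • ev x f s j c m := by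
  induction s with
  | Z => intro j c m; show (0 : R) = a • 0; rw [smul_zero]
  | B l r hl hr =>
    intro j c m
    show ev x f (B (smul a l) (smul a r)) j c m = _
    simp only [ev, hl, hr, smul_add]
  | N k l r hl hr =>
    intro j c m
    show ev x f (N (a * k) (smul a l) (smul a r)) j c m = _
    simp only [ev, hl, hr, smul_add, mul_smul]

theorem ev_mul (v s : Pl) : ∀ (j c : ℕ) (m : R),
    ev x f (mul v s) j c m = ev x (fun j c m => ev x f v j c m) s j c m := by
  induction s with
  | Z => intro j c m; rfl
  | B l r hl hr =>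
    intro j c m
    show ev x f (B (mul v l) (mul v r)) j c m = _
    simp only [ev, hl, hr]
  | N k l r hl hr =>
    intro j c m
    show ev x f (add (smul k v) (B (mul v l) (mul v r))) j c m = _
    simp only [ev_add, ev_smul, ev, hl, hr]

theorem ev_isZ (s : Pl) : isZ s = true → ∀ (j c : ℕ) (m : R), ev x f s j c m = 0 := by
  induction s with
  | Z => intro _ j c m; rfl
  | B l r hl hr =>
    intro h j c m
    have h' : (isZ l && isZ r) = true := h
    rw [Bool.and_eq_true] at h'
    rw [ev, hl h'.1, hr h'.2, add_zero]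
  | N k l r hl hr =>
    intro h j c m
    have h' : (isz k && (isZ l && isZ r)) = true := h
    rw [Bool.and_eq_true, Bool.and_eq_true] at h'
    rw [ev, hl h'.2.1, hr h'.2.2, isz_eq h'.1, zero_smul, add_zero, add_zero]

/-- additive maps -/
def Addi (f : ℕ → ℕ → R → R) : Prop := ∀ j c a b, f j c (a + b) = f j c a + f j c b

variable {f}

theorem Addi.zero (hf : Addi f) (j c : ℕ) : f j c 0 = 0 := by
  have := hf j c 0 0
  rw [add_zero] at this
  exact left_eq_add.mp this

theorem Addi.smul (hf : Addi f) (j c : ℕ) (a : ℤ) (u : R) : f j c (a • u) = a • f j c u :=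
  map_zsmul (AddMonoidHom.mk' (f j c) (hf j c)) a u

theorem Addi.sub (hf : Addi f) (j c : ℕ) (a b : R) : f j c (a - b) = f j c a - f j c b :=
  map_sub (AddMonoidHom.mk' (f j c) (hf j c)) a b

theorem ev_addi (hf : Addi f) (s : Pl) : Addi (fun j c m => ev x f s j c m) := by
  induction s with
  | Z => intro j c a b; simp only [ev, add_zero]
  | B l r hl hr =>
    intro j c m m'
    simp only [Addi] at hl hr
    simp only [ev, stm_add, hl, hr]
    abel
  | N k l r hl hr =>
    intro j c m m'
    simp only [Addi] at hl hr
    simp only [ev, stm_add, hl, hr, hf j c m m', smul_add]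
    abel

end eval

/-- the polynomial `P` preceded by a bit -/
noncomputable def bitn (i : ℕ) (P : Pl) : Pl := cond (Nat.beq (Nat.mod i 2) 0) (B P Z) (B Z P)

/-- the polynomial `P` preceded by the letter `i` -/
noncomputable def child (i : ℕ) (P : Pl) : Pl :=
  bitn i (bitn (Nat.div i 2) (bitn (Nat.div i 4) (bitn (Nat.div i 8) P)))

/-- the empty word, with a coefficient -/
def Kc (k : ℤ) : Pl := .N k .Z .Z

/-- letter -/
noncomputable def letter (i : ℕ) : Pl := child i (Kc (.ofNat 1))

section
variable {R : Type} [NonUnitalNonAssocRing R] (x : ℕ → R) (f : ℕ → ℕ → R → R)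

theorem ev_bitn (i : ℕ) (P : Pl) (j c : ℕ) (m : R) :
    ev x f (bitn i P) j c m = ev x f P (stj j) (stc (i % 2) j c) (stm x (i % 2) j c m) := by
  unfold bitn
  obtain h | h := Nat.mod_two_eq_zero_or_one i
  · have e : Nat.beq (Nat.mod i 2) 0 = true := by
      rw [show Nat.mod i 2 = i % 2 from rfl, h]; rfl
    rw [e, h]
    show ev x f (B P Z) j c m = _
    simp only [ev, add_zero]
  · have e : Nat.beq (Nat.mod i 2) 0 = false := by
      rw [show Nat.mod i 2 = i % 2 from rfl, h]; rfl
    rw [e, h]
    show ev x f (B Z P) j c m = _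
    simp only [ev, zero_add]

theorem ev_child (i : ℕ) (hi : i < 16) (P : Pl) (m : R) : ev x f (child i P) 0 0 m = ev x f P 0 0 (op x i m) := by
  unfold child
  rw [ev_bitn, ev_bitn, ev_bitn, ev_bitn]
  have e : 0 + 2 ^ 0 * (i % 2) + 2 ^ 1 * (Nat.div i 2 % 2) + 2 ^ 2 * (Nat.div i 4 % 2) + 8 * (Nat.div i 8 % 2) = i := by
    show 0 + 2 ^ 0 * (i % 2) + 2 ^ 1 * (i / 2 % 2) + 2 ^ 2 * (i / 4 % 2) + 8 * (i / 8 % 2) = i
    omega
  simp only [stj, stc, stm]
  norm_num
  norm_num at e
  rw [e]

theorem ev_Kc (k : ℤ) (j c : ℕ) (m : R) : ev x f (Kc k) j c m = k • f j c m := by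
  simp [Kc, ev]

theorem ev_letter (i : ℕ) (hi : i < 16) (m : R) : ev x f (letter i) 0 0 m = f 0 0 (op x i m) := by
  unfold letter
  rw [ev_child x f i hi, ev_Kc]
  simp

end

end Pool.Agent.H61R2.Tor
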